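import Pool.Agent.Lib_helper84.FT.Defs

set_option autoImplicit false

namespace Pool.Agent.FT

namespace Growth

variable {M : Type} [Monoid M]

/-- `x` is a product of at least `n` non-units. -/
def Len (x : M) (n : ℕ) : Prop :=
  ∃ l : List M, (∀ y ∈ l, y ≠ 1) ∧ l.prod = x ∧ n ≤ l.length

theorem Len.zero (x : M) : Len x 0 := by
  by_cases h : x = 1
  · exact ⟨[], by simp, by simp [h], by simp⟩
  · exact ⟨[x], by simpa using h, by simp, by simp⟩

theorem Len.mono {x : M} {n m : ℕ} (h : Len x n) (hm : m ≤ n) : Len x m := by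
  obtain ⟨l, h1, h2, h3⟩ := h
  exact ⟨l, h1, h2, hm.trans h3⟩

theorem Len.mul {x y : M} {n m : ℕ} (h : Len x n) (h' : Len y m) : Len (x * y) (n + m) := by
  obtain ⟨l, h1, h2, h3⟩ := h
  obtain ⟨l', h1', h2', h3'⟩ := h'
  refine ⟨l ++ l', ?_, ?_, ?_⟩
  · intro z hz
    rcases List.mem_append.1 hz with hz | hz
    · exact h1 z hz
    · exact h1' z hz
  · rw [List.prod_append, h2, h2']
  · rw [List.length_append]; omega

theorem Len.pow {x : M} (h : x ≠ 1) (n : ℕ) : Len (x ^ n) n :=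
  ⟨List.replicate n x, by
    intro y hy
    rw [List.eq_of_mem_replicate hy]
    exact h, by rw [List.prod_replicate], by rw [List.length_replicate]⟩

/-- ordered product of the first `n` values -/
def pr (f : ℕ → M) : ℕ → M
  | 0 => 1
  | n + 1 => pr f n * f n

theorem pr_succ (f : ℕ → M) (n : ℕ) : pr f (n + 1) = pr f n * f n := rfl

theorem pr_front (f : ℕ → M) (n : ℕ) : pr f (n + 1) = f 0 * pr (fun i => f (i + 1)) n := by
  induction n with
  | zero => simp [pr]
  | succ n ih => rw [pr_succ, ih, pr_succ, mul_assoc]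

theorem pr_congr {f g : ℕ → M} {n : ℕ} (h : ∀ i, i < n → f i = g i) : pr f n = pr g n := by
  induction n with
  | zero => rfl
  | succ n ih =>
    rw [pr_succ, pr_succ, ih (fun i hi => h i (by omega)), h n (by omega)]

/-- pushing `r` to the right -/
theorem pr_push (u r v : ℕ → M) (h1 : ∀ i, v i * r i = r i * v i)
    (h2 : ∀ i, u i * r i = r i * u i) (h3 : ∀ i, v i * r i = u (i + 1) * r (i + 1)) (N K : ℕ) :
    r 0 ^ N * pr (fun i => v i ^ N) K = pr (fun i => u (i + 1) ^ N) K * r K ^ N := by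
  induction K with
  | zero => simp [pr]
  | succ K ih =>
    have e1 : r K ^ N * v K ^ N = u (K + 1) ^ N * r (K + 1) ^ N := by
      have c1 : Commute (r K) (v K) := (h1 K).symm
      have c2 : Commute (u (K + 1)) (r (K + 1)) := h2 (K + 1)
      rw [← c1.mul_pow, ← c2.mul_pow, ← h1 K, h3 K]
    rw [pr_succ, ← mul_assoc, ih, mul_assoc, e1, ← mul_assoc, pr_succ]

theorem pow_mul_pow_of_central {d : M} (hd : ∀ x : M, d * x = x * d) {r c : M}
    (h : r * c = d) (N : ℕ) : r ^ N * c ^ N = d ^ N := by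
  induction N with
  | zero => simp
  | succ N ih =>
    have : r ^ (N + 1) * c ^ (N + 1) = r ^ N * (r * c) * c ^ N := by
      rw [pow_succ r, pow_succ' c]; simp only [mul_assoc]
    rw [this, h, mul_assoc, hd, ← mul_assoc, ih, pow_succ]

theorem line_eq {d : M} (hd : ∀ x : M, d * x = x * d) (u r v : ℕ → M)
    (h1 : ∀ i, v i * r i = r i * v i)
    (h2 : ∀ i, u i * r i = r i * u i) (h3 : ∀ i, v i * r i = u (i + 1) * r (i + 1)) (N K : ℕ)
    {c : M} (hc : r K * c = d) :
    pr (fun i => u i ^ N) (K + 1) * d ^ N =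
      u 0 ^ N * (r 0 ^ N * (pr (fun i => v i ^ N) K * c ^ N)) := by
  rw [pr_front, ← pow_mul_pow_of_central hd hc N, ← mul_assoc (r 0 ^ N), pr_push u r v h1 h2 h3]
  simp only [mul_assoc]

theorem central_pow {d : M} (hd : ∀ x : M, d * x = x * d) (n : ℕ) (x : M) :
    d ^ n * x = x * d ^ n := by
  have : Commute d x := hd x
  exact (this.pow_left n).eq

/-- the columns -/
theorem columns {d : M} (hd : ∀ x : M, d * x = x * d) (v : ℕ → M) (N T F : ℕ)
    (h : ∀ i, Len (v (2 * i) ^ N * v (2 * i + 1) ^ N * d ^ (2 * T)) (2 * F + N)) (m : ℕ) :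
    Len (pr (fun i => v i ^ N) (2 * m) * d ^ (2 * m * T)) (m * (2 * F + N)) := by
  induction m with
  | zero => simpa using Len.zero _
  | succ m ih =>
    have e : pr (fun i => v i ^ N) (2 * (m + 1)) * d ^ (2 * (m + 1) * T) =
        (pr (fun i => v i ^ N) (2 * m) * d ^ (2 * m * T)) *
          (v (2 * m) ^ N * v (2 * m + 1) ^ N * d ^ (2 * T)) := by
      rw [mul_assoc (pr (fun i => v i ^ N) (2 * m)), central_pow hd (2 * m * T),
        show 2 * (m + 1) = 2 * m + 1 + 1 by ring, pr_succ, pr_succ,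
        show (2 * m + 1 + 1) * T = 2 * T + 2 * m * T by ring, pow_add d]
      simp only [mul_assoc]
    rw [e]
    have := ih.mul (h m)
    refine this.mono (le_of_eq ?_)
    ring

theorem w_eq (f g : ℕ → M) (w : M) (hfg : ∀ i, f i * g i = w) (hgf : ∀ i, g i * f i = w)
    (N K : ℕ) : pr (fun i => f i ^ N) K * pr (fun i => g (K - 1 - i) ^ N) K = w ^ (N * K) := by
  induction K with
  | zero => simp [pr]
  | succ K ih =>
    have hwf : ∀ i, Commute w (f i) := by
      intro i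
      show w * f i = f i * w
      rw [← hfg i, mul_assoc, hgf i, hfg i]
    have e0 : pr (fun i => g (K + 1 - 1 - i) ^ N) (K + 1) =
        g K ^ N * pr (fun i => g (K - 1 - i) ^ N) K := by
      rw [pr_front]
      simp only [Nat.add_sub_cancel, Nat.sub_zero]
      congr 1
      apply pr_congr
      intro i hi
      congr 2
      omega
    have e1 : f K ^ N * g K ^ N = w ^ N := by
      have c : Commute (f K) (g K) := by
        show f K * g K = g K * f K
        rw [hfg, hgf]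
      rw [← c.mul_pow, hfg]
    have hw : Commute (w ^ N) (pr (fun i => f i ^ N) K) := by
      have : ∀ n, Commute (w ^ N) (pr (fun i => f i ^ N) n) := by
        intro n
        induction n with
        | zero => exact Commute.one_right _
        | succ n ihn => exact ihn.mul_right (((hwf n).pow_left N).pow_right N)
      exact this K
    rw [e0, pr_succ, mul_assoc, ← mul_assoc (f K ^ N), e1, ← mul_assoc, ← hw.eq, mul_assoc, ih,
      ← pow_add]
    congr 1
    ring

/-- every product of divisors of `d` divides the right power of `d` -/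
theorem pr_dvd {d : M} (hd : ∀ x : M, d * x = x * d) (f : ℕ → M) (hf : ∀ i, ∃ c, f i * c = d)
    (N K : ℕ) : ∃ y, pr (fun i => f i ^ N) K * y = d ^ (N * K) := by
  induction K with
  | zero => exact ⟨1, by simp [pr]⟩
  | succ K ih =>
    obtain ⟨y, hy⟩ := ih
    obtain ⟨c, hc⟩ := hf K
    refine ⟨c ^ N * y, ?_⟩
    rw [pr_succ, mul_assoc, ← mul_assoc (f K ^ N), pow_mul_pow_of_central hd hc N,
      central_pow hd N, ← mul_assoc, hy, ← pow_add]
    congr 1

theorem par_inc (j : ZMod 4) : (j = 0 ∨ j = 2) ∨ (j + 1 = 0 ∨ j + 1 = 2) := by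
  revert j; decide

theorem par_dec (j : ZMod 4) : (j = 0 ∨ j = 2) ∨ (j - 1 = 0 ∨ j - 1 = 2) := by
  revert j; decide

variable {d : M} (A : Lines M d)

def incf (k : ZMod 3) (a : ZMod 4) (i : ℕ) : M := A.U k (a + (i : ZMod 4))
def decf (k : ZMod 3) (b : ZMod 4) (i : ℕ) : M := A.U k (b - (i : ZMod 4))

theorem U_comm (k : ZMod 3) (j : ZMod 4) : A.U k (j + 2) * A.U k j = A.W k := by
  have h := A.UU k (j + 2)
  have : j + 2 + 2 = j := by
    rw [add_assoc]
    have : (2 + 2 : ZMod 4) = 0 := by decide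
    rw [this, add_zero]
  rwa [this] at h

theorem W_pow (k : ZMod 3) (a : ZMod 4) (N K : ℕ) :
    A.W k ^ (N * K) = pr (fun i => incf A k a i ^ N) K *
      pr (fun i => decf A k (a + 2 + (K : ZMod 4) - 1) i ^ N) K := by
  rw [← w_eq (fun i => incf A k a i) (fun i => A.U k (a + (i : ZMod 4) + 2)) (A.W k)
    (fun i => A.UU k _) (fun i => U_comm A k _) N K]
  congr 1
  apply pr_congr
  intro i hi
  unfold decf
  congr 2
  have : ((K - 1 - i : ℕ) : ZMod 4) = (K : ZMod 4) - 1 - (i : ZMod 4) := by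
    rw [Nat.sub_sub, Nat.cast_sub (by omega)]
    push_cast
    ring
  rw [this]
  ring

/-- the induction claim -/
def Claim (K l T F : ℕ) : Prop :=
  (∀ k a, Len (pr (fun i => incf A k a i ^ (K ^ l)) K * d ^ T) F) ∧
  (∀ k b, Len (pr (fun i => decf A k b i ^ (K ^ l)) K * d ^ T) F)

theorem claim_W {K l T F : ℕ} (h : Claim A K l T F) (k : ZMod 3) :
    Len (A.W k ^ (K ^ (l + 1)) * d ^ (2 * T)) (2 * F) := by
  have e := W_pow A k 0 (K ^ l) K
  rw [pow_succ K, e, show 2 * T = T + T by ring, pow_add, show 2 * F = F + F by ring]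
  have h1 := (h.1 k 0).mul (h.2 k (0 + 2 + (K : ZMod 4) - 1))
  have e2 : (pr (fun i => incf A k 0 i ^ (K ^ l)) K *
      pr (fun i => decf A k (0 + 2 + (K : ZMod 4) - 1) i ^ (K ^ l)) K) * (d ^ T * d ^ T) =
      (pr (fun i => incf A k 0 i ^ (K ^ l)) K * d ^ T) *
      (pr (fun i => decf A k (0 + 2 + (K : ZMod 4) - 1) i ^ (K ^ l)) K * d ^ T) := by
    simp only [mul_assoc]
    congr 1
    rw [← mul_assoc, ← central_pow A.central T]
  rw [e2]
  exact h1

theorem pair {K l T F : ℕ} (h : Claim A K l T F) (k : ZMod 3) (x y : M)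
    (hxy : (x = A.W (k + 1) ∧ y ≠ 1) ∨ (y = A.W (k + 1) ∧ x ≠ 1)) :
    Len (x ^ (K ^ (l + 1)) * y ^ (K ^ (l + 1)) * d ^ (2 * T)) (2 * F + K ^ (l + 1)) := by
  rcases hxy with ⟨rfl, hy⟩ | ⟨rfl, hx⟩
  · rw [mul_assoc, ← central_pow A.central (2 * T), ← mul_assoc]
    exact (claim_W A h (k + 1)).mul (Len.pow hy _)
  · rw [mul_assoc, add_comm (2 * F)]
    exact (Len.pow hx _).mul (claim_W A h (k + 1))

theorem line_len {m l T F : ℕ} (k : ZMod 3) (h : Claim A (2 * m + 1) l T F)
    (u r v : ℕ → M)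
    (h1 : ∀ i, v i * r i = r i * v i)
    (h2 : ∀ i, u i * r i = r i * u i) (h3 : ∀ i, v i * r i = u (i + 1) * r (i + 1))
    (hr : ∀ i, ∃ c, c ≠ 1 ∧ r i * c = d)
    (hv : ∀ i, (v (2 * i) = A.W (k + 1) ∧ v (2 * i + 1) ≠ 1) ∨
      (v (2 * i + 1) = A.W (k + 1) ∧ v (2 * i) ≠ 1)) :
    Len (pr (fun i => u i ^ ((2 * m + 1) ^ (l + 1))) (2 * m + 1) *
      d ^ ((2 * m + 1) ^ (l + 1) + 2 * m * T)) (m * (2 * F + (2 * m + 1) ^ (l + 1))) := by
  obtain ⟨c, hc1, hc⟩ := hr (2 * m)
  have e := line_eq A.central u r v h1 h2 h3 ((2 * m + 1) ^ (l + 1)) (2 * m) hc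
  rw [pow_add d, ← mul_assoc, e]
  have hcol := columns A.central v ((2 * m + 1) ^ (l + 1)) T F (fun i => pair A h k _ _ (hv i)) m
  have e2 : u 0 ^ ((2 * m + 1) ^ (l + 1)) * (r 0 ^ ((2 * m + 1) ^ (l + 1)) *
      (pr (fun i => v i ^ ((2 * m + 1) ^ (l + 1))) (2 * m) * c ^ ((2 * m + 1) ^ (l + 1)))) *
        d ^ (2 * m * T) =
      (u 0 ^ ((2 * m + 1) ^ (l + 1)) * r 0 ^ ((2 * m + 1) ^ (l + 1))) *
      ((pr (fun i => v i ^ ((2 * m + 1) ^ (l + 1))) (2 * m) * d ^ (2 * m * T)) *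
        c ^ ((2 * m + 1) ^ (l + 1))) := by
    generalize 2 * m * T = s
    simp only [mul_assoc]
    rw [central_pow A.central s]
  rw [e2]
  have := (Len.zero (u 0 ^ ((2 * m + 1) ^ (l + 1)) * r 0 ^ ((2 * m + 1) ^ (l + 1)))).mul
    (hcol.mul (Len.zero (c ^ ((2 * m + 1) ^ (l + 1)))))
  simpa using this

theorem claim_succ {m l T F : ℕ} (h : Claim A (2 * m + 1) l T F) :
    Claim A (2 * m + 1) (l + 1) ((2 * m + 1) ^ (l + 1) + 2 * m * T)
      (m * (2 * F + (2 * m + 1) ^ (l + 1))) := by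
  have hV : ∀ (k : ZMod 3) (j : ZMod 4), (j = 0 ∨ j = 2) → A.V k j = A.W (k + 1) := by
    rintro k j (rfl | rfl)
    · exact A.V_zero k
    · exact A.V_two k
  constructor
  · intro k a
    refine line_len A k h (incf A k a) (fun i => A.R k (a + (i : ZMod 4)))
      (fun i => A.V k (a + (i : ZMod 4))) ?_ ?_ ?_ ?_ ?_
    · intro i; exact A.VR k _
    · intro i; exact A.UR k _
    · intro i
      have := A.VR_eq k (a + (i : ZMod 4))
      simp only [incf]
      rw [this]
      push_cast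
      rw [add_assoc]
    · intro i; exact A.R_dvd k _
    · intro i
      have e : (a + ((2 * i + 1 : ℕ) : ZMod 4)) = (a + ((2 * i : ℕ) : ZMod 4)) + 1 := by
        push_cast; ring
      rcases par_inc (a + ((2 * i : ℕ) : ZMod 4)) with hp | hp
      · left; exact ⟨hV k _ hp, A.V_ne k _⟩
      · right
        refine ⟨?_, A.V_ne k _⟩
        show A.V k (a + ((2 * i + 1 : ℕ) : ZMod 4)) = _
        rw [e]
        exact hV k _ hp
  · intro k b
    refine line_len A k h (decf A k b) (fun i => A.L k (b - (i : ZMod 4)))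
      (fun i => A.V k (b - 1 - (i : ZMod 4))) ?_ ?_ ?_ ?_ ?_
    · intro i
      have := A.VL k (b - 1 - (i : ZMod 4))
      rwa [show b - 1 - (i : ZMod 4) + 1 = b - (i : ZMod 4) by ring] at this
    · intro i; exact A.UL k _
    · intro i
      have := A.VL_eq k (b - 1 - (i : ZMod 4))
      rw [show b - 1 - (i : ZMod 4) + 1 = b - (i : ZMod 4) by ring] at this
      simp only [decf]
      rw [this]
      push_cast
      rw [show b - ((i : ZMod 4) + 1) = b - 1 - (i : ZMod 4) by ring]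
    · intro i; exact A.L_dvd k _
    · intro i
      have e : (b - 1 - ((2 * i + 1 : ℕ) : ZMod 4)) = (b - 1 - ((2 * i : ℕ) : ZMod 4)) - 1 := by
        push_cast; ring
      rcases par_dec (b - 1 - ((2 * i : ℕ) : ZMod 4)) with hp | hp
      · left; exact ⟨hV k _ hp, A.V_ne k _⟩
      · right
        refine ⟨?_, A.V_ne k _⟩
        show A.V k (b - 1 - ((2 * i + 1 : ℕ) : ZMod 4)) = _
        rw [e]
        exact hV k _ hp

theorem pr_len {f : ℕ → M} (hf : ∀ i, f i ≠ 1) (K : ℕ) : Len (pr f K) K := by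
  induction K with
  | zero => exact Len.zero _
  | succ K ih =>
    have := ih.mul (Len.pow (hf K) 1)
    rwa [pow_one] at this

theorem claim_zero (K : ℕ) : Claim A K 0 0 K := by
  constructor
  · intro k a
    simp only [pow_zero, pow_one, mul_one]
    exact pr_len (fun i => A.U_ne k _) K
  · intro k a
    simp only [pow_zero, pow_one, mul_one]
    exact pr_len (fun i => A.U_ne k _) K

theorem claim_all (m l : ℕ) (hl : l + 1 ≤ 2 * m) : ∃ T F : ℕ, Claim A (2 * m + 1) l T F ∧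
    T ≤ l * (2 * m + 1) ^ l ∧ (l + 1) * (2 * m + 1) ^ (l + 1) ≤ 4 * F := by
  induction l with
  | zero =>
    refine ⟨0, 2 * m + 1, claim_zero A _, by simp, ?_⟩
    simp only [zero_add, pow_one]
    omega
  | succ l ih =>
    obtain ⟨T, F, h, hT, hF⟩ := ih (by omega)
    refine ⟨_, _, claim_succ A h, ?_, ?_⟩
    · have e1 : 2 * m * T ≤ 2 * m * (l * (2 * m + 1) ^ l) := Nat.mul_le_mul_left _ hT
      have e2 : 2 * m * (l * (2 * m + 1) ^ l) ≤ l * (2 * m + 1) ^ (l + 1) := by
        rw [pow_succ]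
        nlinarith [Nat.zero_le (l * (2 * m + 1) ^ l)]
      have e3 : (l + 1) * (2 * m + 1) ^ (l + 1) =
        (2 * m + 1) ^ (l + 1) + l * (2 * m + 1) ^ (l + 1) := by ring
      omega
    · have e1 : 2 * m * ((l + 1) * (2 * m + 1) ^ (l + 1)) ≤ 2 * m * (4 * F) :=
        Nat.mul_le_mul_left _ hF
      have e2 : (l + 1 + 1) * (2 * m + 1) ^ (l + 1 + 1) =
          (l + 2) * (2 * m + 1) * (2 * m + 1) ^ (l + 1) := by ring
      have e3 : (l + 2) * (2 * m + 1) ≤ 2 * m * (l + 1) + 4 * m := by nlinarith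
      have e4 := Nat.mul_le_mul_right ((2 * m + 1) ^ (l + 1)) e3
      rw [e2]
      calc (l + 2) * (2 * m + 1) * (2 * m + 1) ^ (l + 1)
          ≤ (2 * m * (l + 1) + 4 * m) * (2 * m + 1) ^ (l + 1) := e4
        _ = 2 * m * ((l + 1) * (2 * m + 1) ^ (l + 1)) + 4 * m * (2 * m + 1) ^ (l + 1) := by ring
        _ ≤ 2 * m * (4 * F) + 4 * m * (2 * m + 1) ^ (l + 1) := by omega
        _ = 4 * (m * (2 * F + (2 * m + 1) ^ (l + 1))) := by ring

end Growth

open Growth in
/-- BLOCK GROWTH. -/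
theorem Lines.unbounded_proof {M : Type} [Monoid M] {d : M} (A : Lines M d) (C : ℕ) :
    ∃ k n : ℕ, C * k < n ∧ ∃ f : Fin n → M, (∀ i, f i ≠ 1) ∧ (List.ofFn f).prod = d ^ k := by
  obtain ⟨T, F, h, hT, hF⟩ := claim_all A (4 * C + 1) (8 * C) (by omega)
  set K := 2 * (4 * C + 1) + 1 with hK
  obtain ⟨y, hy⟩ := pr_dvd A.central (fun i => incf A 0 0 i) (fun i => A.U_dvd 0 _) (K ^ (8 * C)) K
  have hLen : Len (d ^ (K ^ (8 * C) * K + T)) F := by
    have := (h.1 0 0).mul (Len.zero y)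
    rw [pow_add, ← hy, mul_assoc, ← central_pow A.central T, ← mul_assoc]
    simpa using this
  obtain ⟨l, h1, h2, h3⟩ := hLen
  refine ⟨K ^ (8 * C) * K + T, l.length, ?_, l.get, ?_, ?_⟩
  · have e1 : T ≤ K ^ (8 * C) * K := by
      refine hT.trans ?_
      rw [mul_comm]
      exact Nat.mul_le_mul_left _ (by omega)
    have e2 : (8 * C + 1) * (K ^ (8 * C) * K) ≤ 4 * F := by
      rw [← pow_succ]; exact hF
    have e3 : 0 < K ^ (8 * C) * K := Nat.mul_pos (Nat.pow_pos (by omega)) (by omega)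
    set X := K ^ (8 * C) * K with hX
    have e4 : C * (X + T) ≤ C * (2 * X) := Nat.mul_le_mul_left _ (by omega)
    have e5 : (8 * C + 1) * X = 4 * (C * (2 * X)) + X := by ring
    omega
  · intro i
    exact h1 _ (List.get_mem _ _)
  · rw [List.ofFn_get, h2]

end Pool.Agent.FT
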