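import Pool.Agent.Lib_helper21.WsapCurve

namespace Pool.Agent.Lib_helper21.Wsap

universe u
variable {Λ : Type u} {D : Diagram} {S : Lift D Λ}

/-- The strands labelled `Y` form one component. -/
def Lift.Conn (S : Lift D Λ) (Y : Λ) : Prop :=
  ∀ x y, S.lb x = some Y → S.lb y = some Y → y ∈ D.orb x

/-- A cyclic enumeration of the component labelled `Y`. -/
structure Lift.Enum (S : Lift D Λ) (Y : Λ) (y : ℕ → ℕ × ℕ) (N : ℕ) : Prop where
  pos : 0 < N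
  lb : ∀ j, S.lb (y j) = some Y
  next : ∀ j, D.next (y j) = y (j + 1)
  per : y N = y 0
  inj : ∀ i < N, ∀ j < N, y i = y j → i = j
  surj : ∀ x, S.lb x = some Y → ∃ j < N, y j = x

lemma Lift.Conn.enum {Y : Λ} (hY : S.Conn Y) {s : ℕ × ℕ} (hs : S.lb s = some Y) :
    ∃ y N, S.Enum Y y N ∧ y 0 = D.next s ∧ y (N - 1) = s := by
  have hv := Lift.valid_of_lb hs
  have hv' := S.next_valid hv
  have hs' : S.lb (D.next s) = some Y := by rw [S.lb_next hv, hs]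
  have hper := S.mem_periodicPts hv'
  have hpos := Function.minimalPeriod_pos_of_mem_periodicPts hper
  set N := Function.minimalPeriod D.next (D.next s) with hN
  have hlb : ∀ j, S.lb (D.next^[j] (D.next s)) = some Y := fun j => by
    rw [S.lb_iterate hv', hs']
  refine ⟨fun j => D.next^[j] (D.next s), N, ⟨hpos, hlb, ?_, ?_, ?_, ?_⟩, rfl, ?_⟩
  · intro j
    exact (Function.iterate_succ_apply' _ _ _).symm
  · exact Function.iterate_minimalPeriod
  · intro i hi j hj hij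
    exact Function.iterate_injOn_Iio_minimalPeriod hi hj hij
  · intro x hx
    obtain ⟨m, hm⟩ := hY (D.next s) x hs' hx
    refine ⟨m % N, Nat.mod_lt _ hpos, ?_⟩
    rw [← hm]
    exact Function.iterate_mod_minimalPeriod_eq
  · apply S.next_inj (Lift.valid_of_lb (hlb _)) hv
    rw [← Function.iterate_succ_apply' (f := D.next), show (N - 1).succ = N by omega]
    exact Function.iterate_minimalPeriod

/-- Step number of a crossing. -/
lemma Lift.Enum.idx {Y Z : Λ} {y : ℕ → ℕ × ℕ} {N : ℕ} (E : S.Enum Y y N) {t : ℕ}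
    (h : S.Meet t Y Z) (hne : Y ≠ Z) :
    ∃ j < N, D.cr (y j) = some t ∧ ∀ i < N, D.cr (y i) = some t → i = j := by
  obtain ⟨s, hs, cs, hu⟩ := h.start hne
  obtain ⟨j, hj, rfl⟩ := E.surj s hs
  exact ⟨j, hj, cs, fun i hi ci => E.inj i hi j hj (hu _ (E.lb i) ci)⟩

lemma two_jump {d : ℕ → ZMod 2} {u v N : ℕ} (huv : u < v) (_ : v < N)
    (h : ∀ j < N, d (j + 1) = d j + if j = u ∨ j = v then 1 else 0) :
    ∀ j ≤ N, d j = d 0 + if u < j ∧ j ≤ v then 1 else 0 := by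
  intro j
  induction j with
  | zero => intro _; simp
  | succ j ih =>
    intro hj
    rw [h j (by omega), ih (by omega), add_assoc]
    congr 1
    rcases Nat.lt_trichotomy j u with h1 | h1 | h1
    · have e1 : ¬ (u < j ∧ j ≤ v) := by omega
      have e2 : ¬ (j = u ∨ j = v) := by omega
      have e3 : ¬ (u < j + 1 ∧ j + 1 ≤ v) := by omega
      rw [if_neg e1, if_neg e2, if_neg e3, add_zero]
    · have e1 : ¬ (u < j ∧ j ≤ v) := by omega
      have e2 : (j = u ∨ j = v) := by omega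
      have e3 : (u < j + 1 ∧ j + 1 ≤ v) := by omega
      simp [e1, e2, e3]
    · rcases Nat.lt_trichotomy j v with h2 | h2 | h2
      · have e1 : (u < j ∧ j ≤ v) := by omega
        have e2 : ¬ (j = u ∨ j = v) := by omega
        have e3 : (u < j + 1 ∧ j + 1 ≤ v) := by omega
        simp [e1, e2, e3]
      · have e1 : (u < j ∧ j ≤ v) := by omega
        have e2 : (j = u ∨ j = v) := by omega
        have e3 : ¬ (u < j + 1 ∧ j + 1 ≤ v) := by omega
        simp only [e1, e2, e3, if_true, if_false]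
        decide
      · have e1 : ¬ (u < j ∧ j ≤ v) := by omega
        have e2 : ¬ (j = u ∨ j = v) := by omega
        have e3 : ¬ (u < j + 1 ∧ j + 1 ≤ v) := by omega
        rw [if_neg e1, if_neg e2, if_neg e3, add_zero]

open Classical in
lemma Lift.mt_eq {Y Z : Λ} (hne : Y ≠ Z) {x : ℕ × ℕ} {t : ℕ} (hx : S.lb x = some Y)
    (cx : D.cr x = some t) : S.mt Z t = if S.Meet t Y Z then 1 else 0 := by
  obtain ⟨a', ha'⟩ := Lift.meet_of_cr hx cx
  have : (∃ a, S.Meet t a Z) ↔ S.Meet t Y Z := by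
    constructor
    · rintro ⟨a, ha⟩
      rcases ha'.unique ha with ⟨h1, h2⟩ | ⟨h1, h2⟩
      · rw [h1]; exact ha
      · exact absurd h1 hne
    · intro h
      exact ⟨Y, h⟩
  simp [Lift.mt, this]

/-- The side function along an enumeration. -/
lemma Lift.Enum.side_val {Y Z : Λ} {y : ℕ → ℕ × ℕ} {N : ℕ} (E : S.Enum Y y N) (hne : Y ≠ Z)
    {t₁ t₂ : ℕ} (hm : ∀ t, S.Meet t Y Z ↔ t = t₁ ∨ t = t₂) {u v : ℕ} (huv : u < v) (hv : v < N)
    (cu : D.cr (y u) = some t₁ ∨ D.cr (y u) = some t₂)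
    (cv : D.cr (y v) = some t₁ ∨ D.cr (y v) = some t₂)
    (hu : ∀ i < N, D.cr (y i) = some t₁ ∨ D.cr (y i) = some t₂ → i = u ∨ i = v) :
    ∀ j ≤ N, S.side Z (y j) = S.side Z (y 0) + if u < j ∧ j ≤ v then 1 else 0 := by
  apply two_jump (d := fun j => S.side Z (y j)) huv hv
  intro j hj
  rw [← E.next, Lift.side_next hne (E.lb j)]
  congr 1
  cases hc : D.cr (y j) with
  | none =>
    have : ¬ (j = u ∨ j = v) := by
      rintro (rfl | rfl)
      · rw [hc] at cu; simp at cu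
      · rw [hc] at cv; simp at cv
    simp [this]
  | some t =>
    rw [Option.elim_some, Lift.mt_eq hne (E.lb j) hc]
    by_cases hM : S.Meet t Y Z
    · have : j = u ∨ j = v := by
        apply hu j hj
        rw [hc]
        simpa using (hm t).1 hM
      simp [hM, this]
    · have : ¬ (j = u ∨ j = v) := by
        intro h
        apply hM
        rw [hm]
        rcases h with rfl | rfl
        · rw [hc] at cu
          simpa using cu
        · rw [hc] at cv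
          simpa using cv
      simp [hM, this]

lemma Lift.cut_aux {Y Z : Λ} (hY : S.Conn Y) (hne : Y ≠ Z) {t₁ t₂ : ℕ} (h12 : t₁ ≠ t₂)
    (hm : ∀ t, S.Meet t Y Z ↔ t = t₁ ∨ t = t₂) {s : ℕ × ℕ} (hs : S.lb s = some Y)
    (cs : D.cr s = some t₁) : ∃ y N u, S.Enum Y y N ∧ u + 1 < N ∧ D.cr (y u) = some t₂ ∧
      D.cr (y (N - 1)) = some t₁ ∧ y 0 = D.next s ∧
      ∀ j ≤ N, S.side Z (y j) = S.side Z (y 0) + if u < j ∧ j < N then 1 else 0 := by
  obtain ⟨y, N, E, h0, h1⟩ := hY.enum hs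
  obtain ⟨u, hu, cu, hu'⟩ := E.idx ((hm t₂).2 (Or.inr rfl)) hne
  obtain ⟨v, hv, cv, hv'⟩ := E.idx ((hm t₁).2 (Or.inl rfl)) hne
  have hN := E.pos
  have hvN : v = N - 1 := (hv' (N - 1) (by omega) (by rw [h1, cs])).symm
  subst hvN
  have huN : u ≠ N - 1 := by
    rintro rfl
    rw [cu] at cv
    exact h12 (Option.some.inj cv).symm
  refine ⟨y, N, u, E, by omega, cu, cv, h0, ?_⟩
  intro j hj
  rw [E.side_val hne hm (u := u) (v := N - 1) (by omega) (by omega) (Or.inr cu) (Or.inl cv) ?_ j hj]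
  · congr 2
    apply propext
    constructor
    · rintro ⟨h3, h4⟩; exact ⟨h3, by omega⟩
    · rintro ⟨h3, h4⟩; exact ⟨h3, by omega⟩
  · rintro i hi (h | h)
    · exact Or.inr (hv' i hi h)
    · exact Or.inl (hu' i hi h)

/-- Cut the component `Y` just after one of its two crossings with `Z`. -/
theorem Lift.cut {Y Z : Λ} (hY : S.Conn Y) (hne : Y ≠ Z)
    (h2 : ∃ t₁ t₂, t₁ ≠ t₂ ∧ ∀ t, S.Meet t Y Z ↔ t = t₁ ∨ t = t₂) (σ : ZMod 2) :
    ∃ y N u ta tb, S.Enum Y y N ∧ u + 1 < N ∧ D.cr (y u) = some ta ∧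
      D.cr (y (N - 1)) = some tb ∧ ta ≠ tb ∧ (∀ t, S.Meet t Y Z ↔ t = ta ∨ t = tb) ∧
      ∀ j ≤ N, S.side Z (y j) + σ = if u < j ∧ j < N then 1 else 0 := by
  obtain ⟨t₁, t₂, h12, hm⟩ := h2
  obtain ⟨s, hs, cs, -⟩ := ((hm t₁).2 (Or.inl rfl)).start hne
  obtain ⟨y, N, u, E, hu, cu, cN, h0, hside⟩ := Lift.cut_aux hY hne h12 hm hs cs
  by_cases hc : S.side Z (y 0) + σ = 0
  · refine ⟨y, N, u, t₂, t₁, E, hu, cu, cN, h12.symm, fun t => by rw [hm t, or_comm], ?_⟩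
    intro j hj
    rw [hside j hj]
    linear_combination hc
  · have hm' : ∀ t, S.Meet t Y Z ↔ t = t₂ ∨ t = t₁ := fun t => by rw [hm t, or_comm]
    obtain ⟨y', N', u', E', hu', cu', cN', h0', hside'⟩ :=
      Lift.cut_aux hY hne h12.symm hm' (E.lb u) cu
    refine ⟨y', N', u', t₁, t₂, E', hu', cu', cN', h12, hm, ?_⟩
    intro j hj
    have h3 : S.side Z (y' 0) = S.side Z (y 0) + 1 := by
      rw [h0', E.next, hside (u + 1) (by omega), if_pos ⟨by omega, by omega⟩]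
    rw [hside' j hj, h3]
    have h4 : S.side Z (y 0) + 1 + σ = 0 := by
      have : ∀ a : ZMod 2, a ≠ 0 → a + 1 = 0 := by decide
      have := this _ hc
      linear_combination this
    linear_combination h4

/-- Jump function: label `Y`, crossings `t₁` and `t₂`. -/
def sgl [DecidableEq Λ] (Y : Λ) (t₁ t₂ : ℕ) : Λ → ℕ → ZMod 2 :=
  fun a t => if a = Y ∧ (t = t₁ ∨ t = t₂) then 1 else 0

/-- Chains on the component `Y` from functions on step numbers. -/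
lemma Lift.Enum.chain [DecidableEq Λ] {Y : Λ} {y : ℕ → ℕ × ℕ} {N : ℕ} (E : S.Enum Y y N)
    {t₁ t₂ : ℕ} {u v : ℕ}
    (hu : u < N) (hv : v < N) (cu : D.cr (y u) = some t₁) (cv : D.cr (y v) = some t₂)
    (hu' : ∀ i < N, D.cr (y i) = some t₁ → i = u) (hv' : ∀ i < N, D.cr (y i) = some t₂ → i = v)
    (Φ : ℕ → ZMod 2) (h : ∀ j < N, Φ (j + 1) = Φ j + if j = u ∨ j = v then 1 else 0)
    (hN : Φ N = Φ 0) :
    ∃ F, S.Jf F (sgl Y t₁ t₂) ∧ (∀ j ≤ N, F (y j) = Φ j) ∧ (∀ x, S.lb x ≠ some Y → F x = 0) := by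
  classical
  let F : ℕ × ℕ → ZMod 2 := fun x => if hx : ∃ j < N, y j = x then Φ hx.choose else 0
  have hF1 : ∀ j < N, F (y j) = Φ j := by
    intro j hj
    have hx : ∃ j' < N, y j' = y j := ⟨j, hj, rfl⟩
    simp only [F, hx, dif_pos]
    congr 1
    exact E.inj _ hx.choose_spec.1 _ hj hx.choose_spec.2
  have hF2 : ∀ j ≤ N, F (y j) = Φ j := by
    intro j hj
    rcases Nat.lt_or_ge j N with h1 | h1
    · exact hF1 j h1
    · have : j = N := le_antisymm hj h1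
      subst this
      rw [E.per, hF1 0 E.pos, hN]
  have hF3 : ∀ x, S.lb x ≠ some Y → F x = 0 := by
    intro x hx
    have : ¬ ∃ j < N, y j = x := by
      rintro ⟨j, -, rfl⟩
      exact hx (E.lb j)
    simp only [F, this, dif_neg, not_false_eq_true]
  refine ⟨F, ⟨?_, ?_⟩, hF2, hF3⟩
  · intro x hx
    apply hF3
    simp [Lift.lb, hx]
  · intro x a hx
    by_cases ha : a = Y
    · subst ha
      obtain ⟨j, hj, rfl⟩ := E.surj x hx
      rw [E.next, hF2 (j + 1) (by omega), hF1 j hj, h j hj]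
      congr 1
      cases hc : D.cr (y j) with
      | none =>
        have : ¬ (j = u ∨ j = v) := by
          rintro (rfl | rfl)
          · rw [hc] at cu; simp at cu
          · rw [hc] at cv; simp at cv
        simp [this]
      | some t =>
        have : (j = u ∨ j = v) ↔ (t = t₁ ∨ t = t₂) := by
          constructor
          · rintro (rfl | rfl)
            · rw [hc] at cu; exact Or.inl (Option.some.inj cu)
            · rw [hc] at cv; exact Or.inr (Option.some.inj cv)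
          · rintro (rfl | rfl)
            · exact Or.inl (hu' j hj hc)
            · exact Or.inr (hv' j hj hc)
        simp [this, sgl]
    · have h1 : S.lb x ≠ some Y := by rw [hx]; simpa using ha
      have h2 : S.lb (D.next x) ≠ some Y := by rwa [S.lb_next (Lift.valid_of_lb hx)]
      rw [hF3 _ h1, hF3 _ h2]
      cases D.cr x <;> simp [sgl, ha]

lemma Lift.chain_exists [DecidableEq Λ] {Y W₁ W₂ : Λ} (hY : S.Conn Y) {p q : ℕ}
    (hp : S.Meet p Y W₁) (h1 : Y ≠ W₁) (hq : S.Meet q Y W₂) (h2 : Y ≠ W₂) (hpq : p ≠ q) :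
    ∃ F, S.Jf F (sgl Y p q) ∧ (∀ x, S.lb x ≠ some Y → F x = 0) := by
  obtain ⟨s, hs, cs, -⟩ := hp.start h1
  obtain ⟨y, N, E, h0, hN⟩ := hY.enum hs
  obtain ⟨u, hu, cu, hu'⟩ := E.idx hp h1
  obtain ⟨v, hv, cv, hv'⟩ := E.idx hq h2
  have hNpos := E.pos
  have huN : u = N - 1 := (hu' (N - 1) (by omega) (by rw [hN, cs])).symm
  have huv : v ≠ u := by
    rintro rfl
    rw [cu] at cv
    exact hpq (Option.some.inj cv)
  obtain ⟨F, hF, -, hF'⟩ := E.chain hu hv cu cv hu' hv'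
    (fun j => if v < j ∧ j ≤ u then 1 else 0) (by
      intro j hj
      rcases Nat.lt_trichotomy j v with h3 | h3 | h3
      · rw [if_neg (by omega), if_neg (by omega), if_neg (by omega), add_zero]
      · rw [if_pos (by omega), if_neg (by omega), if_pos (by omega), zero_add]
      · rcases Nat.lt_or_ge j u with h4 | h4
        · rw [if_pos (by omega), if_pos (by omega), if_neg (by omega), add_zero]
        · rw [if_neg (by omega), if_pos (by omega), if_pos (by omega)]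
          decide)
    (by rw [if_neg (by omega), if_neg (by omega)])
  exact ⟨F, hF, hF'⟩

lemma Lift.Meet.ne_of_meet {Y Z W : Λ} {t t' : ℕ} (h : S.Meet t Y Z) (h' : S.Meet t' Y W)
    (hYZ : Y ≠ Z) (hWZ : W ≠ Z) : t ≠ t' := by
  rintro rfl
  rcases h.unique h' with ⟨-, h2⟩ | ⟨h1, h2⟩
  · exact hWZ h2.symm
  · exact hYZ h2.symm

/-- A chain on `Y` between two crossings on the same side of `Z`, avoiding `Z`. -/
lemma Lift.avoid [DecidableEq Λ] {Y Z W₁ W₂ : Λ} (hY : S.Conn Y) (hne : Y ≠ Z)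
    (h2 : ∃ t₁ t₂, t₁ ≠ t₂ ∧ ∀ t, S.Meet t Y Z ↔ t = t₁ ∨ t = t₂) (σ : ZMod 2) {p q : ℕ}
    (hp : S.Meet p Y W₁) (hW₁ : Y ≠ W₁) (hWZ₁ : W₁ ≠ Z)
    (hq : S.Meet q Y W₂) (hW₂ : Y ≠ W₂) (hWZ₂ : W₂ ≠ Z) (hpq : p ≠ q)
    (sp : ∀ x, S.lb x = some Y → D.cr x = some p → S.side Z x + σ = 0)
    (sq : ∀ x, S.lb x = some Y → D.cr x = some q → S.side Z x + σ = 0) :
    ∃ F, S.Jf F (sgl Y p q) ∧ (∀ x, S.lb x ≠ some Y → F x = 0) ∧
      ∀ x t, S.lb x = some Y → D.cr x = some t → S.Meet t Y Z → F x = 0 ∧ F (D.next x) = 0 := by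
  obtain ⟨y, N, u, ta, tb, E, huN, cu, cN, hab, hm, hside⟩ := Lift.cut hY hne h2 σ
  obtain ⟨jp, hjp, cp, hp'⟩ := E.idx hp hW₁
  obtain ⟨jq, hjq, cq, hq'⟩ := E.idx hq hW₂
  have hta : S.Meet ta Y Z := (hm ta).2 (Or.inl rfl)
  have htb : S.Meet tb Y Z := (hm tb).2 (Or.inr rfl)
  have hneq : jp ≠ jq := by
    rintro rfl
    rw [cp] at cq
    exact hpq (Option.some.inj cq)
  have h3 : jp < u := by
    have h4 := hside jp hjp.le
    rw [sp _ (E.lb jp) cp] at h4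
    have h5 : jp ≠ u := by
      rintro rfl
      rw [cu] at cp
      exact hta.ne_of_meet hp hne hWZ₁ (Option.some.inj cp)
    by_contra h6
    rw [if_pos ⟨by omega, hjp⟩] at h4
    exact absurd h4 (by decide)
  have h3' : jq < u := by
    have h4 := hside jq hjq.le
    rw [sq _ (E.lb jq) cq] at h4
    have h5 : jq ≠ u := by
      rintro rfl
      rw [cu] at cq
      exact hta.ne_of_meet hq hne hWZ₂ (Option.some.inj cq)
    by_contra h6
    rw [if_pos ⟨by omega, hjq⟩] at h4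
    exact absurd h4 (by decide)
  obtain ⟨F, hF, hFv, hF'⟩ := E.chain hjp hjq cp cq hp' hq'
    (fun j => if (jp < j ∧ j ≤ jq) ∨ (jq < j ∧ j ≤ jp) then 1 else 0) (by
      intro j hj
      by_cases a1 : j = jp ∨ j = jq
      · rw [if_pos a1]
        by_cases a2 : (jp < j ∧ j ≤ jq) ∨ (jq < j ∧ j ≤ jp)
        · rw [if_pos a2, if_neg (by omega)]
          decide
        · rw [if_neg a2, if_pos (by omega)]
          decide
      · rw [if_neg a1, add_zero]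
        by_cases a2 : (jp < j ∧ j ≤ jq) ∨ (jq < j ∧ j ≤ jp)
        · rw [if_pos a2, if_pos (by omega)]
        · rw [if_neg a2, if_neg (by omega)])
    (by rw [if_neg (by omega), if_neg (by omega)])
  refine ⟨F, hF, hF', ?_⟩
  intro x t hx cx hM
  obtain ⟨j, hj, rfl⟩ := E.surj x hx
  rw [E.next, hFv j hj.le, hFv (j + 1) hj]
  have hj' : j = u ∨ j = N - 1 := by
    obtain ⟨i, hi, ci, hi'⟩ := E.idx hM hne
    have hji := hi' j hj cx
    rcases (hm t).1 hM with rfl | rfl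
    · left
      rw [hji]
      exact (hi' u (by omega) cu).symm
    · right
      rw [hji]
      exact (hi' (N - 1) (by omega) cN).symm
  rcases hj' with rfl | rfl
  · rw [if_neg (by omega), if_neg (by omega)]
    simp
  · rw [if_neg (by omega), if_neg (by omega)]
    simp

/-- The outcome of the arc lemma. -/
structure Lift.ArcData [DecidableEq Λ] (S : Lift D Λ) (Y Z₀ Z₁ Z₂ : Λ) (a₁ a₂ q₁ q₂ : ℕ)
    (α₁ α₂ ι : ℕ × ℕ → ZMod 2) : Prop where
  ne : a₁ ≠ a₂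
  m0 : ∀ t, S.Meet t Y Z₀ ↔ t = a₁ ∨ t = a₂
  m1 : S.Meet q₁ Y Z₁
  m2 : S.Meet q₂ Y Z₂
  j1 : S.Jf α₁ (sgl Y a₁ q₁)
  j2 : S.Jf α₂ (sgl Y a₂ q₂)
  j0 : S.Jf ι (sgl Y a₁ a₂)
  o1 : ∀ x, S.lb x ≠ some Y → α₁ x = 0
  o2 : ∀ x, S.lb x ≠ some Y → α₂ x = 0
  o0 : ∀ x, S.lb x ≠ some Y → ι x = 0
  d12 : ∀ x, α₁ x * α₂ x = 0
  d10 : ∀ x, α₁ x * ι x = 0
  d20 : ∀ x, α₂ x * ι x = 0
  v1 : ∀ x t, S.lb x = some Y → D.cr x = some t → (S.Meet t Y Z₂ ∨ t = a₂) →
    α₁ x = 0 ∧ α₁ (D.next x) = 0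
  v2 : ∀ x t, S.lb x = some Y → D.cr x = some t → (S.Meet t Y Z₁ ∨ t = a₁) →
    α₂ x = 0 ∧ α₂ (D.next x) = 0
  v0 : ∀ x t, S.lb x = some Y → D.cr x = some t → (S.Meet t Y Z₁ ∨ S.Meet t Y Z₂) →
    ι x = 0 ∧ ι (D.next x) = 0

lemma sgl_comm [DecidableEq Λ] (Y : Λ) (t₁ t₂ : ℕ) : sgl Y t₁ t₂ = sgl Y t₂ t₁ := by
  funext a t
  simp only [sgl, or_comm]

lemma Lift.ArcData.swap [DecidableEq Λ] {Y Z₀ Z₁ Z₂ : Λ} {a₁ a₂ q₁ q₂ : ℕ}
    {α₁ α₂ ι : ℕ × ℕ → ZMod 2} (h : S.ArcData Y Z₀ Z₁ Z₂ a₁ a₂ q₁ q₂ α₁ α₂ ι) :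
    S.ArcData Y Z₀ Z₂ Z₁ a₂ a₁ q₂ q₁ α₂ α₁ ι where
  ne := h.ne.symm
  m0 t := by rw [h.m0 t, or_comm]
  m1 := h.m2
  m2 := h.m1
  j1 := h.j2
  j2 := h.j1
  j0 := by rw [sgl_comm]; exact h.j0
  o1 := h.o2
  o2 := h.o1
  o0 := h.o0
  d12 x := by rw [mul_comm]; exact h.d12 x
  d10 := h.d20
  d20 := h.d10
  v1 := h.v2
  v2 := h.v1
  v0 x t hx cx hm := h.v0 x t hx cx (Or.symm hm)

/-- The two crossings with `Z₁` are neighbours on `Y` once `Y` is cut at a crossing with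
`Z₀`. -/
lemma Lift.Enum.pair {Y Z₀ Z₁ : Λ} {y : ℕ → ℕ × ℕ} {N : ℕ} (E : S.Enum Y y N) (hne₀ : Y ≠ Z₀)
    (hne₁ : Y ≠ Z₁) (h01 : Z₁ ≠ Z₀) {u ta tb : ℕ} (huN : u + 1 < N)
    (cu : D.cr (y u) = some ta) (cN : D.cr (y (N - 1)) = some tb)
    (hm : ∀ t, S.Meet t Y Z₀ ↔ t = ta ∨ t = tb) {σ₀ σ₁ : ZMod 2}
    (hside : ∀ j ≤ N, S.side Z₀ (y j) + σ₀ = if u < j ∧ j < N then 1 else 0)
    (h2 : ∃ t₁ t₂, t₁ ≠ t₂ ∧ ∀ t, S.Meet t Y Z₁ ↔ t = t₁ ∨ t = t₂)
    (s0 : ∀ x t, S.lb x = some Y → D.cr x = some t → S.Meet t Y Z₁ → S.side Z₀ x + σ₀ = 0)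
    (s1 : ∀ x t, S.lb x = some Y → D.cr x = some t → S.Meet t Y Z₀ → S.side Z₁ x + σ₁ = 0) :
    ∃ p p' τ τ', p < p' ∧ p' < u ∧ D.cr (y p) = some τ ∧ D.cr (y p') = some τ' ∧
      (∀ i < N, D.cr (y i) = some τ → i = p) ∧ (∀ i < N, D.cr (y i) = some τ' → i = p') ∧
      (∀ t, S.Meet t Y Z₁ ↔ t = τ ∨ t = τ') ∧
      ∀ j ≤ N, S.side Z₁ (y j) + σ₁ = if p < j ∧ j ≤ p' then 1 else 0 := by
  obtain ⟨t₁, t₂, h12, hm'⟩ := h2
  have hta : S.Meet ta Y Z₀ := (hm ta).2 (Or.inl rfl)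
  have htb : S.Meet tb Y Z₀ := (hm tb).2 (Or.inr rfl)
  obtain ⟨j₁, hj₁, c₁, u₁⟩ := E.idx ((hm' t₁).2 (Or.inl rfl)) hne₁
  obtain ⟨j₂, hj₂, c₂, u₂⟩ := E.idx ((hm' t₂).2 (Or.inr rfl)) hne₁
  have hj12 : j₁ ≠ j₂ := by
    rintro rfl
    rw [c₁] at c₂
    exact h12 (Option.some.inj c₂)
  obtain ⟨p, p', τ, τ', hpp', hp', cp, cp', up, up', hmm⟩ : ∃ p p' τ τ', p < p' ∧ p' < N ∧
      D.cr (y p) = some τ ∧ D.cr (y p') = some τ' ∧
      (∀ i < N, D.cr (y i) = some τ → i = p) ∧ (∀ i < N, D.cr (y i) = some τ' → i = p') ∧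
      (∀ t, S.Meet t Y Z₁ ↔ t = τ ∨ t = τ') := by
    rcases Nat.lt_or_ge j₁ j₂ with h | h
    · exact ⟨j₁, j₂, t₁, t₂, h, hj₂, c₁, c₂, u₁, u₂, hm'⟩
    · exact ⟨j₂, j₁, t₂, t₁, by omega, hj₁, c₂, c₁, u₂, u₁, fun t => by rw [hm' t, or_comm]⟩
  have hM' : S.Meet τ' Y Z₁ := (hmm τ').2 (Or.inr rfl)
  have hp'N : p' ≠ N - 1 := by
    rintro rfl
    rw [cN] at cp'
    exact htb.ne_of_meet hM' hne₀ h01 (Option.some.inj cp')
  have hp'u : p' ≠ u := by
    rintro rfl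
    rw [cu] at cp'
    exact hta.ne_of_meet hM' hne₀ h01 (Option.some.inj cp')
  have hlt : p' < u := by
    have h3 := hside p' hp'.le
    rw [s0 _ _ (E.lb p') cp' hM'] at h3
    by_contra h4
    rw [if_pos ⟨by omega, hp'⟩] at h3
    exact absurd h3 (by decide)
  have hval := E.side_val hne₁ hmm hpp' hp' (Or.inl cp) (Or.inr cp') (by
    rintro i hi (h | h)
    · exact Or.inl (up i hi h)
    · exact Or.inr (up' i hi h))
  have h0 : S.side Z₁ (y 0) + σ₁ = 0 := by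
    have h3 := hval (N - 1) (by omega)
    rw [if_neg (by omega), add_zero] at h3
    rw [← h3]
    exact s1 _ _ (E.lb _) cN htb
  refine ⟨p, p', τ, τ', hpp', hlt, cp, cp', up, up', hmm, ?_⟩
  intro j hj
  rw [hval j hj]
  linear_combination h0

lemma Lift.Enum.arcs_aux [DecidableEq Λ] {Y Z₀ Z₁ Z₂ : Λ} {y : ℕ → ℕ × ℕ} {N : ℕ}
    (E : S.Enum Y y N) (hne₀ : Y ≠ Z₀)
    {u ta tb : ℕ} (huN : u + 1 < N) (hab : ta ≠ tb)
    (cu : D.cr (y u) = some ta) (cN : D.cr (y (N - 1)) = some tb)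
    (hm : ∀ t, S.Meet t Y Z₀ ↔ t = ta ∨ t = tb)
    {p p' τ τ' : ℕ} (hp : p < p') (cp : D.cr (y p) = some τ)
    (up : ∀ i < N, D.cr (y i) = some τ → i = p) (up' : ∀ i < N, D.cr (y i) = some τ' → i = p')
    (hm₁ : ∀ t, S.Meet t Y Z₁ ↔ t = τ ∨ t = τ')
    {r r' ρ ρ' : ℕ} (hr : r < r') (hr' : r' < u)
    (cr' : D.cr (y r') = some ρ')
    (ur : ∀ i < N, D.cr (y i) = some ρ → i = r) (ur' : ∀ i < N, D.cr (y i) = some ρ' → i = r')
    (hm₂ : ∀ t, S.Meet t Y Z₂ ↔ t = ρ ∨ t = ρ') (hpr : p' < r) :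
    ∃ α₁ α₂ ι, S.ArcData Y Z₀ Z₁ Z₂ tb ta τ ρ' α₁ α₂ ι := by
  have ua : ∀ i < N, D.cr (y i) = some ta → i = u := by
    obtain ⟨i, hi, ci, hi'⟩ := E.idx ((hm ta).2 (Or.inl rfl)) hne₀
    intro k hk ck
    rw [hi' k hk ck, hi' u (by omega) cu]
  have ub : ∀ i < N, D.cr (y i) = some tb → i = N - 1 := by
    obtain ⟨i, hi, ci, hi'⟩ := E.idx ((hm tb).2 (Or.inr rfl)) hne₀
    intro k hk ck
    rw [hi' k hk ck, hi' (N - 1) (by omega) cN]
  obtain ⟨α₁, j1, v1, o1⟩ := E.chain (u := N - 1) (v := p) (by omega) (by omega) cN cp ub up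
    (fun j => if j ≤ p ∨ N ≤ j then 1 else 0) (by
      intro j hj
      by_cases a1 : j = N - 1
      · rw [if_pos (by omega), if_neg (by omega), if_pos (Or.inl a1), zero_add]
      · by_cases a2 : j = p
        · rw [if_neg (by omega), if_pos (by omega), if_pos (Or.inr a2)]
          decide
        · rw [if_neg (c := j = N - 1 ∨ j = p) (by omega), add_zero]
          by_cases a3 : j ≤ p
          · rw [if_pos (by omega), if_pos (by omega)]
          · rw [if_neg (by omega), if_neg (by omega)])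
    (by rw [if_pos (by omega), if_pos (by omega)])
  obtain ⟨α₂, j2, v2, o2⟩ := E.chain (u := u) (v := r') (by omega) (by omega) cu cr' ua ur'
    (fun j => if r' < j ∧ j ≤ u then 1 else 0) (by
      intro j hj
      by_cases a1 : j = u
      · rw [if_neg (by omega), if_pos (by omega), if_pos (Or.inl a1)]
        decide
      · by_cases a2 : j = r'
        · rw [if_pos (by omega), if_neg (by omega), if_pos (Or.inr a2), zero_add]
        · rw [if_neg (c := j = u ∨ j = r') (by omega), add_zero]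
          by_cases a3 : r' < j ∧ j ≤ u
          · rw [if_pos (by omega), if_pos (by omega)]
          · rw [if_neg (by omega), if_neg (by omega)])
    (by rw [if_neg (by omega), if_neg (by omega)])
  obtain ⟨ι, j0, v0, o0⟩ := E.chain (u := N - 1) (v := u) (by omega) (by omega) cN cu ub ua
    (fun j => if u < j ∧ j < N then 1 else 0) (by
      intro j hj
      by_cases a1 : j = N - 1
      · rw [if_neg (by omega), if_pos (by omega), if_pos (Or.inl a1)]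
        decide
      · by_cases a2 : j = u
        · rw [if_pos (by omega), if_neg (by omega), if_pos (Or.inr a2), zero_add]
        · rw [if_neg (c := j = N - 1 ∨ j = u) (by omega), add_zero]
          by_cases a3 : u < j ∧ j < N
          · rw [if_pos (by omega), if_pos (by omega)]
          · rw [if_neg (by omega), if_neg (by omega)])
    (by rw [if_neg (by omega), if_neg (by omega)])
  refine ⟨α₁, α₂, ι, ⟨hab.symm, fun t => by rw [hm t, or_comm], (hm₁ τ).2 (Or.inl rfl),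
    (hm₂ ρ').2 (Or.inr rfl), j1, j2, j0, o1, o2, o0, ?_, ?_, ?_, ?_, ?_, ?_⟩⟩
  · intro x
    by_cases hx : S.lb x = some Y
    · obtain ⟨j, hj, rfl⟩ := E.surj x hx
      rw [v1 j hj.le, v2 j hj.le]
      by_cases a : j ≤ p ∨ N ≤ j
      · rw [if_neg (c := r' < j ∧ j ≤ u) (by omega), mul_zero]
      · rw [if_neg a, zero_mul]
    · rw [o1 x hx, zero_mul]
  · intro x
    by_cases hx : S.lb x = some Y
    · obtain ⟨j, hj, rfl⟩ := E.surj x hx
      rw [v1 j hj.le, v0 j hj.le]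
      by_cases a : j ≤ p ∨ N ≤ j
      · rw [if_neg (c := u < j ∧ j < N) (by omega), mul_zero]
      · rw [if_neg a, zero_mul]
    · rw [o1 x hx, zero_mul]
  · intro x
    by_cases hx : S.lb x = some Y
    · obtain ⟨j, hj, rfl⟩ := E.surj x hx
      rw [v2 j hj.le, v0 j hj.le]
      by_cases a : r' < j ∧ j ≤ u
      · rw [if_neg (c := u < j ∧ j < N) (by omega), mul_zero]
      · rw [if_neg a, zero_mul]
    · rw [o2 x hx, zero_mul]
  · intro x t hx cx hM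
    obtain ⟨j, hj, rfl⟩ := E.surj x hx
    have hj' : j = r ∨ j = r' ∨ j = u := by
      rcases hM with hM | rfl
      · rcases (hm₂ t).1 hM with rfl | rfl
        · exact Or.inl (ur j hj cx)
        · exact Or.inr (Or.inl (ur' j hj cx))
      · exact Or.inr (Or.inr (ua j hj cx))
    rw [E.next, v1 j hj.le, v1 (j + 1) hj, if_neg (by omega), if_neg (by omega)]
    exact ⟨rfl, rfl⟩
  · intro x t hx cx hM
    obtain ⟨j, hj, rfl⟩ := E.surj x hx
    have hj' : j = p ∨ j = p' ∨ j = N - 1 := by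
      rcases hM with hM | rfl
      · rcases (hm₁ t).1 hM with rfl | rfl
        · exact Or.inl (up j hj cx)
        · exact Or.inr (Or.inl (up' j hj cx))
      · exact Or.inr (Or.inr (ub j hj cx))
    rw [E.next, v2 j hj.le, v2 (j + 1) hj, if_neg (by omega), if_neg (by omega)]
    exact ⟨rfl, rfl⟩
  · intro x t hx cx hM
    obtain ⟨j, hj, rfl⟩ := E.surj x hx
    have hj' : j < u := by
      rcases hM with hM | hM
      · rcases (hm₁ t).1 hM with rfl | rfl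
        · have := up j hj cx; omega
        · have := up' j hj cx; omega
      · rcases (hm₂ t).1 hM with rfl | rfl
        · have := ur j hj cx; omega
        · have := ur' j hj cx; omega
    rw [E.next, v0 j hj.le, v0 (j + 1) hj, if_neg (by omega), if_neg (by omega)]
    exact ⟨rfl, rfl⟩

/-- The arc lemma. -/
theorem Lift.arcs [DecidableEq Λ] {Y Z₀ Z₁ Z₂ : Λ} (hY : S.Conn Y) (hne₀ : Y ≠ Z₀)
    (hne₁ : Y ≠ Z₁) (hne₂ : Y ≠ Z₂) (h01 : Z₀ ≠ Z₁) (h02 : Z₀ ≠ Z₂)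
    (m0 : ∃ t₁ t₂, t₁ ≠ t₂ ∧ ∀ t, S.Meet t Y Z₀ ↔ t = t₁ ∨ t = t₂)
    (m1 : ∃ t₁ t₂, t₁ ≠ t₂ ∧ ∀ t, S.Meet t Y Z₁ ↔ t = t₁ ∨ t = t₂)
    (m2 : ∃ t₁ t₂, t₁ ≠ t₂ ∧ ∀ t, S.Meet t Y Z₂ ↔ t = t₁ ∨ t = t₂)
    (σ₀ σ₁ σ₂ : ZMod 2)
    (s01 : ∀ x t, S.lb x = some Y → D.cr x = some t → S.Meet t Y Z₁ → S.side Z₀ x + σ₀ = 0)
    (s02 : ∀ x t, S.lb x = some Y → D.cr x = some t → S.Meet t Y Z₂ → S.side Z₀ x + σ₀ = 0)
    (s10 : ∀ x t, S.lb x = some Y → D.cr x = some t → S.Meet t Y Z₀ → S.side Z₁ x + σ₁ = 0)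
    (s12 : ∀ x t, S.lb x = some Y → D.cr x = some t → S.Meet t Y Z₂ → S.side Z₁ x + σ₁ = 0)
    (s20 : ∀ x t, S.lb x = some Y → D.cr x = some t → S.Meet t Y Z₀ → S.side Z₂ x + σ₂ = 0)
    (s21 : ∀ x t, S.lb x = some Y → D.cr x = some t → S.Meet t Y Z₁ → S.side Z₂ x + σ₂ = 0) :
    ∃ a₁ a₂ q₁ q₂ α₁ α₂ ι, S.ArcData Y Z₀ Z₁ Z₂ a₁ a₂ q₁ q₂ α₁ α₂ ι := by
  obtain ⟨y, N, u, ta, tb, E, huN, cu, cN, hab, hm, hside⟩ := Lift.cut hY hne₀ m0 σ₀
  obtain ⟨p, p', τ, τ', hp, hpu, cp, cp', up, up', hm₁, val₁⟩ :=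
    E.pair hne₀ hne₁ h01.symm huN cu cN hm hside m1 s01 s10
  obtain ⟨r, r', ρ, ρ', hr, hru, cr₁, cr', ur, ur', hm₂, val₂⟩ :=
    E.pair hne₀ hne₂ h02.symm huN cu cN hm hside m2 s02 s20
  have e1 := val₁ r (by omega)
  rw [s12 _ _ (E.lb r) cr₁ ((hm₂ ρ).2 (Or.inl rfl))] at e1
  have e1' := val₁ r' (by omega)
  rw [s12 _ _ (E.lb r') cr' ((hm₂ ρ').2 (Or.inr rfl))] at e1'
  have e2 := val₂ p (by omega)
  rw [s21 _ _ (E.lb p) cp ((hm₁ τ).2 (Or.inl rfl))] at e2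
  have e2' := val₂ p' (by omega)
  rw [s21 _ _ (E.lb p') cp' ((hm₁ τ').2 (Or.inr rfl))] at e2'
  have f1 : ¬ (p < r ∧ r ≤ p') := by
    intro h
    rw [if_pos h] at e1
    exact absurd e1 (by decide)
  have f2 : ¬ (r < p ∧ p ≤ r') := by
    intro h
    rw [if_pos h] at e2
    exact absurd e2 (by decide)
  have f3 : p ≠ r := by
    rintro rfl
    rcases le_total p' r' with h5 | h5
    · rw [if_pos ⟨hp, h5⟩] at e2'
      exact absurd e2' (by decide)
    · rw [if_pos ⟨hr, h5⟩] at e1'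
      exact absurd e1' (by decide)
  rcases Nat.lt_or_ge p r with h | h
  · obtain ⟨α₁, α₂, ι, hA⟩ := E.arcs_aux hne₀ huN hab cu cN hm hp cp up up' hm₁ hr hru cr' ur ur' hm₂
      (by omega)
    exact ⟨_, _, _, _, _, _, _, hA⟩
  · obtain ⟨α₁, α₂, ι, hA⟩ := E.arcs_aux hne₀ huN hab cu cN hm hr cr₁ ur ur' hm₂ hp hpu cp' up up' hm₁
      (by omega)
    exact ⟨_, _, _, _, _, _, _, hA.swap⟩

end Pool.Agent.Lib_helper21.Wsap
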