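import Pool.Agent.Lib_helper21.WsapEven

namespace Pool.Agent.Lib_helper21.Wsap

universe u
variable {Λ : Type u} {D : Diagram} (S : Lift D Λ)

/-- `F` jumps by `e a t` when a strand labelled `a` meets crossing `t`, and nowhere else. -/
structure Lift.Jf (F : ℕ × ℕ → ZMod 2) (e : Λ → ℕ → ZMod 2) : Prop where
  zero : ∀ x, S.pt x = none → F x = 0
  next : ∀ x a, S.lb x = some a → F (D.next x) = F x + (D.cr x).elim 0 (e a)

/-- The crossing in slice `t` has labels `a` (bottom left) and `a'` (bottom right). -/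
def Lift.CrossLab (t : ℕ) (a a' : Λ) : Prop :=
  ∃ p b, D.word[t]? = some ⟨p, .cross b⟩ ∧ S.lb (t, p) = some a ∧ S.lb (t, p + 1) = some a'

/-- The crossing in slice `t` is between `a` and `a'`. -/
def Lift.Meet (t : ℕ) (a a' : Λ) : Prop := S.CrossLab t a a' ∨ S.CrossLab t a' a

variable {S}

lemma Lift.Meet.symm {t : ℕ} {a a' : Λ} (h : S.Meet t a a') : S.Meet t a' a := Or.symm h

lemma Lift.meet_comm {t : ℕ} {a a' : Λ} : S.Meet t a a' ↔ S.Meet t a' a :=
  ⟨fun h => h.symm, fun h => h.symm⟩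

lemma Lift.CrossLab.unique {t : ℕ} {a a' c c' : Λ} (h : S.CrossLab t a a')
    (h' : S.CrossLab t c c') : a = c ∧ a' = c' := by
  obtain ⟨p, b, h1, h2, h3⟩ := h
  obtain ⟨p', b', h1', h2', h3'⟩ := h'
  rw [h1] at h1'
  simp only [Option.some.injEq, Slice.mk.injEq] at h1'
  obtain ⟨rfl, -⟩ := h1'
  rw [h2] at h2'
  rw [h3] at h3'
  exact ⟨Option.some.inj h2', Option.some.inj h3'⟩

lemma Lift.Meet.unique {t : ℕ} {a a' c c' : Λ} (h : S.Meet t a a')
    (h' : S.Meet t c c') : (a = c ∧ a' = c') ∨ (a = c' ∧ a' = c) := by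
  rcases h with h | h <;> rcases h' with h' | h' <;> have := h.unique h' <;> tauto

lemma Lift.lb_of_pt {x : ℕ × ℕ} {a : Λ} {d : Bool} (h : S.pt x = some (a, d)) :
    S.lb x = some a := by
  simp [Lift.lb, h]

lemma Lift.pt_of_lb {x : ℕ × ℕ} {a : Λ} (h : S.lb x = some a) : ∃ d, S.pt x = some (a, d) := by
  rw [Lift.lb, Option.map_eq_some_iff] at h
  obtain ⟨⟨a', d⟩, h1, rfl⟩ := h
  exact ⟨d, h1⟩

lemma Lift.valid_of_lb {x : ℕ × ℕ} {a : Λ} (h : S.lb x = some a) : S.pt x ≠ none := by
  obtain ⟨d, hd⟩ := S.pt_of_lb h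
  rw [hd]
  simp

lemma Lift.Jf.adj {F : ℕ × ℕ → ZMod 2} {e : Λ → ℕ → ZMod 2} (hF : S.Jf F e) {c : Option ℕ}
    {x y : ℕ × ℕ} {a : Λ} (hx : S.lb x = some a) (hy : S.lb y = some a) (h : D.Adj c x y) :
    F x + F y = c.elim 0 (e a) := by
  rcases h with ⟨h1, h2⟩ | ⟨h1, h2⟩
  · have := hF.next x a hx
    rw [h1, h2] at this
    rw [this]
    have h3 := z2_add_self (F x)
    linear_combination h3
  · have := hF.next y a hy
    rw [h1, h2] at this
    rw [this]
    have h3 := z2_add_self (F y)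
    linear_combination h3

lemma Lift.Jf.adj_none {F : ℕ × ℕ → ZMod 2} {e : Λ → ℕ → ZMod 2} (hF : S.Jf F e)
    {x y : ℕ × ℕ} (hxy : S.pt x = S.pt y) (h : S.pt x ≠ none → D.Adj none x y) :
    F x = F y := by
  by_cases hx : S.pt x = none
  · rw [hF.zero x hx, hF.zero y (by rw [← hxy, hx])]
  · obtain ⟨⟨a, d⟩, hx'⟩ := Option.ne_none_iff_exists'.1 hx
    have := hF.adj (S.lb_of_pt hx') (S.lb_of_pt (hxy ▸ hx')) (h hx)
    exact z2_eq_of_add this

lemma Lift.Jf.cyc {F : ℕ × ℕ → ZMod 2} {e : Λ → ℕ → ZMod 2} (hF : S.Jf F e)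
    (he : ∀ t a a', S.CrossLab t a a' → e a t = e a' t) : S.Cyc F where
  zero := hF.zero
  cup := by
    intro t p d h
    obtain ⟨-, h1, h2, a, h3, h4⟩ := S.cup_spec h
    refine ⟨?_, ?_, ?_⟩
    · intro i hi
      exact (hF.adj_none (h1 i hi).symm (S.cup_adj₁ h hi)).symm
    · intro i hi
      exact (hF.adj_none (h2 i hi).symm (S.cup_adj₂ h hi)).symm
    · exact z2_eq_of_add (hF.adj (S.lb_of_pt h3) (S.lb_of_pt h4) (S.cup_adj₃ h))
  cap := by
    intro t p h
    obtain ⟨-, h1, h2, a, d, h3, h4⟩ := S.cap_spec h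
    refine ⟨?_, ?_, ?_⟩
    · intro i hi
      exact (hF.adj_none (h1 i hi).symm (S.cap_adj₁ h hi)).symm
    · intro i hi
      exact (hF.adj_none (h2 i hi).symm (fun hv => S.cap_adj₂ h hi (by rwa [h2 i hi]))).symm
    · exact z2_eq_of_add (hF.adj (S.lb_of_pt h3) (S.lb_of_pt h4) (S.cap_adj₃ h))
  cross := by
    intro t p b h
    obtain ⟨⟨a, d⟩, ⟨a', d'⟩, h1, h2, h3, h4, h5, -⟩ := S.cross_spec h
    refine ⟨?_, ?_⟩
    · intro i hi hi'
      exact (hF.adj_none (h5 i hi hi').symm (S.cross_adj₁ h hi hi')).symm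
    · have k1 := hF.adj (S.lb_of_pt h1) (S.lb_of_pt h4) (S.cross_adj₂ h)
      have k2 := hF.adj (S.lb_of_pt h2) (S.lb_of_pt h3) (S.cross_adj₃ h)
      have k3 := he t a a' ⟨p, b, h, S.lb_of_pt h1, S.lb_of_pt h2⟩
      simp only [Option.elim_some] at k1 k2
      have k4 := z2_add_self (e a' t)
      have k5 := z2_add_self (F (t + 1, p) + F (t + 1, p + 1))
      linear_combination k1 + k2 + k3 + k4 - k5

lemma Lift.Jf.add {F G : ℕ × ℕ → ZMod 2} {e e' : Λ → ℕ → ZMod 2} (hF : S.Jf F e)
    (hG : S.Jf G e') : S.Jf (F + G) (e + e') where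
  zero x hx := by simp [hF.zero x hx, hG.zero x hx]
  next x a hx := by
    rw [Pi.add_apply, Pi.add_apply, hF.next x a hx, hG.next x a hx]
    cases D.cr x with
    | none => simp
    | some t => simp; ring

/-- Two points joined by a piece of strand inside a slice. -/
inductive Diagram.Nb (D : Diagram) : Option ℕ → ℕ × ℕ → ℕ × ℕ → Prop
  | cup₁ {t p i : ℕ} {d : Bool} (h : D.word[t]? = some ⟨p, .cup d⟩) (hi : i < p) :
      Nb D none (t, i) (t + 1, i)
  | cup₂ {t p i : ℕ} {d : Bool} (h : D.word[t]? = some ⟨p, .cup d⟩) (hi : p ≤ i) :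
      Nb D none (t, i) (t + 1, i + 2)
  | cup₃ {t p : ℕ} {d : Bool} (h : D.word[t]? = some ⟨p, .cup d⟩) :
      Nb D none (t + 1, p) (t + 1, p + 1)
  | cap₁ {t p i : ℕ} (h : D.word[t]? = some ⟨p, .cap⟩) (hi : i < p) :
      Nb D none (t, i) (t + 1, i)
  | cap₂ {t p i : ℕ} (h : D.word[t]? = some ⟨p, .cap⟩) (hi : p ≤ i) :
      Nb D none (t, i + 2) (t + 1, i)
  | cap₃ {t p : ℕ} (h : D.word[t]? = some ⟨p, .cap⟩) :
      Nb D none (t, p) (t, p + 1)
  | cross₁ {t p i : ℕ} {b : Bool} (h : D.word[t]? = some ⟨p, .cross b⟩) (hi : i ≠ p)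
      (hi' : i ≠ p + 1) : Nb D none (t, i) (t + 1, i)
  | cross₂ {t p : ℕ} {b : Bool} (h : D.word[t]? = some ⟨p, .cross b⟩) :
      Nb D (some t) (t, p) (t + 1, p + 1)
  | cross₃ {t p : ℕ} {b : Bool} (h : D.word[t]? = some ⟨p, .cross b⟩) :
      Nb D (some t) (t, p + 1) (t + 1, p)

lemma Lift.nb_next {x : ℕ × ℕ} (h : S.pt x ≠ none) :
    D.Nb (D.cr x) x (D.next x) ∨ D.Nb (D.cr x) (D.next x) x := by
  have hlt := S.lt_of_pt h
  have hpos := S.pos_of_pt h
  obtain ⟨⟨a, d⟩, h⟩ := Option.ne_none_iff_exists'.1 h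
  have hu := S.up_eq h
  obtain ⟨t, i⟩ := x
  simp only at hlt hpos
  cases d with
  | true =>
    obtain ⟨e, he⟩ : ∃ e, D.word[t]? = some e := ⟨_, List.getElem?_eq_getElem hlt⟩
    obtain ⟨p, g⟩ := e
    cases g with
    | cup d =>
      by_cases hi : i < p
      · left
        convert Diagram.Nb.cup₁ he hi using 1 <;>
          simp [Diagram.next, Diagram.cr, hu, D.slice_eq he, he, Slice.fromBelow, hi]
      · left
        convert Diagram.Nb.cup₂ he (show p ≤ i by omega) using 1 <;>
          simp [Diagram.next, Diagram.cr, hu, D.slice_eq he, he, Slice.fromBelow, hi]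
    | cap =>
      by_cases hi : i < p
      · left
        convert Diagram.Nb.cap₁ he hi using 1 <;>
          simp [Diagram.next, Diagram.cr, hu, D.slice_eq he, he, Slice.fromBelow, hi]
      · by_cases hi' : i = p
        · subst hi'
          left
          convert Diagram.Nb.cap₃ he using 1 <;>
            simp [Diagram.next, Diagram.cr, hu, D.slice_eq he, he, Slice.fromBelow]
        · by_cases hi'' : i = p + 1
          · subst hi''
            right
            convert Diagram.Nb.cap₃ he using 1 <;>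
              simp [Diagram.next, Diagram.cr, hu, D.slice_eq he, he, Slice.fromBelow]
          · left
            have h3 : i = (i - 2) + 2 := by omega
            convert Diagram.Nb.cap₂ he (show p ≤ i - 2 by omega) using 1 <;>
              simp [Diagram.next, Diagram.cr, hu, D.slice_eq he, he, Slice.fromBelow, hi, hi', hi'',
                ← h3]
    | cross b =>
      by_cases hi : i = p
      · subst hi
        left
        convert Diagram.Nb.cross₂ he using 1 <;>
          simp [Diagram.next, Diagram.cr, hu, D.slice_eq he, he, Slice.fromBelow]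
      · by_cases hi' : i = p + 1
        · subst hi'
          left
          convert Diagram.Nb.cross₃ he using 1 <;>
            simp [Diagram.next, Diagram.cr, hu, D.slice_eq he, he, Slice.fromBelow]
        · left
          convert Diagram.Nb.cross₁ he hi hi' using 1 <;>
            simp [Diagram.next, Diagram.cr, hu, D.slice_eq he, he, Slice.fromBelow, hi, hi']
  | false =>
    obtain ⟨s, rfl⟩ : ∃ s, t = s + 1 := ⟨t - 1, by omega⟩
    obtain ⟨e, he⟩ : ∃ e, D.word[s]? = some e :=
      ⟨_, List.getElem?_eq_getElem (show s < D.word.length by omega)⟩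
    obtain ⟨p, g⟩ := e
    cases g with
    | cup d =>
      by_cases hi : i < p
      · right
        convert Diagram.Nb.cup₁ he hi using 1 <;>
          simp [Diagram.next, Diagram.cr, hu, D.slice_eq he, he, Slice.fromAbove, hi]
      · by_cases hi' : i = p
        · subst hi'
          left
          convert Diagram.Nb.cup₃ he using 1 <;>
            simp [Diagram.next, Diagram.cr, hu, D.slice_eq he, he, Slice.fromAbove]
        · by_cases hi'' : i = p + 1
          · subst hi''
            right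
            convert Diagram.Nb.cup₃ he using 1 <;>
              simp [Diagram.next, Diagram.cr, hu, D.slice_eq he, he, Slice.fromAbove]
          · right
            have h3 : i = (i - 2) + 2 := by omega
            convert Diagram.Nb.cup₂ he (show p ≤ i - 2 by omega) using 1 <;>
              simp [Diagram.next, Diagram.cr, hu, D.slice_eq he, he, Slice.fromAbove, hi, hi', hi'',
                ← h3]
    | cap =>
      by_cases hi : i < p
      · right
        convert Diagram.Nb.cap₁ he hi using 1 <;>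
          simp [Diagram.next, Diagram.cr, hu, D.slice_eq he, he, Slice.fromAbove, hi]
      · right
        convert Diagram.Nb.cap₂ he (show p ≤ i by omega) using 1 <;>
          simp [Diagram.next, Diagram.cr, hu, D.slice_eq he, he, Slice.fromAbove, hi]
    | cross b =>
      by_cases hi : i = p
      · subst hi
        right
        convert Diagram.Nb.cross₃ he using 1 <;>
          simp [Diagram.next, Diagram.cr, hu, D.slice_eq he, he, Slice.fromAbove]
      · by_cases hi' : i = p + 1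
        · subst hi'
          right
          convert Diagram.Nb.cross₂ he using 1 <;>
            simp [Diagram.next, Diagram.cr, hu, D.slice_eq he, he, Slice.fromAbove]
        · right
          convert Diagram.Nb.cross₁ he hi hi' using 1 <;>
            simp [Diagram.next, Diagram.cr, hu, D.slice_eq he, he, Slice.fromAbove, hi, hi']

open Classical in
/-- Indicator of the strands labelled `Z`. -/
noncomputable def Lift.ind (S : Lift D Λ) (Z : Λ) (x : ℕ × ℕ) : ZMod 2 :=
  if S.lb x = some Z then 1 else 0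

lemma Lift.ind_jf (Z : Λ) : S.Jf (S.ind Z) 0 where
  zero x hx := by
    simp [Lift.ind, Lift.lb, hx]
  next x a hx := by
    rw [Lift.ind, S.lb_next (Lift.valid_of_lb hx)]
    cases D.cr x <;> simp [Lift.ind]

lemma Lift.ind_cyc (Z : Λ) : S.Cyc (S.ind Z) := (Lift.ind_jf Z).cyc (fun _ _ _ _ => rfl)

/-- Number mod 2 of strands labelled `Z` to the left of a point. -/
noncomputable def Lift.side (S : Lift D Λ) (Z : Λ) (x : ℕ × ℕ) : ZMod 2 := pre (S.ind Z) x.1 x.2

open Classical in
/-- Indicator of the crossings that involve `Z`. -/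
noncomputable def Lift.mt (S : Lift D Λ) (Z : Λ) (t : ℕ) : ZMod 2 :=
  if ∃ a, S.Meet t a Z then 1 else 0

lemma Lift.side_succ {Z : Λ} {t i : ℕ} :
    S.side Z (t, i + 1) = S.side Z (t, i) + S.ind Z (t, i) := pre_succ _ _ _

lemma Lift.ind_of_ne {Z a : Λ} {x : ℕ × ℕ} (h : S.lb x = some a) (ha : a ≠ Z) :
    S.ind Z x = 0 := by
  simp [Lift.ind, h, ha]

lemma Lift.side_nb {Z a : Λ} (ha : a ≠ Z) {c : Option ℕ} {x y : ℕ × ℕ} (h : D.Nb c x y)
    (hx : S.lb x = some a) (hy : S.lb y = some a) :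
    S.side Z x + S.side Z y = c.elim 0 (S.mt Z) := by
  have hZ := S.ind_cyc Z
  cases h with
  | cup₁ h hi =>
    rw [Lift.side, Lift.side, hZ.pre_cup₁ h hi.le, z2_add_self]
    rfl
  | cup₂ h hi =>
    rw [Lift.side, Lift.side, hZ.pre_cup₂ h hi, z2_add_self]
    rfl
  | cup₃ h =>
    rw [Lift.side_succ, S.ind_of_ne hx ha, add_zero, z2_add_self]
    rfl
  | cap₁ h hi =>
    rw [Lift.side, Lift.side, hZ.pre_cap₁ h hi.le, z2_add_self]
    rfl
  | cap₂ h hi =>
    rw [Lift.side, Lift.side, hZ.pre_cap₂ h hi, z2_add_self]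
    rfl
  | cap₃ h =>
    rw [Lift.side_succ, S.ind_of_ne hx ha, add_zero, z2_add_self]
    rfl
  | @cross₁ t p i b h hi hi' =>
    rcases Nat.lt_or_ge i p with h1 | h1
    · rw [Lift.side, Lift.side, hZ.pre_cross₁ h h1.le, z2_add_self]
      rfl
    · rw [Lift.side, Lift.side, hZ.pre_cross₂ h (by omega), z2_add_self]
      rfl
  | @cross₂ t p b h =>
    have h0 : S.side Z (t + 1, p) = S.side Z (t, p) := hZ.pre_cross₁ h le_rfl
    rw [Lift.side_succ, h0, ← add_assoc, z2_add_self, zero_add]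
    obtain ⟨⟨u, d⟩, ⟨v, d'⟩, h1, h2, h3, h4, h5, -⟩ := S.cross_spec h
    have hl1 := Lift.lb_of_pt h1
    have hl2 := Lift.lb_of_pt h2
    have hl3 := Lift.lb_of_pt h3
    have hl4 := Lift.lb_of_pt h4
    have hua : u = a := by
      rw [hl1] at hx
      exact Option.some.inj hx
    subst hua
    by_cases hv : v = Z
    · subst hv
      have : ∃ a, S.Meet t a v := ⟨u, Or.inl ⟨p, b, h, hl1, hl2⟩⟩
      simp [Lift.ind, hl3, Lift.mt, this]
    · have : ¬ ∃ a, S.Meet t a Z := by
        rintro ⟨a, ha'⟩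
        rcases ha'.unique (Or.inl ⟨p, b, h, hl1, hl2⟩) with ⟨-, h7⟩ | ⟨-, h7⟩
        · exact hv h7.symm
        · exact ha h7.symm
      simp [Lift.ind, hl3, Lift.mt, this, hv]
  | @cross₃ t p b h =>
    have h0 : S.side Z (t + 1, p) = S.side Z (t, p) := hZ.pre_cross₁ h le_rfl
    rw [Lift.side_succ, h0]
    have h00 := z2_add_self (S.side Z (t, p))
    obtain ⟨⟨u, d⟩, ⟨v, d'⟩, h1, h2, h3, h4, h5, -⟩ := S.cross_spec h
    have hl1 := Lift.lb_of_pt h1
    have hl2 := Lift.lb_of_pt h2
    have hl3 := Lift.lb_of_pt h3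
    have hl4 := Lift.lb_of_pt h4
    have hva : v = a := by
      rw [hl2] at hx
      exact Option.some.inj hx
    subst hva
    by_cases hu : u = Z
    · subst hu
      have : ∃ a, S.Meet t a u := ⟨v, Or.inr ⟨p, b, h, hl1, hl2⟩⟩
      have e1 : S.ind u (t, p) = 1 := by simp [Lift.ind, hl1]
      have e2 : S.mt u t = 1 := by simp [Lift.mt, this]
      simp only [Option.elim_some, e1, e2]
      linear_combination h00
    · have : ¬ ∃ a, S.Meet t a Z := by
        rintro ⟨a, ha'⟩
        rcases ha'.unique (Or.inl ⟨p, b, h, hl1, hl2⟩) with ⟨-, h7⟩ | ⟨-, h7⟩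
        · exact ha h7.symm
        · exact hu h7.symm
      have e1 : S.ind Z (t, p) = 0 := by simp [Lift.ind, hl1, hu]
      have e2 : S.mt Z t = 0 := by simp [Lift.mt, this]
      simp only [Option.elim_some, e1, e2]
      linear_combination h00

lemma Lift.side_next {Z a : Λ} (ha : a ≠ Z) {x : ℕ × ℕ} (hx : S.lb x = some a) :
    S.side Z (D.next x) = S.side Z x + (D.cr x).elim 0 (S.mt Z) := by
  have hv := Lift.valid_of_lb hx
  have hy : S.lb (D.next x) = some a := by rw [S.lb_next hv, hx]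
  have h0 := z2_add_self (S.side Z x)
  rcases S.nb_next hv with h | h
  · have := Lift.side_nb ha h hx hy
    linear_combination this - h0
  · have := Lift.side_nb ha h hy hx
    linear_combination this - h0

lemma Lift.cr_cases {x : ℕ × ℕ} {t : ℕ} (hx : S.pt x ≠ none) (h : D.cr x = some t) :
    ∃ p b, D.word[t]? = some ⟨p, .cross b⟩ ∧ ((D.up x = true ∧ (x = (t, p) ∨ x = (t, p + 1))) ∨
      (D.up x = false ∧ (x = (t + 1, p) ∨ x = (t + 1, p + 1)))) := by
  have hpos := S.pos_of_pt hx
  obtain ⟨s, i⟩ := x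
  rw [Diagram.cr] at h
  split at h
  · rename_i p b he
    simp only at h he
    split at h
    · rename_i hi
      cases hu : D.up (s, i) with
      | true =>
        rw [hu] at h he
        simp only [if_true, Option.some.injEq] at h he
        subst h
        refine ⟨p, b, he, Or.inl ⟨rfl, ?_⟩⟩
        rcases hi with hi | hi
        · left; rw [hi]
        · right; rw [hi]
      | false =>
        rw [hu] at h he
        simp only [Bool.false_eq_true, if_false, Option.some.injEq] at h he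
        subst h
        have hs : s - 1 + 1 = s := by simp only at hpos; omega
        rw [hs]
        refine ⟨p, b, he, Or.inr ⟨rfl, ?_⟩⟩
        rcases hi with hi | hi
        · left; rw [hi]
        · right; rw [hi]
    · simp at h
  · simp at h

lemma Lift.CrossLab.side_eq {Z a a' : Λ} {t : ℕ} (h : S.CrossLab t a a') (ha : a ≠ Z)
    (ha' : a' ≠ Z) {x y : ℕ × ℕ} (hx : S.pt x ≠ none) (hy : S.pt y ≠ none)
    (cx : D.cr x = some t) (cy : D.cr y = some t) : S.side Z x = S.side Z y := by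
  obtain ⟨p, b, he, h1, h2⟩ := h
  have hZ := S.ind_cyc Z
  have h0 : S.side Z (t + 1, p) = S.side Z (t, p) := hZ.pre_cross₁ he le_rfl
  have h3 : S.side Z (t, p + 1) = S.side Z (t, p) := by
    rw [Lift.side_succ, S.ind_of_ne h1 ha, add_zero]
  obtain ⟨u, v, k1, k2, k3, k4, k5, -⟩ := S.cross_spec he
  have h5 : S.lb (t + 1, p) = some a' := by
    rw [Lift.lb, k3, ← k2]
    exact h2
  have h4 : S.side Z (t + 1, p + 1) = S.side Z (t, p) := by
    rw [Lift.side_succ, S.ind_of_ne h5 ha', add_zero, h0]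
  have key : ∀ x, S.pt x ≠ none → D.cr x = some t → S.side Z x = S.side Z (t, p) := by
    intro x hx cx
    obtain ⟨p', b', he', hc⟩ := Lift.cr_cases hx cx
    rw [he] at he'
    simp only [Option.some.injEq, Slice.mk.injEq] at he'
    obtain ⟨rfl, -⟩ := he'
    rcases hc with ⟨-, rfl | rfl⟩ | ⟨-, rfl | rfl⟩
    · rfl
    · exact h3
    · exact h0
    · exact h4
  rw [key x hx cx, key y hy cy]

/-- The two strand starts at a crossing. -/
lemma Lift.CrossLab.starts {a a' : Λ} {t : ℕ} (h : S.CrossLab t a a') :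
    ∃ sA sB, S.lb sA = some a ∧ S.lb sB = some a' ∧ D.cr sA = some t ∧ D.cr sB = some t ∧
      ∀ x, S.pt x ≠ none → D.cr x = some t → x = sA ∨ x = sB := by
  obtain ⟨p, b, he, h1, h2⟩ := h
  obtain ⟨⟨u, d⟩, ⟨v, d'⟩, k1, k2, k3, k4, k5, -⟩ := S.cross_spec he
  have hua : u = a := by
    rw [Lift.lb_of_pt k1] at h1
    exact Option.some.inj h1
  have hva : v = a' := by
    rw [Lift.lb_of_pt k2] at h2
    exact Option.some.inj h2
  subst hua hva
  refine ⟨if d then (t, p) else (t + 1, p + 1), if d' then (t, p + 1) else (t + 1, p),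
    ?_, ?_, ?_, ?_, ?_⟩
  · cases d
    · exact Lift.lb_of_pt k4
    · exact h1
  · cases d'
    · exact Lift.lb_of_pt k3
    · exact h2
  · cases d
    · simp [Diagram.cr, S.up_eq k4, he]
    · simp [Diagram.cr, S.up_eq k1, he]
  · cases d'
    · simp [Diagram.cr, S.up_eq k3, he]
    · simp [Diagram.cr, S.up_eq k2, he]
  · intro x hx cx
    obtain ⟨p', b', he', hc⟩ := Lift.cr_cases hx cx
    rw [he] at he'
    simp only [Option.some.injEq, Slice.mk.injEq] at he'
    obtain ⟨rfl, -⟩ := he'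
    rcases hc with ⟨hu, rfl | rfl⟩ | ⟨hu, rfl | rfl⟩
    · rw [S.up_eq k1] at hu
      subst hu
      simp
    · rw [S.up_eq k2] at hu
      subst hu
      simp
    · rw [S.up_eq k3] at hu
      subst hu
      simp
    · rw [S.up_eq k4] at hu
      subst hu
      simp

lemma Lift.Meet.start {a a' : Λ} {t : ℕ} (h : S.Meet t a a') (hne : a ≠ a') :
    ∃ s, S.lb s = some a ∧ D.cr s = some t ∧
      ∀ x, S.lb x = some a → D.cr x = some t → x = s := by
  rcases h with h | h
  · obtain ⟨sA, sB, h1, h2, h3, h4, h5⟩ := h.starts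
    refine ⟨sA, h1, h3, ?_⟩
    intro x hx cx
    rcases h5 x (Lift.valid_of_lb hx) cx with rfl | rfl
    · rfl
    · rw [h2] at hx
      exact absurd (Option.some.inj hx).symm hne
  · obtain ⟨sA, sB, h1, h2, h3, h4, h5⟩ := h.starts
    refine ⟨sB, h2, h4, ?_⟩
    intro x hx cx
    rcases h5 x (Lift.valid_of_lb hx) cx with rfl | rfl
    · rw [h1] at hx
      exact absurd (Option.some.inj hx).symm hne
    · rfl

lemma Lift.Meet.side_eq {Z a a' : Λ} {t : ℕ} (h : S.Meet t a a') (ha : a ≠ Z)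
    (ha' : a' ≠ Z) {x y : ℕ × ℕ} (hx : S.pt x ≠ none) (hy : S.pt y ≠ none)
    (cx : D.cr x = some t) (cy : D.cr y = some t) : S.side Z x = S.side Z y := by
  rcases h with h | h
  · exact h.side_eq ha ha' hx hy cx cy
  · exact h.side_eq ha' ha hx hy cx cy

/-- A point at a crossing carries one of the two labels of the crossing. -/
lemma Lift.meet_of_cr {x : ℕ × ℕ} {a : Λ} {t : ℕ} (hx : S.lb x = some a) (cx : D.cr x = some t) :
    ∃ a', S.Meet t a a' := by
  obtain ⟨p, b, he, hc⟩ := Lift.cr_cases (Lift.valid_of_lb hx) cx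
  obtain ⟨⟨u, d⟩, ⟨v, d'⟩, k1, k2, k3, k4, k5, -⟩ := S.cross_spec he
  have h1 : S.CrossLab t u v := ⟨p, b, he, Lift.lb_of_pt k1, Lift.lb_of_pt k2⟩
  rcases hc with ⟨hu, rfl | rfl⟩ | ⟨hu, rfl | rfl⟩
  · rw [Lift.lb_of_pt k1] at hx
    obtain rfl := Option.some.inj hx
    exact ⟨v, Or.inl h1⟩
  · rw [Lift.lb_of_pt k2] at hx
    obtain rfl := Option.some.inj hx
    exact ⟨u, Or.inr h1⟩
  · rw [Lift.lb_of_pt k3] at hx
    obtain rfl := Option.some.inj hx
    exact ⟨u, Or.inr h1⟩
  · rw [Lift.lb_of_pt k4] at hx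
    obtain rfl := Option.some.inj hx
    exact ⟨v, Or.inl h1⟩

end Pool.Agent.Lib_helper21.Wsap
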