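import Mathlib

/-!
Oriented link diagrams in the plane, in sliced (Morse) form, links as sliced diagrams up to
the oriented Turaev moves (planar isotopy and Reidemeister moves), and weakly successively
k-almost positive diagrams and links.

A diagram is read from bottom to top. It is a word of slices; each slice holds one elementary
piece (a cup, a cap or a crossing) at some horizontal position, every other strand passing
straight through the slice. Strands at a level between two slices are numbered from left to
right, starting with 0.
-/

namespace Pool.Agent.Lib_helper21.Wsap

/-- An elementary piece of an oriented link diagram.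
`cup d`: a local minimum, whose left leg is directed upwards iff `d = true` (and whose right
leg is directed the other way);
`cap`: a local maximum;
`cross b`: a crossing of two neighbouring strands; for `b = true` the strand going from bottom
left to top right is the over-strand, for `b = false` the strand going from bottom right to top
left is the over-strand. -/
inductive Piece
  | cup (d : Bool)
  | cap
  | cross (b : Bool)

/-- Number of strands entering a piece from below. -/
def Piece.inn : Piece → ℕ
  | .cup _ => 0
  | .cap => 2
  | .cross _ => 2

/-- Number of strands leaving a piece at the top. -/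
def Piece.out : Piece → ℕ
  | .cup _ => 2
  | .cap => 0
  | .cross _ => 2

/-- How a piece placed at position `0` changes the list of directions of the strands
(`true` = upwards, strands listed from left to right); `none` if it does not fit: a cap must
join two strands of opposite directions. -/
def Piece.act : Piece → List Bool → Option (List Bool)
  | .cup d, s => some (d :: (!d) :: s)
  | .cap, x :: y :: s => if x = y then none else some s
  | .cross _, x :: y :: s => some (y :: x :: s)
  | _, _ => none

/-- How a piece placed at position `i` changes the list of directions. -/
def actAt : ℕ → Piece → List Bool → Option (List Bool)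
  | 0, g, s => g.act s
  | i + 1, g, x :: s => (actAt i g s).map (x :: ·)
  | _ + 1, _, [] => none

/-- A slice of a diagram: one elementary piece, with `pos` strands to the left of it. -/
structure Slice where
  pos : ℕ
  piece : Piece

/-- The list of directions after a word of slices (read from bottom to top), starting with the
list of directions `s`; `none` if some slice does not fit. -/
def run : List Slice → List Bool → Option (List Bool)
  | [], s => some s
  | e :: w, s => (actAt e.pos e.piece s).bind (run w)

/-- An oriented link diagram in the plane: a word of slices that starts and ends with no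
strands, and all of whose slices fit. -/
structure Diagram where
  word : List Slice
  closed : run word [] = some []

/-- The directions of the strands at level `t`, i.e. just below slice number `t` (the slices are
numbered `0, 1, 2, ...` from bottom to top). -/
def Diagram.state (D : Diagram) (t : ℕ) : List Bool :=
  (run (D.word.take t) []).getD []

/-- A point `x = (t, i)` is strand number `i` at level `t`. This is its direction
(`true` = upwards). -/
def Diagram.up (D : Diagram) (x : ℕ × ℕ) : Bool :=
  (D.state x.1).getD x.2 false

/-- Slice `t` is a negative crossing. (If both strands have the same vertical direction, the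
crossing `cross true` is positive and `cross false` is negative; if they have opposite vertical
directions it is the other way round.) -/
def Diagram.IsNeg (D : Diagram) (t : ℕ) : Prop :=
  ∃ p b, D.word[t]? = some ⟨p, .cross b⟩ ∧ b ≠ (D.up (t, p) == D.up (t, p + 1))

/-- Enter a slice from below as strand `i`: the result is `(true, j)` if one leaves it at the top
as strand `j`, and `(false, j)` if one turns back (at a cap) and leaves it at the bottom as
strand `j`. -/
def Slice.fromBelow : Slice → ℕ → Bool × ℕ
  | ⟨p, .cup _⟩, i => (true, if i < p then i else i + 2)
  | ⟨p, .cap⟩, i =>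
      if i < p then (true, i) else if i = p then (false, p + 1)
      else if i = p + 1 then (false, p) else (true, i - 2)
  | ⟨p, .cross _⟩, i => (true, if i = p then p + 1 else if i = p + 1 then p else i)

/-- Enter a slice from above as strand `i`: the result is `(false, j)` if one leaves it at the
bottom as strand `j`, and `(true, j)` if one turns back (at a cup) and leaves it at the top as
strand `j`. -/
def Slice.fromAbove : Slice → ℕ → Bool × ℕ
  | ⟨p, .cup _⟩, i =>
      if i < p then (false, i) else if i = p then (true, p + 1)
      else if i = p + 1 then (true, p) else (false, i - 2)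
  | ⟨p, .cap⟩, i => (false, if i < p then i else i + 2)
  | ⟨p, .cross _⟩, i => (false, if i = p then p + 1 else if i = p + 1 then p else i)

/-- Slice number `t` (with a junk value if there is none). -/
def Diagram.slice (D : Diagram) (t : ℕ) : Slice := D.word.getD t ⟨0, .cap⟩

/-- The next point on the diagram when one follows the orientation from the point `x`: a point
directed upwards goes on into the slice above it, a point directed downwards goes on into the
slice below it. -/
def Diagram.next (D : Diagram) (x : ℕ × ℕ) : ℕ × ℕ :=
  if D.up x then
    let r := (D.slice x.1).fromBelow x.2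
    (if r.1 then x.1 + 1 else x.1, r.2)
  else
    let r := (D.slice (x.1 - 1)).fromAbove x.2
    (if r.1 then x.1 else x.1 - 1, r.2)

/-- Following the orientation from the point `x`, one immediately passes over the crossing in
slice `t`. -/
def Diagram.Over (D : Diagram) (x : ℕ × ℕ) (t : ℕ) : Prop :=
  ∃ p b, D.word[t]? = some ⟨p, .cross b⟩ ∧
    x = if D.up x then (t, if b then p else p + 1) else (t + 1, if b then p + 1 else p)

/-- Following the orientation from the point `x`, one immediately passes under the crossing in
slice `t`. -/
def Diagram.Under (D : Diagram) (x : ℕ × ℕ) (t : ℕ) : Prop :=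
  ∃ p b, D.word[t]? = some ⟨p, .cross b⟩ ∧
    x = if D.up x then (t, if b then p + 1 else p) else (t + 1, if b then p else p + 1)

/-- The arc of the diagram through the points `q, next q, ..., next^m q` (all distinct) is an
overarc: it passes over at every crossing it meets. -/
def Diagram.IsOverarc (D : Diagram) (q : ℕ × ℕ) (m : ℕ) : Prop :=
  q.2 < (D.state q.1).length ∧
  (∀ i ≤ m, ∀ j ≤ m, D.next^[i] q = D.next^[j] q → i = j) ∧
  ∀ j < m, ∀ t, ¬ D.Under (D.next^[j] q) t

/-- A diagram is weakly successively `k`-almost positive if exactly `k` of its crossings are
negative and all negative crossings lie on one common overarc (for `k = 0` the second condition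
is empty, and the diagram is positive). -/
def Diagram.WSAP (D : Diagram) (k : ℕ) : Prop :=
  {t | D.IsNeg t}.ncard = k ∧
  (k ≠ 0 → ∃ q m, D.IsOverarc q m ∧ ∀ t, D.IsNeg t → ∃ j < m, D.Over (D.next^[j] q) t)

/-- The oriented Turaev moves: planar isotopy (`exchange` of the heights of two distant pieces;
the cancellations `zigzagL`, `zigzagR` of a maximum and a minimum; `slideCup`, `slideCap`, in
which a crossing passes through a vertical tangency) and the Reidemeister moves. -/
inductive Move : List Slice → List Slice → Prop
  | exchange (i k : ℕ) (g h : Piece) :
      Move [⟨i, g⟩, ⟨i + g.out + k, h⟩] [⟨i + g.inn + k, h⟩, ⟨i, g⟩]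
  | zigzagL (i : ℕ) (d : Bool) : Move [⟨i, .cup d⟩, ⟨i + 1, .cap⟩] []
  | zigzagR (i : ℕ) (d : Bool) : Move [⟨i + 1, .cup d⟩, ⟨i, .cap⟩] []
  | slideCup (i : ℕ) (d b : Bool) :
      Move [⟨i, .cup d⟩, ⟨i + 1, .cross b⟩] [⟨i + 1, .cup d⟩, ⟨i, .cross (!b)⟩]
  | slideCap (i : ℕ) (b : Bool) :
      Move [⟨i + 1, .cross b⟩, ⟨i, .cap⟩] [⟨i, .cross (!b)⟩, ⟨i + 1, .cap⟩]
  | r1Cup (i : ℕ) (d b : Bool) : Move [⟨i, .cup d⟩, ⟨i, .cross b⟩] [⟨i, .cup (!d)⟩]
  | r1Cap (i : ℕ) (b : Bool) : Move [⟨i, .cross b⟩, ⟨i, .cap⟩] [⟨i, .cap⟩]
  | r2 (i : ℕ) (b : Bool) : Move [⟨i, .cross b⟩, ⟨i, .cross (!b)⟩] []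
  | r3 (i : ℕ) (a b c : Bool) (h : ¬ (a = c ∧ b ≠ a)) :
      Move [⟨i, .cross a⟩, ⟨i + 1, .cross b⟩, ⟨i, .cross c⟩]
        [⟨i + 1, .cross c⟩, ⟨i, .cross b⟩, ⟨i + 1, .cross a⟩]

/-- Two diagrams differ by one move applied inside them. -/
def Step (D D' : Diagram) : Prop :=
  ∃ w₁ w₂ u u' : List Slice, Move u u' ∧ D.word = w₁ ++ u ++ w₂ ∧ D'.word = w₁ ++ u' ++ w₂

/-- An (isotopy class of an) oriented link: a class of diagrams up to finite sequences of
moves and their inverses. -/
def Link : Type := Quot Step

/-- A link is weakly successively `k`-almost positive if some diagram of it is. -/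
def Link.WSAP (L : Link) (k : ℕ) : Prop := ∃ D : Diagram, Quot.mk Step D = L ∧ D.WSAP k

end Pool.Agent.Lib_helper21.Wsap
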