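import Pool.Agent.Lib_helper21.WsapOrb

namespace Pool.Agent.Lib_helper21.Wsap

universe u
variable {Λ : Type u} {D : Diagram} (S : Lift D Λ)

lemma z2_add_self (a : ZMod 2) : a + a = 0 := CharTwo.add_self_eq_zero a

lemma z2_eq_of_add {a b : ZMod 2} (h : a + b = 0) : a = b := by
  revert h
  revert a b
  decide

/-- Mod 2 cycles carried by the strands of a diagram. -/
structure Lift.Cyc (F : ℕ × ℕ → ZMod 2) : Prop where
  zero : ∀ x, S.pt x = none → F x = 0
  cup : ∀ t p d, D.word[t]? = some ⟨p, .cup d⟩ → (∀ i < p, F (t + 1, i) = F (t, i)) ∧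
    (∀ i, p ≤ i → F (t + 1, i + 2) = F (t, i)) ∧ F (t + 1, p) = F (t + 1, p + 1)
  cap : ∀ t p, D.word[t]? = some ⟨p, .cap⟩ → (∀ i < p, F (t + 1, i) = F (t, i)) ∧
    (∀ i, p ≤ i → F (t + 1, i) = F (t, i + 2)) ∧ F (t, p) = F (t, p + 1)
  cross : ∀ t p b, D.word[t]? = some ⟨p, .cross b⟩ →
    (∀ i, i ≠ p → i ≠ p + 1 → F (t + 1, i) = F (t, i)) ∧
    F (t, p) + F (t, p + 1) = F (t + 1, p) + F (t + 1, p + 1)

/-- Prefix sums. -/
def pre (F : ℕ × ℕ → ZMod 2) (t i : ℕ) : ZMod 2 := ∑ j ∈ Finset.range i, F (t, j)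

lemma pre_succ (F : ℕ × ℕ → ZMod 2) (t i : ℕ) : pre F t (i + 1) = pre F t i + F (t, i) := by
  simp [pre, Finset.sum_range_succ]

lemma pre_congr {F : ℕ × ℕ → ZMod 2} {t p : ℕ} (h : ∀ i < p, F (t + 1, i) = F (t, i)) :
    ∀ i ≤ p, pre F (t + 1) i = pre F t i := by
  intro i hi
  apply Finset.sum_congr rfl
  intro j hj
  exact h j (by simp at hj; omega)

namespace Lift.Cyc

variable {S} {F G : ℕ × ℕ → ZMod 2} {t p : ℕ} {d b : Bool}

lemma pre_cup₁ (hF : S.Cyc F) (h : D.word[t]? = some ⟨p, .cup d⟩) {i : ℕ} (hi : i ≤ p) :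
    pre F (t + 1) i = pre F t i := pre_congr (hF.cup t p d h).1 i hi

lemma pre_cup₂ (hF : S.Cyc F) (h : D.word[t]? = some ⟨p, .cup d⟩) {i : ℕ} (hi : p ≤ i) :
    pre F (t + 1) (i + 2) = pre F t i := by
  induction i, hi using Nat.le_induction with
  | base =>
    rw [pre_succ, pre_succ, hF.pre_cup₁ h le_rfl, (hF.cup t p d h).2.2, add_assoc, z2_add_self,
      add_zero]
  | succ i hi ih =>
    rw [show i + 1 + 2 = i + 2 + 1 by omega, pre_succ, ih, pre_succ, (hF.cup t p d h).2.1 i hi]

lemma pre_cap₁ (hF : S.Cyc F) (h : D.word[t]? = some ⟨p, .cap⟩) {i : ℕ} (hi : i ≤ p) :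
    pre F (t + 1) i = pre F t i := pre_congr (hF.cap t p h).1 i hi

lemma pre_cap₂ (hF : S.Cyc F) (h : D.word[t]? = some ⟨p, .cap⟩) {i : ℕ} (hi : p ≤ i) :
    pre F (t + 1) i = pre F t (i + 2) := by
  induction i, hi using Nat.le_induction with
  | base =>
    rw [pre_succ, pre_succ, hF.pre_cap₁ h le_rfl, (hF.cap t p h).2.2, add_assoc, z2_add_self,
      add_zero]
  | succ i hi ih =>
    rw [pre_succ, ih, (hF.cap t p h).2.1 i hi, ← pre_succ, show i + 1 + 2 = i + 2 + 1 by omega]

lemma pre_cross₁ (hF : S.Cyc F) (h : D.word[t]? = some ⟨p, .cross b⟩) {i : ℕ} (hi : i ≤ p) :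
    pre F (t + 1) i = pre F t i :=
  pre_congr (fun i hi => (hF.cross t p b h).1 i (by omega) (by omega)) i hi

lemma pre_cross₂ (hF : S.Cyc F) (h : D.word[t]? = some ⟨p, .cross b⟩) {i : ℕ} (hi : p + 2 ≤ i) :
    pre F (t + 1) i = pre F t i := by
  induction i, hi using Nat.le_induction with
  | base =>
    rw [pre_succ, pre_succ, pre_succ, pre_succ, hF.pre_cross₁ h le_rfl, add_assoc,
      ← (hF.cross t p b h).2, add_assoc]
  | succ i hi ih =>
    rw [pre_succ, ih, pre_succ, (hF.cross t p b h).1 i (by omega) (by omega)]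

end Lift.Cyc

lemma sum_shift_two {H H' : ℕ → ZMod 2} {p B : ℕ} (hp : p ≤ B) (h1 : ∀ i < p, H' i = H i)
    (h2 : ∀ i, p ≤ i → H' (i + 2) = H i) :
    ∑ i ∈ Finset.range (B + 2), H' i = ∑ i ∈ Finset.range B, H i + (H' p + H' (p + 1)) := by
  induction B, hp using Nat.le_induction with
  | base =>
    rw [Finset.sum_range_succ, Finset.sum_range_succ, add_assoc]
    congr 1
    exact Finset.sum_congr rfl (fun i hi => h1 i (by simpa using hi))
  | succ B hB ih =>
    rw [show B + 1 + 2 = B + 2 + 1 by omega, Finset.sum_range_succ, ih, Finset.sum_range_succ,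
      h2 B hB]
    ring

lemma sum_change_two {H H' : ℕ → ZMod 2} {p B : ℕ} (hp : p + 2 ≤ B)
    (h1 : ∀ i, i ≠ p → i ≠ p + 1 → H' i = H i) :
    ∑ i ∈ Finset.range B, H' i =
      ∑ i ∈ Finset.range B, H i + (H' p + H' (p + 1) + H p + H (p + 1)) := by
  induction B, hp using Nat.le_induction with
  | base =>
    rw [Finset.sum_range_succ, Finset.sum_range_succ, Finset.sum_range_succ, Finset.sum_range_succ]
    rw [Finset.sum_congr rfl (fun i hi => h1 i (by simp at hi; omega) (by simp at hi; omega))]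
    have h3 := z2_add_self (H p)
    have h4 := z2_add_self (H (p + 1))
    linear_combination - h3 - h4
  | succ B hB ih =>
    rw [Finset.sum_range_succ, ih, Finset.sum_range_succ, h1 B (by omega) (by omega)]
    ring

/-- Local intersection number of two mod 2 chains at slice `t`. -/
def Diagram.om (D : Diagram) (F G : ℕ × ℕ → ZMod 2) (t : ℕ) : ZMod 2 :=
  match D.word[t]? with
  | some ⟨p, .cross _⟩ => F (t, p) * G (t, p + 1) + F (t + 1, p) * G (t + 1, p + 1)
  | _ => 0

lemma Lift.exists_bound : ∃ B, ∀ t i, B ≤ i → S.pt (t, i) = none := by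
  refine ⟨∑ t ∈ Finset.range D.word.length, (S.σ t).length, ?_⟩
  intro t i hi
  by_cases ht : t < D.word.length
  · simp only [Lift.pt]
    apply List.getElem?_eq_none
    exact (Finset.single_le_sum (f := fun t => (S.σ t).length)
      (fun _ _ => Nat.zero_le _) (Finset.mem_range.2 ht)).trans hi
  · simp only [Lift.pt]
    rw [S.top t (by omega)]
    simp

/-- Two disjoint mod 2 cycles in the plane cross an even number of times. -/
theorem Lift.even_crossings {F G : ℕ × ℕ → ZMod 2} (hF : S.Cyc F) (hG : S.Cyc G)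
    (hFG : ∀ x, F x * G x = 0) : ∑ t ∈ Finset.range D.word.length, D.om F G t = 0 := by
  obtain ⟨B, hB⟩ := S.exists_bound
  have hGB : ∀ t i, B ≤ i → G (t, i) = 0 := fun t i hi => hG.zero _ (hB t i hi)
  have lt_of : ∀ t i, S.pt (t, i) ≠ none → i < B := by
    intro t i h
    by_contra hi
    exact h (hB t i (by omega))
  let inv : ℕ → ZMod 2 := fun t => ∑ j ∈ Finset.range B, pre F t j * G (t, j)
  have step : ∀ t < D.word.length, inv (t + 1) = inv t + D.om F G t := by
    intro t ht
    obtain ⟨⟨p, g⟩, he⟩ : ∃ e, D.word[t]? = some e := ⟨_, List.getElem?_eq_getElem ht⟩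
    cases g with
    | cup d =>
      obtain ⟨-, -, -, a, h3, h4⟩ := S.cup_spec he
      have hp : p + 1 < B := lt_of (t + 1) (p + 1) (by rw [h4]; simp)
      have key := sum_shift_two (H := fun j => pre F t j * G (t, j))
        (H' := fun j => pre F (t + 1) j * G (t + 1, j)) (p := p) (B := B) (by omega)
        (fun i hi => by rw [hF.pre_cup₁ he hi.le, (hG.cup t p d he).1 i hi])
        (fun i hi => by rw [hF.pre_cup₂ he hi, (hG.cup t p d he).2.1 i hi])
      rw [Finset.sum_range_succ, Finset.sum_range_succ] at key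
      simp only [hGB (t + 1) B le_rfl, hGB (t + 1) (B + 1) (by omega), mul_zero, add_zero] at key
      simp only [inv, Diagram.om, he, key]
      rw [pre_succ, ← (hG.cup t p d he).2.2]
      have h5 := hFG (t + 1, p)
      have h6 := z2_add_self (pre F (t + 1) p * G (t + 1, p))
      linear_combination h5 + h6
    | cap =>
      obtain ⟨-, -, -, a, d, h3, h4⟩ := S.cap_spec he
      have hp : p + 1 < B := lt_of t (p + 1) (by rw [h4]; simp)
      have key := sum_shift_two (H' := fun j => pre F t j * G (t, j))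
        (H := fun j => pre F (t + 1) j * G (t + 1, j)) (p := p) (B := B) (by omega)
        (fun i hi => by rw [hF.pre_cap₁ he hi.le, (hG.cap t p he).1 i hi])
        (fun i hi => by rw [hF.pre_cap₂ he hi, (hG.cap t p he).2.1 i hi])
      rw [Finset.sum_range_succ, Finset.sum_range_succ] at key
      simp only [hGB t B le_rfl, hGB t (B + 1) (by omega), mul_zero, add_zero] at key
      simp only [inv, Diagram.om, he, key]
      rw [pre_succ, ← (hG.cap t p he).2.2]
      have h5 := hFG (t, p)
      have h6 := z2_add_self (pre F t p * G (t, p))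
      linear_combination - h5 - h6
    | cross b =>
      obtain ⟨x, y, h1, h2, h3, h4, h5, -⟩ := S.cross_spec he
      have hp : p + 1 < B := lt_of t (p + 1) (by rw [h2]; simp)
      have key := sum_change_two (H := fun j => pre F t j * G (t, j))
        (H' := fun j => pre F (t + 1) j * G (t + 1, j)) (p := p) (B := B) (by omega)
        (fun i hi hi' => by
          rw [(hG.cross t p b he).1 i hi hi']
          rcases Nat.lt_or_ge i p with h | h
          · rw [hF.pre_cross₁ he h.le]
          · rw [hF.pre_cross₂ he (by omega)])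
      simp only [inv, Diagram.om, he, key]
      rw [pre_succ, pre_succ, hF.pre_cross₁ he le_rfl]
      have h6 := (hG.cross t p b he).2
      have h7 := z2_add_self (pre F t p * (G (t + 1, p) + G (t + 1, p + 1)))
      linear_combination (pre F t p) * h6 + h7
  have all : ∀ t ≤ D.word.length, inv t = ∑ s ∈ Finset.range t, D.om F G s := by
    intro t
    induction t with
    | zero =>
      intro _
      simp only [inv, Finset.range_zero, Finset.sum_empty]
      apply Finset.sum_eq_zero
      intro j _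
      rw [hG.zero (0, j) (by simp [Lift.pt, S.zero]), mul_zero]
    | succ t ih =>
      intro ht
      rw [step t (by omega), ih (by omega), Finset.sum_range_succ]
  rw [← all _ le_rfl]
  apply Finset.sum_eq_zero
  intro j _
  rw [hG.zero (D.word.length, j) (by simp [Lift.pt, S.top]), mul_zero]

end Pool.Agent.Lib_helper21.Wsap
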