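import Pool.Agent.Lib_helper21.WsapLower

namespace Pool.Agent.Lib_helper21.Wsap

universe u
variable {Λ : Type u}

/-- All crossings of the word are positive when it starts with directions `s`. -/
def PosW : List Slice → List Bool → Prop
  | [], _ => True
  | e :: w, s => (∀ b, e.piece = .cross b → b = (s.getD e.pos false == s.getD (e.pos + 1) false)) ∧
      ∀ s₁, actAt e.pos e.piece s = some s₁ → PosW w s₁

lemma PosW.append {w₁ w₂ : List Slice} {s : List Bool} (h1 : PosW w₁ s)
    (h2 : ∀ s₁, run w₁ s = some s₁ → PosW w₂ s₁) : PosW (w₁ ++ w₂) s := by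
  induction w₁ generalizing s with
  | nil => exact h2 s rfl
  | cons e w ih =>
    refine ⟨h1.1, fun s₁ hs => ih (h1.2 s₁ hs) (fun s₂ hs₂ => h2 s₂ ?_)⟩
    simp [run, hs, hs₂]

lemma PosW.shift_one {w : List Slice} {x : Bool} {s : List Bool} (h : PosW w s) :
    PosW (w.map (sh 1)) (x :: s) := by
  induction w generalizing s with
  | nil => trivial
  | cons e w ih =>
    refine ⟨?_, ?_⟩
    · intro b hb
      have := h.1 b hb
      simpa [sh, Nat.add_comm 1] using this
    · intro s₁ hs
      simp only [sh, Nat.add_comm 1, actAt, Option.map_eq_some_iff] at hs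
      obtain ⟨s₂, hs₂, rfl⟩ := hs
      exact ih (h.2 s₂ hs₂)

/-- A labelled run all of whose crossings are positive. -/
def Good (w : List Slice) (s s' : St Λ) (M : Λ → Λ → ℤ) : Prop :=
  (∃ K, LRun w s s' M K) ∧ PosW w (s.map Prod.snd)

lemma Good.append {w₁ w₂ : List Slice} {s s₁ s₂ : St Λ} {M₁ M₂ : Λ → Λ → ℤ}
    (h1 : Good w₁ s s₁ M₁) (h2 : Good w₂ s₁ s₂ M₂) : Good (w₁ ++ w₂) s s₂ (M₁ + M₂) := by
  obtain ⟨⟨K₁, h1⟩, p1⟩ := h1
  obtain ⟨⟨K₂, h2⟩, p2⟩ := h2
  refine ⟨⟨K₁ ∪ K₂, LRun_append.2 ⟨s₁, M₁, M₂, K₁, K₂, h1, h2, rfl, rfl⟩⟩, p1.append ?_⟩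
  intro t ht
  rw [h1.run] at ht
  rw [← Option.some.inj ht]
  exact p2

lemma Good.shift_one {w : List Slice} {x : Λ × Bool} {r r' : St Λ} {M : Λ → Λ → ℤ}
    (h : Good w r r' M) : Good (w.map (sh 1)) (x :: r) (x :: r') M := by
  obtain ⟨⟨K, h⟩, p⟩ := h
  exact ⟨⟨{x.1} ∪ K, LRun_shift_one.2 ⟨r', K, rfl, h, rfl⟩⟩, p.shift_one⟩

lemma sh_zero : sh 0 = id := by
  funext e
  simp [sh]

lemma sh_comp (i j : ℕ) : sh i ∘ sh j = sh (i + j) := by
  funext e
  simp [sh, add_assoc]

lemma Good.shift {w : List Slice} {l r r' : St Λ} {M : Λ → Λ → ℤ}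
    (h : Good w r r' M) : Good (w.map (sh l.length)) (l ++ r) (l ++ r') M := by
  induction l with
  | nil => simpa [sh_zero] using h
  | cons x l ih =>
    have := ih.shift_one (x := x)
    rw [List.map_map, sh_comp] at this
    rw [List.length_cons, Nat.add_comm]
    exact this

lemma Good.shift' {w : List Slice} {l r r' : St Λ} {M : Λ → Λ → ℤ} {n : ℕ}
    (h : Good w r r' M) (hn : l.length = n) : Good (w.map (sh n)) (l ++ r) (l ++ r') M := by
  subst hn
  exact h.shift

lemma Good.nil (s : St Λ) : Good [] s s 0 :=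
  ⟨⟨labs s, rfl, rfl, rfl⟩, trivial⟩

lemma Good.cup (a : Λ) (d : Bool) (s : St Λ) :
    Good [⟨0, .cup d⟩] s ((a, d) :: (a, !d) :: s) 0 :=
  ⟨⟨_, LRun_one.2 ⟨⟨a, rfl, rfl⟩, rfl⟩⟩, by simp, fun _ _ => trivial⟩

lemma Good.cap (a : Λ) (d : Bool) (s : St Λ) :
    Good [⟨0, .cap⟩] ((a, d) :: (a, !d) :: s) s 0 :=
  ⟨⟨_, LRun_one.2 ⟨⟨a, d, rfl, rfl⟩, rfl⟩⟩, by simp, fun _ _ => trivial⟩

lemma Good.cross (b : Bool) (x y : Λ × Bool) (r : St Λ) (h : b = (x.2 == y.2)) :
    Good [⟨0, .cross b⟩] (x :: y :: r) (y :: x :: r) (cm b x y) :=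
  ⟨⟨_, LRun_one.2 ⟨⟨x, y, r, rfl, rfl, rfl⟩, rfl⟩⟩, by simpa using h, fun _ _ => trivial⟩

lemma Good.congr {w : List Slice} {s s' : St Λ} {M M' : Λ → Λ → ℤ} (h : Good w s s' M)
    (hM : M = M') : Good w s s' M' := hM ▸ h

/-- The strand at position `0` passes over `m` strands to its right. -/
def outw : ℕ → List Slice
  | 0 => []
  | m + 1 => ⟨0, .cross true⟩ :: (outw m).map (sh 1)

/-- The strand at position `flags.length` comes back to position `0`. -/
def inw : List Bool → List Slice
  | [] => []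
  | b :: bs => (inw bs).map (sh 1) ++ [⟨0, .cross b⟩]

/-- Strands directed upwards. -/
def ups (l : List Λ) : St Λ := l.map (fun a => (a, true))

/-- `a` over all of `l`. -/
noncomputable def oM (a : Λ) : List Λ → Λ → Λ → ℤ
  | [] => 0
  | r :: l => E a r + oM a l

/-- `a` under all of `l`. -/
noncomputable def iM (a : Λ) : List Λ → Λ → Λ → ℤ
  | [] => 0
  | r :: l => iM a l + E r a

lemma cm_tt (a r : Λ) : cm true (a, true) (r, true) = E a r := by simp [cm, sg]

lemma cm_ff (a r : Λ) : cm false (r, true) (a, true) = - E a r := by simp [cm, sg]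

lemma outw_good (a : Λ) (l : List Λ) (rest : St Λ) :
    Good (outw l.length) ((a, true) :: (ups l ++ rest)) (ups l ++ (a, true) :: rest) (oM a l) := by
  induction l with
  | nil => exact Good.nil _
  | cons r l ih =>
    have h1 := Good.cross true (a, true) (r, true) (ups l ++ rest) (by simp)
    have h2 := ih.shift_one (x := (r, true))
    exact (h1.append h2).congr (by rw [cm_tt]; rfl)

lemma inw_good (a : Λ) (l : List Λ) (rest : St Λ) :
    Good (inw (List.replicate l.length true)) (ups l ++ (a, true) :: rest)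
      ((a, true) :: (ups l ++ rest)) (iM a l) := by
  induction l with
  | nil => exact Good.nil _
  | cons r l ih =>
    have h1 := Good.cross true (r, true) (a, true) (ups l ++ rest) (by simp)
    have h2 := ih.shift_one (x := (r, true))
    exact (h2.append h1).congr (by rw [cm_tt]; rfl)

lemma inw_neg (a : Λ) (l : List Λ) (rest : St Λ) :
    ∃ K, LRun (inw (List.replicate l.length false)) (ups l ++ (a, true) :: rest)
      ((a, true) :: (ups l ++ rest)) (- oM a l) K := by
  induction l with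
  | nil => exact ⟨_, rfl, by simp [oM], rfl⟩
  | cons r l ih =>
    obtain ⟨K, ih⟩ := ih
    have h2 := (LRun_shift_one (x := (r, true))).2 ⟨_, _, rfl, ih, rfl⟩
    have h1 : LRun [⟨0, .cross false⟩] ((r, true) :: (a, true) :: (ups l ++ rest))
        ((a, true) :: (r, true) :: (ups l ++ rest)) (cm false (r, true) (a, true)) _ :=
      LRun_one.2 ⟨⟨_, _, _, rfl, rfl, rfl⟩, rfl⟩
    refine ⟨_, LRun_append.2 ⟨_, _, _, _, _, h2, h1, ?_, rfl⟩⟩
    rw [cm_ff, oM]
    abel

/-- A radial loop, crossing `m` strands to the right, with a tip. -/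
def radial (m : ℕ) (tip : List Slice) : List Slice :=
  [⟨0, .cup false⟩] ++ ((outw m ++ tip.map (sh m) ++ inw (List.replicate m true)).map (sh 1)) ++
    [⟨0, .cap⟩]

lemma radial_good (a : Λ) (l : List Λ) {rest rest' : St Λ} {tip : List Slice} {M : Λ → Λ → ℤ}
    {m : ℕ} (hm : l.length = m)
    (h : Good tip ((a, true) :: rest) ((a, true) :: rest') M) :
    Good (radial m tip) (ups l ++ rest) (ups l ++ rest') (oM a l + M + iM a l) := by
  subst hm
  have h1 := Good.cup a false (ups l ++ rest)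
  have h2 := outw_good a l rest
  have h3 : Good (tip.map (sh l.length)) (ups l ++ (a, true) :: rest)
    (ups l ++ (a, true) :: rest') M := h.shift' (by simp [ups])
  have h4 := inw_good a l rest'
  have h5 := Good.cap a false (ups l ++ rest')
  have h6 := ((h2.append h3).append h4).shift_one (x := (a, false))
  exact ((h1.append h6).append h5).congr (by simp)

/-- Clasp matrix. -/
noncomputable def clM (a c : Λ) : Λ → Λ → ℤ := E c a + E a c

/-- A clasp. -/
def clasp : List Slice := [⟨0, .cross false⟩, ⟨0, .cross false⟩]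

lemma clasp_good (a c : Λ) (rest : St Λ) :
    Good clasp ((a, true) :: (c, false) :: rest) ((a, true) :: (c, false) :: rest) (clM a c) := by
  have h1 := Good.cross false (a, true) (c, false) rest (by simp)
  have h2 := Good.cross false (c, false) (a, true) rest (by simp)
  exact (h1.append h2).congr (by simp [cm, sg, clM])

/-- Cup to the right of the first strand. -/
def cup1 : List Slice := [⟨1, .cup false⟩]

/-- Cap to the right of the first strand. -/
def cap1 : List Slice := [⟨1, .cap⟩]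

lemma cup1_good (a : Λ) (x : Λ × Bool) (rest : St Λ) :
    Good cup1 (x :: rest) (x :: (a, false) :: (a, true) :: rest) 0 :=
  (Good.cup a false rest).shift_one

lemma cap1_good (a : Λ) (x : Λ × Bool) (rest : St Λ) :
    Good cap1 (x :: (a, false) :: (a, true) :: rest) (x :: rest) 0 :=
  (Good.cap a false rest).shift_one

/-- One block of three mutually connected radial loops. -/
def block (n : ℕ) : List Slice :=
  radial n (cup1 ++ clasp ++ cup1 ++ clasp) ++ radial n (clasp ++ cap1 ++ cup1 ++ clasp) ++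
    radial n (clasp ++ cap1 ++ clasp ++ cap1)

/-- Matrix of a block. -/
noncomputable def blockM (p t : Fin 3 → Λ) (l : List Λ) : Λ → Λ → ℤ :=
  (oM (p 0) l + (clM (p 0) (t 1) + clM (p 0) (t 2)) + iM (p 0) l) +
  (oM (p 1) l + (clM (p 1) (t 2) + clM (p 1) (t 0)) + iM (p 1) l) +
  (oM (p 2) l + (clM (p 2) (t 0) + clM (p 2) (t 1)) + iM (p 2) l)

lemma block_good (p t : Fin 3 → Λ) (l : List Λ) {n : ℕ} (hn : l.length = n) :
    Good (block n) (ups l) (ups l) (blockM p t l) := by
  have h1 : Good (cup1 ++ clasp ++ cup1 ++ clasp) ((p 0, true) :: [])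
      ((p 0, true) :: [(t 2, false), (t 2, true), (t 1, false), (t 1, true)])
      (clM (p 0) (t 1) + clM (p 0) (t 2)) :=
    ((((cup1_good (t 1) _ []).append (clasp_good (p 0) (t 1) [(t 1, true)])).append
      (cup1_good (t 2) _ _)).append (clasp_good (p 0) (t 2) _)).congr (by simp)
  have h2 : Good (clasp ++ cap1 ++ cup1 ++ clasp)
      ((p 1, true) :: [(t 2, false), (t 2, true), (t 1, false), (t 1, true)])
      ((p 1, true) :: [(t 0, false), (t 0, true), (t 1, false), (t 1, true)])
      (clM (p 1) (t 2) + clM (p 1) (t 0)) :=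
    ((((clasp_good (p 1) (t 2) _).append (cap1_good (t 2) _ _)).append
      (cup1_good (t 0) _ _)).append (clasp_good (p 1) (t 0) _)).congr (by simp)
  have h3 : Good (clasp ++ cap1 ++ clasp ++ cap1)
      ((p 2, true) :: [(t 0, false), (t 0, true), (t 1, false), (t 1, true)])
      ((p 2, true) :: [])
      (clM (p 2) (t 0) + clM (p 2) (t 1)) :=
    ((((clasp_good (p 2) (t 0) _).append (cap1_good (t 0) _ _)).append
      (clasp_good (p 2) (t 1) _)).append (cap1_good (t 1) _ _)).congr (by simp)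
  have g1 := radial_good (p 0) l hn h1
  have g2 := radial_good (p 1) l hn h2
  have g3 := radial_good (p 2) l hn h3
  have := (g1.append g2).append g3
  rw [List.append_nil] at this
  exact this

/-- Concentric cups. -/
def cupsw : ℕ → List Slice
  | 0 => []
  | m + 1 => [⟨0, .cup false⟩] ++ (cupsw m).map (sh 1)

/-- Concentric caps. -/
def capsw : ℕ → List Slice
  | 0 => []
  | m + 1 => (capsw m).map (sh 1) ++ [⟨0, .cap⟩]

/-- Left legs of the circles. -/
def lefts : ℕ → St Lb
  | 0 => []
  | m + 1 => (.C m, false) :: lefts m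

/-- Labels of consecutive circles. -/
def Cl (a m : ℕ) : List Lb := (List.range m).map (fun j => .C (a + j))

lemma length_lefts (m : ℕ) : (lefts m).length = m := by
  induction m with
  | zero => rfl
  | succ m ih => simp [lefts, ih]

@[simp] lemma length_Cl (a m : ℕ) : (Cl a m).length = m := by simp [Cl]

lemma Cl_add (a m m' : ℕ) : Cl a (m + m') = Cl a m ++ Cl (a + m) m' := by
  simp only [Cl, List.range_add, List.map_append, List.map_map]
  congr 1
  apply List.map_congr_left
  intro j _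
  simp [add_assoc]

lemma ups_append (l l' : List Λ) : ups (l ++ l') = ups l ++ ups l' := by simp [ups]

lemma cupsw_good (m : ℕ) (rest : St Lb) :
    Good (cupsw m) rest (lefts m ++ (ups (Cl 0 m) ++ rest)) 0 := by
  induction m generalizing rest with
  | zero => exact Good.nil _
  | succ m ih =>
    have h1 := Good.cup (Lb.C m) false rest
    have h2 := (ih ((.C m, true) :: rest)).shift_one (x := (.C m, false))
    have h3 := h1.append h2
    have e : Cl 0 (m + 1) = Cl 0 m ++ [.C m] := by
      rw [Cl_add]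
      simp [Cl]
    rw [e, ups_append]
    simpa [cupsw, lefts, ups] using h3

lemma capsw_good (m : ℕ) (rest : St Lb) :
    Good (capsw m) (lefts m ++ (ups (Cl 0 m) ++ rest)) rest 0 := by
  induction m generalizing rest with
  | zero => exact Good.nil _
  | succ m ih =>
    have h1 := Good.cap (Lb.C m) false rest
    have h2 := (ih ((.C m, true) :: rest)).shift_one (x := (.C m, false))
    have h3 := h2.append h1
    have e : Cl 0 (m + 1) = Cl 0 m ++ [.C m] := by
      rw [Cl_add]
      simp [Cl]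
    rw [e, ups_append]
    simpa [capsw, lefts, ups] using h3

/-- The gadgets before the last loop. -/
def gad (k : ℕ) : List Slice :=
  block (k + 4) ++ block (k + 4) ++ radial (k + 2) [] ++ radial (k + 2) [] ++
    (radial (k + 2) []).map (sh 2) ++ (radial (k + 2) []).map (sh 2)

/-- The matrix of the gadgets. -/
noncomputable def gadM (k : ℕ) : Lb → Lb → ℤ :=
  blockM (.P false) (.T false) (Cl 0 (k + 4)) + blockM (.P true) (.T true) (Cl 0 (k + 4)) +
    (oM (.U false) (Cl 0 (k + 2)) + iM (.U false) (Cl 0 (k + 2))) +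
    (oM (.U true) (Cl 0 (k + 2)) + iM (.U true) (Cl 0 (k + 2))) +
    (oM (.V false) (Cl 2 (k + 2)) + iM (.V false) (Cl 2 (k + 2))) +
    (oM (.V true) (Cl 2 (k + 2)) + iM (.V true) (Cl 2 (k + 2)))

lemma gad_good (k : ℕ) : Good (gad k) (ups (Cl 0 (k + 4))) (ups (Cl 0 (k + 4))) (gadM k) := by
  have b0 := block_good (.P false) (.T false) (Cl 0 (k + 4)) (length_Cl _ _)
  have b1 := block_good (.P true) (.T true) (Cl 0 (k + 4)) (length_Cl _ _)
  have e1 : ups (Cl 0 (k + 4)) = ups (Cl 0 (k + 2)) ++ ups (Cl (k + 2) 2) := by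
    rw [← ups_append, show k + 4 = k + 2 + 2 by omega, Cl_add 0 (k + 2) 2, zero_add]
  have e2 : ups (Cl 0 (k + 4)) = ups (Cl 0 2) ++ ups (Cl 2 (k + 2)) := by
    rw [← ups_append, show k + 4 = 2 + (k + 2) by omega, Cl_add 0 2 (k + 2), zero_add]
  have hU : ∀ b, Good (radial (k + 2) []) (ups (Cl 0 (k + 4))) (ups (Cl 0 (k + 4)))
      (oM (.U b) (Cl 0 (k + 2)) + iM (.U b) (Cl 0 (k + 2))) := by
    intro b
    rw [e1]
    exact (radial_good (.U b) (Cl 0 (k + 2)) (length_Cl _ _) (Good.nil _)).congr (by simp)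
  have hV : ∀ b, Good ((radial (k + 2) []).map (sh 2)) (ups (Cl 0 (k + 4))) (ups (Cl 0 (k + 4)))
      (oM (.V b) (Cl 2 (k + 2)) + iM (.V b) (Cl 2 (k + 2))) := by
    intro b
    rw [e2]
    apply Good.shift' _ (by simp [ups])
    have := radial_good (.V b) (Cl 2 (k + 2)) (length_Cl _ _) (Good.nil ((Lb.V b, true) :: []))
    rw [List.append_nil] at this
    exact this.congr (by simp)
  exact ((((b0.append b1).append (hU false)).append (hU true)).append (hV false)).append (hV true)

/-- First part of the last loop. -/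
def apre (k : ℕ) : List Slice :=
  [⟨0, .cup false⟩] ++ (outw (k + 4)).map (sh 1) ++
    (inw (List.replicate 2 true)).map (sh (k + 3))

lemma apre_good (k : ℕ) : Good (apre k) (ups (Cl 0 (k + 4)))
    ((.A, false) :: (ups (Cl 0 2) ++ (ups (Cl 2 k) ++ (.A, true) :: ups (Cl (k + 2) 2))))
    (oM .A (Cl 0 (k + 4)) + iM .A (Cl (k + 2) 2)) := by
  have h1 := Good.cup Lb.A false (ups (Cl 0 (k + 4)))
  have h2 := (outw_good Lb.A (Cl 0 (k + 4)) []).shift_one (x := (.A, false))
  rw [length_Cl, List.append_nil] at h2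
  have e1 : ups (Cl 0 (k + 4)) ++ [(Lb.A, true)] =
      ups (Cl 0 (k + 2)) ++ (ups (Cl (k + 2) 2) ++ (Lb.A, true) :: []) := by
    rw [show k + 4 = k + 2 + 2 by omega, Cl_add 0 (k + 2) 2, zero_add, ups_append]
    simp
  have h3 : Good ((inw (List.replicate 2 true)).map (sh (k + 3)))
      ((.A, false) :: (ups (Cl 0 (k + 4)) ++ [(Lb.A, true)]))
      ((.A, false) :: (ups (Cl 0 (k + 2)) ++ (Lb.A, true) :: ups (Cl (k + 2) 2)))
      (iM .A (Cl (k + 2) 2)) := by
    rw [e1]
    have := inw_good Lb.A (Cl (k + 2) 2) []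
    rw [length_Cl, List.append_nil] at this
    exact this.shift' (l := (.A, false) :: ups (Cl 0 (k + 2))) (by simp [ups])
  have e2 : ups (Cl 0 (k + 2)) = ups (Cl 0 2) ++ ups (Cl 2 k) := by
    rw [← ups_append, show k + 2 = 2 + k by omega, Cl_add 0 2 k, zero_add]
  rw [e2, List.append_assoc] at h3
  exact ((h1.append h2).append h3).congr (by simp)

/-- The negative crossings. -/
def aneg (k : ℕ) : List Slice := (inw (List.replicate k false)).map (sh (k + 7))

/-- Last part of the last loop. -/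
def apost : List Slice := (inw (List.replicate 2 true)).map (sh 1) ++ [⟨0, .cap⟩]

lemma apost_good (rest : St Lb) :
    Good apost ((.A, false) :: (ups (Cl 0 2) ++ (.A, true) :: rest)) (ups (Cl 0 2) ++ rest)
      (iM .A (Cl 0 2)) := by
  have h1 := (inw_good Lb.A (Cl 0 2) rest).shift_one (x := (.A, false))
  rw [length_Cl] at h1
  exact (h1.append (Good.cap Lb.A false _)).congr (by simp)

/-- Everything before the negative crossings. -/
def wpre (k : ℕ) : List Slice := cupsw (k + 4) ++ (gad k ++ apre k).map (sh (k + 4))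

/-- Everything after the negative crossings. -/
def wpost (k : ℕ) : List Slice := apost.map (sh (k + 4)) ++ capsw (k + 4)

/-- State just before the negative crossings. -/
def st0 (k : ℕ) : St Lb := lefts (k + 4) ++ ((.A, false) :: (ups (Cl 0 2) ++
  (ups (Cl 2 k) ++ (.A, true) :: ups (Cl (k + 2) 2))))

/-- State just after the negative crossings. -/
def st1 (k : ℕ) : St Lb := lefts (k + 4) ++ ((.A, false) :: (ups (Cl 0 2) ++
  ((.A, true) :: (ups (Cl 2 k) ++ ups (Cl (k + 2) 2)))))

lemma wpre_good (k : ℕ) : Good (wpre k) [] (st0 k)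
    (gadM k + (oM .A (Cl 0 (k + 4)) + iM .A (Cl (k + 2) 2))) := by
  have h1 := cupsw_good (k + 4) []
  rw [List.append_nil] at h1
  have h2 := ((gad_good k).append (apre_good k)).shift' (length_lefts (k + 4))
  exact (h1.append h2).congr (by simp)

lemma wpost_good (k : ℕ) : Good (wpost k) (st1 k) [] (iM .A (Cl 0 2)) := by
  have h1 := capsw_good (k + 4) []
  rw [List.append_nil] at h1
  have h2 := (apost_good (ups (Cl 2 k) ++ ups (Cl (k + 2) 2))).shift' (length_lefts (k + 4))
  have e : ups (Cl 0 2) ++ (ups (Cl 2 k) ++ ups (Cl (k + 2) 2)) = ups (Cl 0 (k + 4)) := by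
    rw [← ups_append, ← ups_append, show k + 4 = 2 + (k + 2) by omega, Cl_add 0 2 (k + 2), zero_add,
      Cl_add 2 k 2, show 2 + k = k + 2 by omega]
  rw [e] at h2
  exact (h2.append h1).congr (by simp)

lemma LRun_shift {w : List Slice} {l r r' : St Λ} {M : Λ → Λ → ℤ} {n : ℕ}
    (h : ∃ K, LRun w r r' M K) (hn : l.length = n) :
    ∃ K, LRun (w.map (sh n)) (l ++ r) (l ++ r') M K := by
  subst hn
  induction l with
  | nil => simpa [sh_zero] using h
  | cons x l ih =>
    obtain ⟨K, ih⟩ := ih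
    refine ⟨{x.1} ∪ K, ?_⟩
    have h2 := (LRun_shift_one (x := x)).2 ⟨_, _, rfl, ih, rfl⟩
    rw [List.map_map, sh_comp] at h2
    rw [List.length_cons, Nat.add_comm]
    exact h2

lemma aneg_run (k : ℕ) : ∃ K, LRun (aneg k) (st0 k) (st1 k) (- oM .A (Cl 2 k)) K := by
  have h := inw_neg Lb.A (Cl 2 k) (ups (Cl (k + 2) 2))
  rw [length_Cl] at h
  have := LRun_shift (l := lefts (k + 4) ++ (.A, false) :: ups (Cl 0 2)) (n := k + 7) h
    (by simp [length_lefts, ups])
  simpa [aneg, st0, st1] using this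

/-- The linking matrix of the example. -/
noncomputable def exM (k : ℕ) : Lb → Lb → ℤ :=
  (gadM k + (oM .A (Cl 0 (k + 4)) + iM .A (Cl (k + 2) 2))) + (- oM .A (Cl 2 k)) + iM .A (Cl 0 2)

lemma ex_run (k : ℕ) : ∃ K, LRun (wpre k ++ aneg k ++ wpost k) [] [] (exM k) K := by
  obtain ⟨⟨K₁, h1⟩, -⟩ := wpre_good k
  obtain ⟨K₂, h2⟩ := aneg_run k
  obtain ⟨⟨K₃, h3⟩, -⟩ := wpost_good k
  exact ⟨_, LRun_append.2 ⟨_, _, _, _, _, LRun_append.2 ⟨_, _, _, _, _, h1, h2, rfl, rfl⟩, h3, rfl,
    rfl⟩⟩

/-- The example. -/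
def exD (k : ℕ) : Diagram where
  word := wpre k ++ aneg k ++ wpost k
  closed := by
    obtain ⟨K, h⟩ := ex_run k
    exact h.run

end Pool.Agent.Lib_helper21.Wsap
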