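import Pool.Agent.Lib_helper21.WsapArc

namespace Pool.Agent.Lib_helper21.Wsap

universe u
variable {Λ : Type u} {D : Diagram} {S : Lift D Λ}

lemma om_add_left (F F' G : ℕ × ℕ → ZMod 2) (t : ℕ) :
    D.om (F + F') G t = D.om F G t + D.om F' G t := by
  unfold Diagram.om
  split
  · simp only [Pi.add_apply]
    ring
  · simp

lemma om_add_right (F G G' : ℕ × ℕ → ZMod 2) (t : ℕ) :
    D.om F (G + G') t = D.om F G t + D.om F G' t := by
  unfold Diagram.om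
  split
  · simp only [Pi.add_apply]
    ring
  · simp

/-- `F` is supported on the component `L`. -/
def Lift.Off (S : Lift D Λ) (L : Λ) (F : ℕ × ℕ → ZMod 2) : Prop :=
  ∀ x, S.lb x ≠ some L → F x = 0

/-- `F` vanishes near the crossing `t` on the strand labelled `L`. -/
def Lift.VanAt (S : Lift D Λ) (L : Λ) (F : ℕ × ℕ → ZMod 2) (t : ℕ) : Prop :=
  ∀ x, S.lb x = some L → D.cr x = some t → F x = 0 ∧ F (D.next x) = 0

/-- Data of a crossing. -/
lemma Lift.cross_data {t p : ℕ} {b : Bool} (h : D.word[t]? = some ⟨p, .cross b⟩) :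
    ∃ A B, S.lb (t, p) = some A ∧ S.lb (t, p + 1) = some B ∧ S.lb (t + 1, p) = some B ∧
      S.lb (t + 1, p + 1) = some A ∧ S.CrossLab t A B := by
  obtain ⟨⟨A, d⟩, ⟨B, d'⟩, k1, k2, k3, k4, k5, -⟩ := S.cross_spec h
  exact ⟨A, B, Lift.lb_of_pt k1, Lift.lb_of_pt k2, Lift.lb_of_pt k3, Lift.lb_of_pt k4,
    p, b, h, Lift.lb_of_pt k1, Lift.lb_of_pt k2⟩

lemma Lift.om_zero₁ {L L' : Λ} {F G : ℕ × ℕ → ZMod 2} (oF : S.Off L F) (oG : S.Off L' G) {t : ℕ}
    (h : ¬ S.Meet t L L') : D.om F G t = 0 := by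
  cases he : D.word[t]? with
  | none => simp [Diagram.om, he]
  | some e =>
    obtain ⟨p, g⟩ := e
    cases g with
    | cup d => simp [Diagram.om, he]
    | cap => simp [Diagram.om, he]
    | cross b =>
      obtain ⟨A, B, h1, h2, h3, h4, h5⟩ := Lift.cross_data (S := S) he
      have e1 : F (t, p) * G (t, p + 1) = 0 := by
        by_cases a : A = L
        · by_cases b : B = L'
          · subst a b
            exact absurd (Or.inl h5) h
          · rw [oG _ (by rw [h2]; simpa using b), mul_zero]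
        · rw [oF _ (by rw [h1]; simpa using a), zero_mul]
      have e2 : F (t + 1, p) * G (t + 1, p + 1) = 0 := by
        by_cases a : B = L
        · by_cases b : A = L'
          · subst a b
            exact absurd (Or.inr h5) h
          · rw [oG _ (by rw [h4]; simpa using b), mul_zero]
        · rw [oF _ (by rw [h3]; simpa using a), zero_mul]
      simp [Diagram.om, he, e1, e2]

lemma Lift.VanAt.left {L : Λ} {F : ℕ × ℕ → ZMod 2} {t p : ℕ} {b : Bool}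
    (h : S.VanAt L F t) (he : D.word[t]? = some ⟨p, .cross b⟩) (h1 : S.lb (t, p) = some L)
    (h2 : S.lb (t + 1, p + 1) = some L) : F (t, p) = 0 ∧ F (t + 1, p + 1) = 0 := by
  rcases S.cross_adj₂ he with ⟨h3, h4⟩ | ⟨h3, h4⟩
  · have := h _ h1 h4
    rw [h3] at this
    exact this
  · have := h _ h2 h4
    rw [h3] at this
    exact this.symm

lemma Lift.VanAt.right {L : Λ} {F : ℕ × ℕ → ZMod 2} {t p : ℕ} {b : Bool}
    (h : S.VanAt L F t) (he : D.word[t]? = some ⟨p, .cross b⟩) (h1 : S.lb (t, p + 1) = some L)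
    (h2 : S.lb (t + 1, p) = some L) : F (t, p + 1) = 0 ∧ F (t + 1, p) = 0 := by
  rcases S.cross_adj₃ he with ⟨h3, h4⟩ | ⟨h3, h4⟩
  · have := h _ h1 h4
    rw [h3] at this
    exact this
  · have := h _ h2 h4
    rw [h3] at this
    exact this.symm

/-- A function supported on `L` and vanishing near the crossing on `L` vanishes at all ends. -/
lemma Lift.VanAt.all {L : Λ} {F : ℕ × ℕ → ZMod 2} {t p : ℕ} {b : Bool}
    (h : S.VanAt L F t) (oF : S.Off L F) (he : D.word[t]? = some ⟨p, .cross b⟩) :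
    F (t, p) = 0 ∧ F (t, p + 1) = 0 ∧ F (t + 1, p) = 0 ∧ F (t + 1, p + 1) = 0 := by
  obtain ⟨A, B, h1, h2, h3, h4, h5⟩ := Lift.cross_data (S := S) he
  have a : F (t, p) = 0 ∧ F (t + 1, p + 1) = 0 := by
    by_cases a : A = L
    · subst a
      exact h.left he h1 h4
    · exact ⟨oF _ (by rw [h1]; simpa using a), oF _ (by rw [h4]; simpa using a)⟩
  have b : F (t, p + 1) = 0 ∧ F (t + 1, p) = 0 := by
    by_cases b : B = L
    · subst b
      exact h.right he h2 h3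
    · exact ⟨oF _ (by rw [h2]; simpa using b), oF _ (by rw [h3]; simpa using b)⟩
  exact ⟨a.1, b.1, b.2, a.2⟩

lemma Lift.VanAt.om_left {L : Λ} {F G : ℕ × ℕ → ZMod 2} {t : ℕ}
    (h : S.VanAt L F t) (oF : S.Off L F) : D.om F G t = 0 := by
  cases he : D.word[t]? with
  | none => simp [Diagram.om, he]
  | some e =>
    obtain ⟨p, g⟩ := e
    cases g with
    | cup d => simp [Diagram.om, he]
    | cap => simp [Diagram.om, he]
    | cross b =>
      obtain ⟨h1, h2, h3, h4⟩ := h.all oF he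
      simp [Diagram.om, he, h1, h3]

lemma Lift.VanAt.om_right {L : Λ} {F G : ℕ × ℕ → ZMod 2} {t : ℕ}
    (h : S.VanAt L G t) (oG : S.Off L G) : D.om F G t = 0 := by
  cases he : D.word[t]? with
  | none => simp [Diagram.om, he]
  | some e =>
    obtain ⟨p, g⟩ := e
    cases g with
    | cup d => simp [Diagram.om, he]
    | cap => simp [Diagram.om, he]
    | cross b =>
      obtain ⟨h1, h2, h3, h4⟩ := h.all oG he
      simp [Diagram.om, he, h2, h4]

lemma Lift.om_zero₂ {L L' : Λ} {F G : ℕ × ℕ → ZMod 2} (oF : S.Off L F) (oG : S.Off L' G) {t : ℕ}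
    (h : S.Meet t L L' → S.VanAt L F t) : D.om F G t = 0 := by
  by_cases hM : S.Meet t L L'
  · exact (h hM).om_left oF
  · exact Lift.om_zero₁ oF oG hM

lemma Lift.om_zero₃ {L L' : Λ} {F G : ℕ × ℕ → ZMod 2} (oF : S.Off L F) (oG : S.Off L' G) {t : ℕ}
    (h : S.Meet t L L' → S.VanAt L' G t) : D.om F G t = 0 := by
  by_cases hM : S.Meet t L L'
  · exact (h hM).om_right oG
  · exact Lift.om_zero₁ oF oG hM

/-- On one component, the local intersection number is symmetric. -/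
lemma Lift.om_symm [DecidableEq Λ] {L W₁ W₂ W₃ W₄ : Λ} {F G : ℕ × ℕ → ZMod 2}
    {t₁ t₂ t₃ t₄ : ℕ} (oF : S.Off L F)
    (oG : S.Off L G) (jF : S.Jf F (sgl L t₁ t₂)) (jG : S.Jf G (sgl L t₃ t₄))
    (m₁ : S.Meet t₁ L W₁) (m₂ : S.Meet t₂ L W₂) (m₃ : S.Meet t₃ L W₃) (m₄ : S.Meet t₄ L W₄)
    (n₁ : L ≠ W₁) (n₂ : L ≠ W₂) (n₃ : L ≠ W₃) (n₄ : L ≠ W₄) (t : ℕ) :
    D.om F G t = D.om G F t := by
  by_cases hM : S.Meet t L L
  · have hn : ∀ {t' W}, S.Meet t' L W → L ≠ W → t ≠ t' := by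
      rintro t' W m n rfl
      rcases m.unique hM with ⟨-, h⟩ | ⟨-, h⟩ <;> exact n h.symm
    have eF : sgl L t₁ t₂ L t = 0 := by simp [sgl, hn m₁ n₁, hn m₂ n₂]
    have eG : sgl L t₃ t₄ L t = 0 := by simp [sgl, hn m₃ n₃, hn m₄ n₄]
    have hM' : S.CrossLab t L L := by rcases hM with h | h <;> exact h
    obtain ⟨p, b, he, h1, h2⟩ := hM'
    obtain ⟨A, B, k1, k2, k3, k4, -⟩ := Lift.cross_data (S := S) he
    have hA : A = L := by rw [k1] at h1; exact Option.some.inj h1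
    have hB : B = L := by rw [k2] at h2; exact Option.some.inj h2
    subst hA
    rw [hB] at k2 k3
    have f1 := jF.adj k1 k4 (S.cross_adj₂ he)
    have f2 := jF.adj k2 k3 (S.cross_adj₃ he)
    have g1 := jG.adj k1 k4 (S.cross_adj₂ he)
    have g2 := jG.adj k2 k3 (S.cross_adj₃ he)
    rw [Option.elim_some, eF] at f1 f2
    rw [Option.elim_some, eG] at g1 g2
    simp only [Diagram.om, he]
    rw [← z2_eq_of_add f1, ← z2_eq_of_add f2, ← z2_eq_of_add g1, ← z2_eq_of_add g2]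
    ring
  · rw [Lift.om_zero₁ oF oG hM, Lift.om_zero₁ oG oF hM]

lemma sgl_add [DecidableEq Λ] (Y : Λ) {a b c : ℕ} (hab : a ≠ b) (hac : a ≠ c) (hbc : b ≠ c) :
    sgl Y a b + sgl Y a c = sgl Y c b := by
  funext l t
  simp only [sgl, Pi.add_apply]
  by_cases hl : l = Y
  · by_cases h1 : t = a
    · subst h1
      simp [hl, hab, hac]
      decide
    · by_cases h2 : t = b
      · subst h2
        simp [hl, h1, hbc]
      · by_cases h3 : t = c
        · subst h3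
          simp [hl, h1, h2]
        · simp [h1, h2, h3]
  · simp [hl]

/-- A closed path through four components gives a mod 2 cycle. -/
lemma Lift.four_cycle [DecidableEq Λ] {L₁ L₂ L₃ L₄ : Λ} {t₁₂ t₂₃ t₃₄ t₄₁ : ℕ}
    {F₁ F₂ F₃ F₄ : ℕ × ℕ → ZMod 2} (n12 : L₁ ≠ L₂) (n13 : L₁ ≠ L₃) (n14 : L₁ ≠ L₄) (n23 : L₂ ≠ L₃)
    (n24 : L₂ ≠ L₄) (n34 : L₃ ≠ L₄) (m12 : S.Meet t₁₂ L₁ L₂) (m23 : S.Meet t₂₃ L₂ L₃)
    (m34 : S.Meet t₃₄ L₃ L₄) (m41 : S.Meet t₄₁ L₄ L₁)
    (j1 : S.Jf F₁ (sgl L₁ t₄₁ t₁₂)) (j2 : S.Jf F₂ (sgl L₂ t₁₂ t₂₃))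
    (j3 : S.Jf F₃ (sgl L₃ t₂₃ t₃₄)) (j4 : S.Jf F₄ (sgl L₄ t₃₄ t₄₁)) :
    S.Cyc (F₁ + F₂ + F₃ + F₄) := by
  apply (((j1.add j2).add j3).add j4).cyc
  intro t a a' h
  have hM : S.Meet t a a' := Or.inl h
  simp only [Pi.add_apply, sgl]
  by_cases h1 : t = t₁₂
  · subst h1
    rcases hM.unique m12 with ⟨rfl, rfl⟩ | ⟨rfl, rfl⟩ <;>
      simp [n12, n13, n14, n23, n24, n12.symm]
  · by_cases h2 : t = t₂₃
    · subst h2
      rcases hM.unique m23 with ⟨rfl, rfl⟩ | ⟨rfl, rfl⟩ <;>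
        simp [n23, n24, n34, n12.symm, n13.symm, n23.symm]
    · by_cases h3 : t = t₃₄
      · subst h3
        rcases hM.unique m34 with ⟨rfl, rfl⟩ | ⟨rfl, rfl⟩ <;>
          simp [n34, n13.symm, n23.symm, n14.symm, n24.symm, n34.symm]
      · by_cases h4 : t = t₄₁
        · subst h4
          rcases hM.unique m41 with ⟨rfl, rfl⟩ | ⟨rfl, rfl⟩ <;>
            simp [n12, n13, n14, n14.symm, n24.symm, n34.symm]
        · simp [h1, h2, h3, h4]

lemma Lift.two_cycle [DecidableEq Λ] {L₁ L₂ : Λ} {t₁ t₂ : ℕ}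
    {F₁ F₂ : ℕ × ℕ → ZMod 2} (n12 : L₁ ≠ L₂) (m1 : S.Meet t₁ L₁ L₂) (m2 : S.Meet t₂ L₁ L₂)
    (j1 : S.Jf F₁ (sgl L₁ t₁ t₂)) (j2 : S.Jf F₂ (sgl L₂ t₁ t₂)) :
    S.Cyc (F₁ + F₂) := by
  apply (j1.add j2).cyc
  intro t a a' h
  have hM : S.Meet t a a' := Or.inl h
  simp only [Pi.add_apply, sgl]
  by_cases h1 : t = t₁
  · subst h1
    rcases hM.unique m1 with ⟨rfl, rfl⟩ | ⟨rfl, rfl⟩ <;> simp [n12, n12.symm]
  · by_cases h2 : t = t₂
    · subst h2
      rcases hM.unique m2 with ⟨rfl, rfl⟩ | ⟨rfl, rfl⟩ <;> simp [n12, n12.symm]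
    · simp [h1, h2]

lemma Lift.Off.mul {L L' : Λ} {F G : ℕ × ℕ → ZMod 2} (oF : S.Off L F) (oG : S.Off L' G)
    (h : L ≠ L') (x : ℕ × ℕ) : F x * G x = 0 := by
  by_cases hx : S.lb x = some L
  · rw [oG x (by rw [hx]; simpa using h), mul_zero]
  · rw [oF x hx, zero_mul]

lemma z2_both {a a' b b' : ZMod 2} (h1 : a + a' = 1) (h2 : b + b' = 1) (h3 : a * b = 0)
    (h4 : a' * b' = 0) : a + b = 1 ∧ a' + b' = 1 := by
  revert h1 h2 h3 h4
  revert a a' b b'
  decide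

/-- Three disjoint curves `c i` and three disjoint curves `p j`, with `c i` and `p j` crossing
exactly twice, and no curve of a family separating the other two. -/
structure Lift.K33 (S : Lift D Λ) (c p : Fin 3 → Λ) : Prop where
  cinj : Function.Injective c
  pinj : Function.Injective p
  ne : ∀ i j, c i ≠ p j
  cc : ∀ i j, i ≠ j → ∀ t, ¬ S.Meet t (c i) (c j)
  pp : ∀ i j, i ≠ j → ∀ t, ¬ S.Meet t (p i) (p j)
  ccon : ∀ i, S.Conn (c i)
  pcon : ∀ i, S.Conn (p i)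
  cp : ∀ i j, ∃ t₁ t₂, t₁ ≠ t₂ ∧ ∀ t, S.Meet t (c i) (p j) ↔ t = t₁ ∨ t = t₂
  cside : ∀ l, ∃ σ, ∀ i, i ≠ l → ∀ x, S.lb x = some (c i) → S.side (c l) x + σ = 0
  pside : ∀ l, ∃ σ, ∀ i, i ≠ l → ∀ x, S.lb x = some (p i) → S.side (p l) x + σ = 0

lemma Lift.K33.symm {c p : Fin 3 → Λ} (K : S.K33 c p) : S.K33 p c where
  cinj := K.pinj
  pinj := K.cinj
  ne i j := (K.ne j i).symm
  cc := K.pp
  pp := K.cc
  ccon := K.pcon
  pcon := K.ccon
  cp i j := by
    obtain ⟨t₁, t₂, h, h'⟩ := K.cp j i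
    exact ⟨t₁, t₂, h, fun t => by rw [Lift.meet_comm, h' t]⟩
  cside := K.pside
  pside := K.cside

lemma Lift.K33.perm {c p : Fin 3 → Λ} (K : S.K33 c p) (π : Fin 3 → Fin 3)
    (hπ : Function.Injective π) : S.K33 (c ∘ π) p where
  cinj := K.cinj.comp hπ
  pinj := K.pinj
  ne i j := K.ne (π i) j
  cc i j h := K.cc (π i) (π j) (fun h' => h (hπ h'))
  pp := K.pp
  ccon i := K.ccon (π i)
  pcon := K.pcon
  cp i j := K.cp (π i) j
  cside l := by
    obtain ⟨σ, h⟩ := K.cside (π l)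
    exact ⟨σ, fun i hi => h (π i) (fun h' => hi (hπ h'))⟩
  pside := K.pside

lemma Lift.K33.side_at {c p : Fin 3 → Λ} (K : S.K33 c p) (l : Fin 3) : ∃ σ, ∀ i j, j ≠ l →
    ∀ x t, S.lb x = some (c i) → D.cr x = some t → S.Meet t (c i) (p j) →
      S.side (p l) x + σ = 0 := by
  obtain ⟨σ, h⟩ := K.pside l
  refine ⟨σ, ?_⟩
  intro i j hj x t hx cx hM
  obtain ⟨s, hs, cs, -⟩ := hM.symm.start (K.ne i j).symm
  rw [hM.side_eq (K.ne i l) (fun h' => hj (K.pinj h')) (Lift.valid_of_lb hx)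
    (Lift.valid_of_lb hs) cx cs]
  exact h j hj s hs

lemma Lift.K33.arcs [DecidableEq Λ] {c p : Fin 3 → Λ} (K : S.K33 c p) :
    ∃ a₁ a₂ q₁ q₂ α₁ α₂ ι, S.ArcData (c 0) (p 0) (p 1) (p 2) a₁ a₂ q₁ q₂ α₁ α₂ ι := by
  obtain ⟨σ₀, h₀⟩ := K.side_at 0
  obtain ⟨σ₁, h₁⟩ := K.side_at 1
  obtain ⟨σ₂, h₂⟩ := K.side_at 2
  refine Lift.arcs (K.ccon 0) (K.ne 0 0) (K.ne 0 1) (K.ne 0 2)
    (fun h => absurd (K.pinj h) (by decide)) (fun h => absurd (K.pinj h) (by decide))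
    (K.cp 0 0) (K.cp 0 1) (K.cp 0 2) σ₀ σ₁ σ₂ ?_ ?_ ?_ ?_ ?_ ?_
  · exact fun x t hx cx hM => h₀ 0 1 (by decide) x t hx cx hM
  · exact fun x t hx cx hM => h₀ 0 2 (by decide) x t hx cx hM
  · exact fun x t hx cx hM => h₁ 0 0 (by decide) x t hx cx hM
  · exact fun x t hx cx hM => h₁ 0 2 (by decide) x t hx cx hM
  · exact fun x t hx cx hM => h₂ 0 0 (by decide) x t hx cx hM
  · exact fun x t hx cx hM => h₂ 0 1 (by decide) x t hx cx hM

/-- Chain on `c i` from a crossing with `p j` to a crossing with `p j'`, avoiding `p l`. -/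
lemma Lift.K33.avoid [DecidableEq Λ] {c p : Fin 3 → Λ} (K : S.K33 c p) (i j j' l : Fin 3)
    (hj : j ≠ l) (hj' : j' ≠ l) (hjj' : j ≠ j') {a b : ℕ} (ha : S.Meet a (c i) (p j))
    (hb : S.Meet b (c i) (p j')) :
    ∃ F, S.Jf F (sgl (c i) a b) ∧ S.Off (c i) F ∧
      ∀ t, S.Meet t (c i) (p l) → S.VanAt (c i) F t := by
  obtain ⟨σ, h⟩ := K.side_at l
  obtain ⟨F, h1, h2, h3⟩ := Lift.avoid (K.ccon i) (K.ne i l) (K.cp i l) σ ha (K.ne i j)
    (fun h' => hj (K.pinj h')) hb (K.ne i j') (fun h' => hj' (K.pinj h'))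
    (hb.ne_of_meet ha (K.ne i j') (fun h' => hjj' (K.pinj h'))).symm
    (fun x hx cx => h i j hj x a hx cx ha) (fun x hx cx => h i j' hj' x b hx cx hb)
  exact ⟨F, h1, h2, fun t hM x hx cx => h3 x t hx cx hM⟩

lemma ends_left {t p : ℕ} {b : Bool} {L : Λ} (he : D.word[t]? = some ⟨p, .cross b⟩)
    (h1 : S.lb (t, p) = some L) (h2 : S.lb (t + 1, p + 1) = some L)
    (Q : ℕ × ℕ → ℕ × ℕ → Prop)
    (hQ : ∀ x, S.lb x = some L → D.cr x = some t → Q x (D.next x) ∧ Q (D.next x) x) :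
    Q (t, p) (t + 1, p + 1) := by
  rcases S.cross_adj₂ he with ⟨h3, h4⟩ | ⟨h3, h4⟩
  · have := (hQ _ h1 h4).1
    rwa [h3] at this
  · have := (hQ _ h2 h4).2
    rwa [h3] at this

lemma ends_right {t p : ℕ} {b : Bool} {L : Λ} (he : D.word[t]? = some ⟨p, .cross b⟩)
    (h1 : S.lb (t, p + 1) = some L) (h2 : S.lb (t + 1, p) = some L)
    (Q : ℕ × ℕ → ℕ × ℕ → Prop)
    (hQ : ∀ x, S.lb x = some L → D.cr x = some t → Q x (D.next x) ∧ Q (D.next x) x) :
    Q (t, p + 1) (t + 1, p) := by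
  rcases S.cross_adj₃ he with ⟨h3, h4⟩ | ⟨h3, h4⟩
  · have := (hQ _ h1 h4).1
    rwa [h3] at this
  · have := (hQ _ h2 h4).2
    rwa [h3] at this

/-- `F` equals `1` near the crossing `t` on the strand labelled `L`. -/
def Lift.OneAt (S : Lift D Λ) (L : Λ) (F : ℕ × ℕ → ZMod 2) (t : ℕ) : Prop :=
  ∀ x, S.lb x = some L → D.cr x = some t → F x = 1 ∧ F (D.next x) = 1

lemma Lift.om_one {L L' : Λ} (hne : L ≠ L') {F G : ℕ × ℕ → ZMod 2} (oF : S.Off L F)
    (oG : S.Off L' G) {t : ℕ} (hM : S.Meet t L L') (hF : S.OneAt L F t) (hG : S.OneAt L' G t) :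
    D.om F G t = 1 := by
  rcases hM with hM | hM
  · obtain ⟨p, b, he, -, -⟩ := id hM
    obtain ⟨A, B, h1, h2, h3, h4, h5⟩ := Lift.cross_data (S := S) he
    obtain ⟨rfl, rfl⟩ := h5.unique hM
    have f := ends_left he h1 h4 (fun x y => F x = 1 ∧ F y = 1)
      (fun x hx cx => ⟨hF x hx cx, (hF x hx cx).symm⟩)
    have g := ends_right he h2 h3 (fun x y => G x = 1 ∧ G y = 1)
      (fun x hx cx => ⟨hG x hx cx, (hG x hx cx).symm⟩)
    simp only [Diagram.om, he]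
    rw [f.1, g.1, oF (t + 1, p) (by rw [h3]; simpa using hne.symm)]
    simp
  · obtain ⟨p, b, he, -, -⟩ := id hM
    obtain ⟨A, B, h1, h2, h3, h4, h5⟩ := Lift.cross_data (S := S) he
    obtain ⟨rfl, rfl⟩ := h5.unique hM
    have f := ends_right he h2 h3 (fun x y => F x = 1 ∧ F y = 1)
      (fun x hx cx => ⟨hF x hx cx, (hF x hx cx).symm⟩)
    have g := ends_left he h1 h4 (fun x y => G x = 1 ∧ G y = 1)
      (fun x hx cx => ⟨hG x hx cx, (hG x hx cx).symm⟩)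
    simp only [Diagram.om, he]
    rw [f.2, g.2, oF (t, p) (by rw [h1]; simpa using hne.symm)]
    simp

lemma Lift.om_touch {L L' : Λ} (hne : L ≠ L') {F G W : ℕ × ℕ → ZMod 2} (oF : S.Off L F)
    (oG : S.Off L G) (oW : S.Off L' W) {t : ℕ} (hM : S.Meet t L L') (hW : S.OneAt L' W t)
    (hFG : ∀ x, S.lb x = some L → D.cr x = some t →
      F x + G (D.next x) = 0 ∧ F (D.next x) + G x = 0) :
    D.om F W t + D.om W G t = 0 := by
  rcases hM with hM | hM
  · obtain ⟨p, b, he, -, -⟩ := id hM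
    obtain ⟨A, B, h1, h2, h3, h4, h5⟩ := Lift.cross_data (S := S) he
    obtain ⟨rfl, rfl⟩ := h5.unique hM
    have f := ends_left he h1 h4 (fun x y => F x + G y = 0)
      (fun x hx cx => ⟨(hFG x hx cx).1, (hFG x hx cx).2⟩)
    have g := ends_right he h2 h3 (fun x y => W x = 1 ∧ W y = 1)
      (fun x hx cx => ⟨hW x hx cx, (hW x hx cx).symm⟩)
    simp only [Diagram.om, he]
    rw [g.1, g.2, oF (t + 1, p) (by rw [h3]; simpa using hne.symm),
      oW (t, p) (by rw [h1]; simpa using hne)]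
    simpa using f
  · obtain ⟨p, b, he, -, -⟩ := id hM
    obtain ⟨A, B, h1, h2, h3, h4, h5⟩ := Lift.cross_data (S := S) he
    obtain ⟨rfl, rfl⟩ := h5.unique hM
    have f := ends_right he h2 h3 (fun x y => F y + G x = 0)
      (fun x hx cx => ⟨(hFG x hx cx).2, (hFG x hx cx).1⟩)
    have g := ends_left he h1 h4 (fun x y => W x = 1 ∧ W y = 1)
      (fun x hx cx => ⟨hW x hx cx, (hW x hx cx).symm⟩)
    simp only [Diagram.om, he]
    rw [g.1, g.2, oF (t, p) (by rw [h1]; simpa using hne.symm),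
      oW (t + 1, p) (by rw [h3]; simpa using hne)]
    simpa using f

/-- Two disjoint chains that both jump at a crossing on the same strand. -/
lemma Lift.jump_pair {F G : ℕ × ℕ → ZMod 2} {e e' : Λ → ℕ → ZMod 2} (jF : S.Jf F e)
    (jG : S.Jf G e') (hd : ∀ x, F x * G x = 0) {L : Λ} {t : ℕ} (h1 : e L t = 1) (h2 : e' L t = 1)
    (x : ℕ × ℕ) (hx : S.lb x = some L) (cx : D.cr x = some t) :
    (F x + G x = 1 ∧ F (D.next x) + G (D.next x) = 1) ∧
      (F x + G (D.next x) = 0 ∧ F (D.next x) + G x = 0) := by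
  have f := jF.next x L hx
  have g := jG.next x L hx
  rw [cx, Option.elim_some] at f g
  rw [h1] at f
  rw [h2] at g
  have d1 := hd x
  have d2 := hd (D.next x)
  revert f g d1 d2
  generalize F x = a
  generalize G x = b
  generalize F (D.next x) = a'
  generalize G (D.next x) = b'
  revert a b a' b'
  decide

set_option maxHeartbeats 4000000 in
theorem Lift.K33.false_aligned [DecidableEq Λ] {c p : Fin 3 → Λ} (K : S.K33 c p)
    {a₁ a₂ f g h k : ℕ} {α₁ α₂ ιC β₁ β₂ ιP : ℕ × ℕ → ZMod 2}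
    (A : S.ArcData (c 0) (p 0) (p 1) (p 2) a₁ a₂ f g α₁ α₂ ιC)
    (B : S.ArcData (p 0) (c 0) (c 1) (c 2) a₁ a₂ h k β₁ β₂ ιP) : False := by
  have c01 : c 0 ≠ c 1 := fun h => absurd (K.cinj h) (by decide)
  have c02 : c 0 ≠ c 2 := fun h => absurd (K.cinj h) (by decide)
  have c12 : c 1 ≠ c 2 := fun h => absurd (K.cinj h) (by decide)
  have p01 : p 0 ≠ p 1 := fun h => absurd (K.pinj h) (by decide)
  have p02 : p 0 ≠ p 2 := fun h => absurd (K.pinj h) (by decide)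
  have p12 : p 1 ≠ p 2 := fun h => absurd (K.pinj h) (by decide)
  -- crossings
  obtain ⟨e11, _, -, m11⟩ := K.cp 1 1
  replace m11 := (m11 e11).2 (Or.inl rfl)
  obtain ⟨e21, _, -, m21⟩ := K.cp 2 1
  replace m21 := (m21 e21).2 (Or.inl rfl)
  obtain ⟨e12, _, -, m12⟩ := K.cp 1 2
  replace m12 := (m12 e12).2 (Or.inl rfl)
  obtain ⟨e22, _, -, m22⟩ := K.cp 2 2
  replace m22 := (m22 e22).2 (Or.inl rfl)
  have mf := A.m1
  have mg := A.m2
  have mh := B.m1
  have mk := B.m2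
  have ma1 : S.Meet a₁ (c 0) (p 0) := (A.m0 a₁).2 (Or.inl rfl)
  have ma2 : S.Meet a₂ (c 0) (p 0) := (A.m0 a₂).2 (Or.inr rfl)
  -- chains
  obtain ⟨π11, jπ11, oπ11⟩ := Lift.chain_exists (K.pcon 1) mf.symm (K.ne 0 1).symm m11.symm
    (K.ne 1 1).symm (mf.symm.ne_of_meet m11.symm (K.ne 0 1).symm c01.symm)
  obtain ⟨π12, jπ12, oπ12⟩ := Lift.chain_exists (K.pcon 1) mf.symm (K.ne 0 1).symm m21.symm
    (K.ne 2 1).symm (mf.symm.ne_of_meet m21.symm (K.ne 0 1).symm c02.symm)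
  obtain ⟨π21, jπ21, oπ21⟩ := Lift.chain_exists (K.pcon 2) mg.symm (K.ne 0 2).symm m12.symm
    (K.ne 1 2).symm (mg.symm.ne_of_meet m12.symm (K.ne 0 2).symm c01.symm)
  obtain ⟨π22, jπ22, oπ22⟩ := Lift.chain_exists (K.pcon 2) mg.symm (K.ne 0 2).symm m22.symm
    (K.ne 2 2).symm (mg.symm.ne_of_meet m22.symm (K.ne 0 2).symm c02.symm)
  obtain ⟨χ11, jχ11, oχ11, vχ11⟩ := K.avoid 1 1 0 2 (by decide) (by decide) (by decide) m11 mh.symm
  obtain ⟨χ12, jχ12, oχ12, vχ12⟩ := K.avoid 1 2 0 1 (by decide) (by decide) (by decide) m12 mh.symm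
  obtain ⟨χ22, jχ22, oχ22, vχ22⟩ := K.avoid 2 2 0 1 (by decide) (by decide) (by decide) m22 mk.symm
  obtain ⟨χ21, jχ21, oχ21, vχ21⟩ := K.avoid 2 1 0 2 (by decide) (by decide) (by decide) m21 mk.symm
  -- combined arcs
  have hfa1 : f ≠ a₁ := mf.ne_of_meet ma1 (K.ne 0 1) p01
  have hfa2 : f ≠ a₂ := mf.ne_of_meet ma2 (K.ne 0 1) p01
  have hha1 : h ≠ a₁ := mh.ne_of_meet ma1.symm (K.ne 1 0).symm c01
  have hha2 : h ≠ a₂ := mh.ne_of_meet ma2.symm (K.ne 1 0).symm c01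
  have jC : S.Jf (α₁ + ιC) (sgl (c 0) a₂ f) := by
    have := A.j1.add A.j0
    rwa [sgl_add _ hfa1.symm A.ne hfa2] at this
  have jP : S.Jf (β₁ + ιP) (sgl (p 0) h a₂) := by
    have := B.j1.add B.j0
    rwa [sgl_add _ hha1.symm B.ne hha2, sgl_comm] at this
  -- cycles
  have cx : S.Cyc (α₁ + π11 + χ11 + β₁) :=
    Lift.four_cycle (K.ne 0 1) c01 (K.ne 0 0) (K.ne 1 1).symm p01.symm (K.ne 1 0) mf m11.symm
      mh.symm ma1.symm A.j1 jπ11 jχ11 (by rw [sgl_comm]; exact B.j1)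
  have cy : S.Cyc (α₂ + π22 + χ22 + β₂) :=
    Lift.four_cycle (K.ne 0 2) c02 (K.ne 0 0) (K.ne 2 2).symm p02.symm (K.ne 2 0) mg m22.symm
      mk.symm ma2.symm A.j2 jπ22 jχ22 (by rw [sgl_comm]; exact B.j2)
  have cx' : S.Cyc (α₁ + ιC + π12 + χ21 + β₂) :=
    Lift.four_cycle (K.ne 0 1) c02 (K.ne 0 0) (K.ne 2 1).symm p01.symm (K.ne 2 0) mf m21.symm
      mk.symm ma2.symm jC jπ12 jχ21 (by rw [sgl_comm]; exact B.j2)
  have cy' : S.Cyc (α₂ + π21 + χ12 + (β₁ + ιP)) :=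
    Lift.four_cycle (K.ne 0 2) c01 (K.ne 0 0) (K.ne 1 2).symm p02.symm (K.ne 1 0) mg m12.symm
      mh.symm ma2.symm A.j2 jπ21 jχ12 jP
  have cz : S.Cyc (ιC + ιP) := Lift.two_cycle (K.ne 0 0) ma1 ma2 A.j0 B.j0
  have ev1 := S.even_crossings cx cy (by
    intro x
    have q1 := A.d12 x
    have q2 := B.d12 x
    have q3 := Lift.Off.mul A.o1 oπ22 (K.ne 0 2) x
    have q4 := Lift.Off.mul A.o1 oχ22 c02 x
    have q5 := Lift.Off.mul A.o1 B.o2 (K.ne 0 0) x
    have q6 := Lift.Off.mul oπ11 A.o2 (K.ne 0 1).symm x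
    have q7 := Lift.Off.mul oπ11 oπ22 p12 x
    have q8 := Lift.Off.mul oπ11 oχ22 (K.ne 2 1).symm x
    have q9 := Lift.Off.mul oπ11 B.o2 p01.symm x
    have q10 := Lift.Off.mul oχ11 A.o2 c01.symm x
    have q11 := Lift.Off.mul oχ11 oπ22 (K.ne 1 2) x
    have q12 := Lift.Off.mul oχ11 oχ22 c12 x
    have q13 := Lift.Off.mul oχ11 B.o2 (K.ne 1 0) x
    have q14 := Lift.Off.mul B.o1 A.o2 (K.ne 0 0).symm x
    have q15 := Lift.Off.mul B.o1 oπ22 p02 x
    have q16 := Lift.Off.mul B.o1 oχ22 (K.ne 2 0).symm x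
    simp only [Pi.add_apply]
    linear_combination q1 + q2 + q3 + q4 + q5 + q6 + q7 + q8 + q9 + q10 + q11 + q12 + q13 + q14 +
      q15 + q16)
  have ev2 := S.even_crossings cx' cy' (by
    intro x
    have q1 := A.d12 x
    have q1' : ιC x * α₂ x = 0 := by rw [mul_comm]; exact A.d20 x
    have q2 : β₂ x * β₁ x = 0 := by rw [mul_comm]; exact B.d12 x
    have q2' := B.d20 x
    have q3 := Lift.Off.mul A.o1 oπ21 (K.ne 0 2) x
    have q3' := Lift.Off.mul A.o0 oπ21 (K.ne 0 2) x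
    have q4 := Lift.Off.mul A.o1 oχ12 c01 x
    have q4' := Lift.Off.mul A.o0 oχ12 c01 x
    have q5 := Lift.Off.mul A.o1 B.o1 (K.ne 0 0) x
    have q5' := Lift.Off.mul A.o1 B.o0 (K.ne 0 0) x
    have q5'' := Lift.Off.mul A.o0 B.o1 (K.ne 0 0) x
    have q5''' := Lift.Off.mul A.o0 B.o0 (K.ne 0 0) x
    have q6 := Lift.Off.mul oπ12 A.o2 (K.ne 0 1).symm x
    have q7 := Lift.Off.mul oπ12 oπ21 p12 x
    have q8 := Lift.Off.mul oπ12 oχ12 (K.ne 1 1).symm x
    have q9 := Lift.Off.mul oπ12 B.o1 p01.symm x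
    have q9' := Lift.Off.mul oπ12 B.o0 p01.symm x
    have q10 := Lift.Off.mul oχ21 A.o2 c02.symm x
    have q11 := Lift.Off.mul oχ21 oπ21 (K.ne 2 2) x
    have q12 := Lift.Off.mul oχ21 oχ12 c12.symm x
    have q13 := Lift.Off.mul oχ21 B.o1 (K.ne 2 0) x
    have q13' := Lift.Off.mul oχ21 B.o0 (K.ne 2 0) x
    have q14 := Lift.Off.mul B.o2 A.o2 (K.ne 0 0).symm x
    have q15 := Lift.Off.mul B.o2 oπ21 p02 x
    have q16 := Lift.Off.mul B.o2 oχ12 (K.ne 1 0).symm x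
    simp only [Pi.add_apply]
    linear_combination q1 + q2 + q3 + q4 + q5 + q6 + q7 + q8 + q9 + q10 + q11 + q12 + q13 + q14 +
      q15 + q16 + q1' + q2' + q3' + q4' + q5' + q5'' + q5''' + q9' + q13')
  have ev3 := S.even_crossings cz cy (by
    intro x
    have q1 : ιC x * α₂ x = 0 := by rw [mul_comm]; exact A.d20 x
    have q2 : ιP x * β₂ x = 0 := by rw [mul_comm]; exact B.d20 x
    have q3 := Lift.Off.mul A.o0 oπ22 (K.ne 0 2) x
    have q4 := Lift.Off.mul A.o0 oχ22 c02 x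
    have q5 := Lift.Off.mul A.o0 B.o2 (K.ne 0 0) x
    have q6 := Lift.Off.mul B.o0 A.o2 (K.ne 0 0).symm x
    have q7 := Lift.Off.mul B.o0 oπ22 p02 x
    have q8 := Lift.Off.mul B.o0 oχ22 (K.ne 2 0).symm x
    simp only [Pi.add_apply]
    linear_combination q1 + q2 + q3 + q4 + q5 + q6 + q7 + q8)
  -- local contributions
  have key : ∀ t, D.om (α₁ + π11 + χ11 + β₁) (α₂ + π22 + χ22 + β₂) t +
      D.om (α₁ + ιC + π12 + χ21 + β₂) (α₂ + π21 + χ12 + (β₁ + ιP)) t +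
      D.om (ιC + ιP) (α₂ + π22 + χ22 + β₂) t = if t = a₁ then 1 else 0 := by
    intro t
    have z1 : D.om α₁ π22 t = 0 :=
      Lift.om_zero₂ A.o1 oπ22 (fun hM x hx cx => A.v1 x t hx cx (Or.inl hM))
    have z2 : D.om α₁ χ22 t = 0 := Lift.om_zero₁ A.o1 oχ22 (K.cc 0 2 (by decide) t)
    have z3 : D.om α₁ β₂ t = 0 := by
      by_cases hM : S.Meet t (c 0) (p 0)
      · rcases (A.m0 t).1 hM with ht | ht
        · exact Lift.VanAt.om_right (fun x hx cx => B.v2 x t hx cx (Or.inr ht)) B.o2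
        · exact Lift.VanAt.om_left (fun x hx cx => A.v1 x t hx cx (Or.inr ht)) A.o1
      · exact Lift.om_zero₁ A.o1 B.o2 hM
    have z4 : D.om π11 α₂ t = 0 :=
      Lift.om_zero₃ oπ11 A.o2 (fun hM x hx cx => A.v2 x t hx cx (Or.inl hM.symm))
    have z5 : D.om π11 π22 t = 0 := Lift.om_zero₁ oπ11 oπ22 (K.pp 1 2 (by decide) t)
    have z6 : D.om π11 χ22 t = 0 := Lift.om_zero₃ oπ11 oχ22 (fun hM => vχ22 t hM.symm)
    have z7 : D.om π11 β₂ t = 0 := Lift.om_zero₁ oπ11 B.o2 (K.pp 1 0 (by decide) t)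
    have z8 : D.om χ11 α₂ t = 0 := Lift.om_zero₁ oχ11 A.o2 (K.cc 1 0 (by decide) t)
    have z9 : D.om χ11 π22 t = 0 := Lift.om_zero₂ oχ11 oπ22 (fun hM => vχ11 t hM)
    have z10 : D.om χ11 χ22 t = 0 := Lift.om_zero₁ oχ11 oχ22 (K.cc 1 2 (by decide) t)
    have z11 : D.om χ11 β₂ t = 0 :=
      Lift.om_zero₃ oχ11 B.o2 (fun hM x hx cx => B.v2 x t hx cx (Or.inl hM.symm))
    have z12 : D.om β₁ α₂ t = 0 := by
      by_cases hM : S.Meet t (c 0) (p 0)
      · rcases (A.m0 t).1 hM with ht | ht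
        · exact Lift.VanAt.om_right (fun x hx cx => A.v2 x t hx cx (Or.inr ht)) A.o2
        · exact Lift.VanAt.om_left (fun x hx cx => B.v1 x t hx cx (Or.inr ht)) B.o1
      · exact Lift.om_zero₁ B.o1 A.o2 (fun h' => hM h'.symm)
    have z13 : D.om β₁ π22 t = 0 := Lift.om_zero₁ B.o1 oπ22 (K.pp 0 2 (by decide) t)
    have z14 : D.om β₁ χ22 t = 0 :=
      Lift.om_zero₂ B.o1 oχ22 (fun hM x hx cx => B.v1 x t hx cx (Or.inl hM))
    have z15 : D.om α₁ π21 t = 0 :=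
      Lift.om_zero₂ A.o1 oπ21 (fun hM x hx cx => A.v1 x t hx cx (Or.inl hM))
    have z16 : D.om α₁ χ12 t = 0 := Lift.om_zero₁ A.o1 oχ12 (K.cc 0 1 (by decide) t)
    have z17 : D.om ιC π21 t = 0 :=
      Lift.om_zero₂ A.o0 oπ21 (fun hM x hx cx => A.v0 x t hx cx (Or.inr hM))
    have z18 : D.om ιC χ12 t = 0 := Lift.om_zero₁ A.o0 oχ12 (K.cc 0 1 (by decide) t)
    have z19 : D.om π12 α₂ t = 0 :=
      Lift.om_zero₃ oπ12 A.o2 (fun hM x hx cx => A.v2 x t hx cx (Or.inl hM.symm))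
    have z20 : D.om π12 π21 t = 0 := Lift.om_zero₁ oπ12 oπ21 (K.pp 1 2 (by decide) t)
    have z21 : D.om π12 χ12 t = 0 := Lift.om_zero₃ oπ12 oχ12 (fun hM => vχ12 t hM.symm)
    have z22 : D.om π12 β₁ t = 0 := Lift.om_zero₁ oπ12 B.o1 (K.pp 1 0 (by decide) t)
    have z23 : D.om π12 ιP t = 0 := Lift.om_zero₁ oπ12 B.o0 (K.pp 1 0 (by decide) t)
    have z24 : D.om χ21 α₂ t = 0 := Lift.om_zero₁ oχ21 A.o2 (K.cc 2 0 (by decide) t)
    have z25 : D.om χ21 π21 t = 0 := Lift.om_zero₂ oχ21 oπ21 (fun hM => vχ21 t hM)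
    have z26 : D.om χ21 χ12 t = 0 := Lift.om_zero₁ oχ21 oχ12 (K.cc 2 1 (by decide) t)
    have z27 : D.om χ21 β₁ t = 0 :=
      Lift.om_zero₃ oχ21 B.o1 (fun hM x hx cx => B.v1 x t hx cx (Or.inl hM.symm))
    have z28 : D.om χ21 ιP t = 0 :=
      Lift.om_zero₃ oχ21 B.o0 (fun hM x hx cx => B.v0 x t hx cx (Or.inr hM.symm))
    have z29 : D.om β₂ π21 t = 0 := Lift.om_zero₁ B.o2 oπ21 (K.pp 0 2 (by decide) t)
    have z30 : D.om β₂ χ12 t = 0 :=
      Lift.om_zero₂ B.o2 oχ12 (fun hM x hx cx => B.v2 x t hx cx (Or.inl hM))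
    have z31 : D.om ιC π22 t = 0 :=
      Lift.om_zero₂ A.o0 oπ22 (fun hM x hx cx => A.v0 x t hx cx (Or.inr hM))
    have z32 : D.om ιC χ22 t = 0 := Lift.om_zero₁ A.o0 oχ22 (K.cc 0 2 (by decide) t)
    have z33 : D.om ιP π22 t = 0 := Lift.om_zero₁ B.o0 oπ22 (K.pp 0 2 (by decide) t)
    have z34 : D.om ιP χ22 t = 0 :=
      Lift.om_zero₂ B.o0 oχ22 (fun hM x hx cx => B.v0 x t hx cx (Or.inr hM))
    have s1 : D.om β₂ β₁ t = D.om β₁ β₂ t :=
      Lift.om_symm B.o2 B.o1 B.j2 B.j1 ma2.symm mk ma1.symm mh (K.ne 0 0).symm (K.ne 2 0).symm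
        (K.ne 0 0).symm (K.ne 1 0).symm t
    have s2 : D.om β₂ ιP t = D.om ιP β₂ t :=
      Lift.om_symm B.o2 B.o0 B.j2 B.j0 ma2.symm mk ma1.symm ma2.symm (K.ne 0 0).symm
        (K.ne 2 0).symm (K.ne 0 0).symm (K.ne 0 0).symm t
    have hR : D.om α₁ β₁ t + D.om α₁ ιP t + D.om ιC β₁ t + D.om ιC ιP t + D.om β₂ α₂ t +
        D.om ιC β₂ t + D.om ιP α₂ t = if t = a₁ then 1 else 0 := by
      by_cases h1 : t = a₁
      · subst h1
        have r1 : D.om β₂ α₂ t = 0 :=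
          Lift.VanAt.om_left (fun x hx cx => B.v2 x t hx cx (Or.inr rfl)) B.o2
        have r2 : D.om ιC β₂ t = 0 :=
          Lift.VanAt.om_right (fun x hx cx => B.v2 x t hx cx (Or.inr rfl)) B.o2
        have r3 : D.om ιP α₂ t = 0 :=
          Lift.VanAt.om_right (fun x hx cx => A.v2 x t hx cx (Or.inr rfl)) A.o2
        have r4 : D.om (α₁ + ιC) (β₁ + ιP) t = 1 := by
          apply Lift.om_one (K.ne 0 0) (L := c 0) (L' := p 0) _ _ ma1
          · intro x hx cx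
            exact (Lift.jump_pair A.j1 A.j0 A.d10 (by simp [sgl]) (by simp [sgl]) x hx cx).1
          · intro x hx cx
            exact (Lift.jump_pair B.j1 B.j0 B.d10 (by simp [sgl]) (by simp [sgl]) x hx cx).1
          · intro x hx
            rw [Pi.add_apply, A.o1 x hx, A.o0 x hx, add_zero]
          · intro x hx
            rw [Pi.add_apply, B.o1 x hx, B.o0 x hx, add_zero]
        rw [om_add_left, om_add_right, om_add_right] at r4
        rw [if_pos rfl, r1, r2, r3]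
        linear_combination r4
      · rw [if_neg h1]
        by_cases h2 : t = a₂
        · subst h2
          have r1 : D.om α₁ β₁ t = 0 :=
            Lift.VanAt.om_left (fun x hx cx => A.v1 x t hx cx (Or.inr rfl)) A.o1
          have r2 : D.om α₁ ιP t = 0 :=
            Lift.VanAt.om_left (fun x hx cx => A.v1 x t hx cx (Or.inr rfl)) A.o1
          have r3 : D.om ιC β₁ t = 0 :=
            Lift.VanAt.om_right (fun x hx cx => B.v1 x t hx cx (Or.inr rfl)) B.o1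
          have r4 : D.om ιC (β₂ + ιP) t + D.om (β₂ + ιP) α₂ t = 0 := by
            apply Lift.om_touch (K.ne 0 0) (L := c 0) (L' := p 0) A.o0 A.o2 _ ma2
            · intro x hx cx
              exact (Lift.jump_pair B.j2 B.j0 B.d20 (by simp [sgl]) (by simp [sgl]) x hx cx).1
            · intro x hx cx
              have := (Lift.jump_pair A.j2 A.j0 A.d20 (by simp [sgl]) (by simp [sgl]) x hx cx).2
              exact ⟨by rw [add_comm]; exact this.2, by rw [add_comm]; exact this.1⟩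
            · intro x hx
              rw [Pi.add_apply, B.o2 x hx, B.o0 x hx, add_zero]
          rw [om_add_left, om_add_right] at r4
          rw [r1, r2, r3]
          linear_combination r4
        · have hM : ¬ S.Meet t (c 0) (p 0) := by
            intro hM
            rcases (A.m0 t).1 hM with ht | ht
            · exact h1 ht
            · exact h2 ht
          have hM' : ¬ S.Meet t (p 0) (c 0) := fun h' => hM h'.symm
          rw [Lift.om_zero₁ A.o1 B.o1 hM, Lift.om_zero₁ A.o1 B.o0 hM, Lift.om_zero₁ A.o0 B.o1 hM,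
            Lift.om_zero₁ A.o0 B.o0 hM, Lift.om_zero₁ B.o2 A.o2 hM', Lift.om_zero₁ A.o0 B.o2 hM,
            Lift.om_zero₁ B.o0 A.o2 hM']
          simp
    simp only [om_add_left, om_add_right, z1, z2, z3, z4, z5, z6, z7, z8, z9, z10, z11, z12, z13,
      z14, z15, z16, z17, z18, z19, z20, z21, z22, z23, z24, z25, z26, z27, z28, z29, z30, z31,
      z32, z33, z34, s1, s2]
    rw [← hR]
    have w1 := z2_add_self (D.om α₁ α₂ t)
    have w2 := z2_add_self (D.om ιC α₂ t)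
    have w3 := z2_add_self (D.om β₁ β₂ t)
    have w4 := z2_add_self (D.om ιP β₂ t)
    linear_combination w1 + w2 + w3 + w4
  have hlt : a₁ < D.word.length := by
    have : ∃ e, D.word[a₁]? = some e := by
      rcases ma1 with ⟨p', b, he, -⟩ | ⟨p', b, he, -⟩ <;> exact ⟨_, he⟩
    obtain ⟨e, he⟩ := this
    exact (List.getElem?_eq_some_iff.1 he).1
  have hsum := Finset.sum_congr (rfl : Finset.range D.word.length = _) (fun t _ => key t)
  rw [Finset.sum_add_distrib, Finset.sum_add_distrib, ev1, ev2, ev3,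
    Finset.sum_ite_eq' (Finset.range D.word.length) a₁, if_pos (Finset.mem_range.2 hlt)] at hsum
  exact absurd hsum (by decide)

theorem Lift.K33.false {c p : Fin 3 → Λ} (K : S.K33 c p) : False := by
  classical
  obtain ⟨a₁, a₂, f, g, α₁, α₂, ιC, A⟩ := K.arcs
  obtain ⟨b₁, b₂, h, k, β₁, β₂, ιP, B⟩ := K.symm.arcs
  have h1 : b₁ = a₁ ∨ b₁ = a₂ := (A.m0 b₁).1 (((B.m0 b₁).2 (Or.inl rfl)).symm)
  have h2 : b₂ = a₁ ∨ b₂ = a₂ := (A.m0 b₂).1 (((B.m0 b₂).2 (Or.inr rfl)).symm)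
  have h3 := B.ne
  rcases h1 with h1 | h1
  · have h4 : b₂ = a₂ := by
      rcases h2 with h2 | h2
      · exact absurd (h1.trans h2.symm) h3
      · exact h2
    subst h1 h4
    exact K.false_aligned A B
  · have h4 : b₂ = a₁ := by
      rcases h2 with h2 | h2
      · exact h2
      · exact absurd (h1.trans h2.symm) h3
    subst h1 h4
    exact (K.perm ![0, 2, 1] (by decide)).false_aligned A B.swap

end Pool.Agent.Lib_helper21.Wsap
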