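import Pool.Agent.Lib_helper21.WsapDefs

namespace Pool.Agent.Lib_helper21.Wsap

universe u
variable {Λ : Type u}

/-- Labelled states. -/
abbrev St (Λ : Type u) := List (Λ × Bool)

/-- The labels of a state. -/
def labs (s : St Λ) : Set Λ := {a | ∃ d, (a, d) ∈ s}

@[simp] lemma labs_nil : labs ([] : St Λ) = ∅ := by
  simp [labs]

@[simp] lemma labs_cons (x : Λ × Bool) (s : St Λ) : labs (x :: s) = {x.1} ∪ labs s := by
  ext a
  simp only [labs, List.mem_cons, Set.mem_ofPred_eq, Set.mem_union, Set.mem_singleton_iff]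
  constructor
  · rintro ⟨d, h | h⟩
    · left; rw [← h]
    · right; exact ⟨d, h⟩
  · rintro (h | ⟨d, h⟩)
    · exact ⟨x.2, Or.inl (by rw [h])⟩
    · exact ⟨d, Or.inr h⟩

open Classical in
/-- Off-diagonal elementary matrix. -/
noncomputable def E (a b : Λ) : Λ → Λ → ℤ := fun x y => if x = a ∧ y = b ∧ a ≠ b then 1 else 0

@[simp] lemma E_self (a : Λ) : E a a = 0 := by
  funext x y
  simp [E]

/-- Sign of a crossing. -/
def sg (b d e : Bool) : ℤ := if b = (d == e) then 1 else -1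

/-- Contribution of a crossing to the over-linking matrix. -/
noncomputable def cm (b : Bool) (x y : Λ × Bool) : Λ → Λ → ℤ :=
  if b then sg b x.2 y.2 • E x.1 y.1 else sg b x.2 y.2 • E y.1 x.1

/-- Labelled effect of a piece at position `0`. -/
def Eff : Piece → St Λ → St Λ → (Λ → Λ → ℤ) → Prop
  | .cup d, s, s', M => ∃ a, s' = (a, d) :: (a, !d) :: s ∧ M = 0
  | .cap, s, s', M => ∃ a d, s = (a, d) :: (a, !d) :: s' ∧ M = 0
  | .cross b, s, s', M => ∃ x y r, s = x :: y :: r ∧ s' = y :: x :: r ∧ M = cm b x y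

/-- Labelled effect of a piece at position `i`. -/
def EffAt : ℕ → Piece → St Λ → St Λ → (Λ → Λ → ℤ) → Prop
  | 0, g, s, s', M => Eff g s s' M
  | i + 1, g, s, s', M => ∃ x r r', s = x :: r ∧ s' = x :: r' ∧ EffAt i g r r' M

/-- Labelled run: start state, end state, accumulated matrix, set of all labels met. -/
def LRun : List Slice → St Λ → St Λ → (Λ → Λ → ℤ) → Set Λ → Prop
  | [], s, s', M, K => s' = s ∧ M = 0 ∧ K = labs s
  | e :: w, s, s', M, K => ∃ s₁ M₁ M₂ K₂, EffAt e.pos e.piece s s₁ M₁ ∧ LRun w s₁ s' M₂ K₂ ∧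
      M = M₁ + M₂ ∧ K = labs s ∪ K₂

lemma EffAt.act {i : ℕ} {g : Piece} {s s' : St Λ} {M : Λ → Λ → ℤ} (h : EffAt i g s s' M) :
    actAt i g (s.map Prod.snd) = some (s'.map Prod.snd) := by
  induction i generalizing s s' with
  | zero =>
    cases g with
    | cup d =>
      obtain ⟨a, rfl, -⟩ := h
      rfl
    | cap =>
      obtain ⟨a, d, rfl, -⟩ := h
      cases d <;> rfl
    | cross b =>
      obtain ⟨x, y, r, rfl, rfl, -⟩ := h
      rfl
  | succ i ih =>
    obtain ⟨x, r, r', rfl, rfl, h⟩ := h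
    simp [actAt, ih h]

lemma LRun.run {w : List Slice} {s s' : St Λ} {M : Λ → Λ → ℤ} {K : Set Λ}
    (h : LRun w s s' M K) : run w (s.map Prod.snd) = some (s'.map Prod.snd) := by
  induction w generalizing s M K with
  | nil =>
    obtain ⟨rfl, -, -⟩ := h
    rfl
  | cons e w ih =>
    obtain ⟨s₁, M₁, M₂, K₂, h1, h2, -, -⟩ := h
    simp [Wsap.run, h1.act, ih h2]

lemma LRun.labs_subset {w : List Slice} {s s' : St Λ} {M : Λ → Λ → ℤ} {K : Set Λ}
    (h : LRun w s s' M K) : labs s ⊆ K := by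
  cases w with
  | nil =>
    obtain ⟨rfl, -, rfl⟩ := h
    exact subset_rfl
  | cons e w =>
    obtain ⟨s₁, M₁, M₂, K₂, h1, h2, -, rfl⟩ := h
    exact Set.subset_union_left

lemma LRun_append {w₁ w₂ : List Slice} {s s' : St Λ} {M : Λ → Λ → ℤ} {K : Set Λ} :
    LRun (w₁ ++ w₂) s s' M K ↔ ∃ s₁ M₁ M₂ K₁ K₂, LRun w₁ s s₁ M₁ K₁ ∧ LRun w₂ s₁ s' M₂ K₂ ∧
      M = M₁ + M₂ ∧ K = K₁ ∪ K₂ := by
  induction w₁ generalizing s M K with
  | nil =>
    constructor
    · intro h
      exact ⟨s, 0, M, labs s, K, ⟨rfl, rfl, rfl⟩, h, by simp,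
        (Set.union_eq_self_of_subset_left h.labs_subset).symm⟩
    · rintro ⟨s₁, M₁, M₂, K₁, K₂, ⟨rfl, rfl, rfl⟩, h2, rfl, rfl⟩
      rw [zero_add, Set.union_eq_self_of_subset_left h2.labs_subset]
      exact h2
  | cons e w ih =>
    constructor
    · rintro ⟨s₁, M₁, M₂, K₂, h1, h2, rfl, rfl⟩
      obtain ⟨s₂, M₃, M₄, K₃, K₄, h3, h4, rfl, rfl⟩ := ih.1 h2
      exact ⟨s₂, M₁ + M₃, M₄, labs s ∪ K₃, K₄, ⟨s₁, M₁, M₃, K₃, h1, h3, rfl, rfl⟩, h4,
        by rw [add_assoc], by rw [Set.union_assoc]⟩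
    · rintro ⟨s₂, M₂, M₄, K₂, K₄, ⟨s₁, M₁, M₃, K₃, h1, h3, rfl, rfl⟩, h4, rfl, rfl⟩
      exact ⟨s₁, M₁, M₃ + M₄, K₃ ∪ K₄, h1, ih.2 ⟨s₂, M₃, M₄, K₃, K₄, h3, h4, rfl, rfl⟩,
        by rw [add_assoc], by rw [Set.union_assoc]⟩

/-- Shift a slice to the right. -/
def sh (i : ℕ) (e : Slice) : Slice := ⟨i + e.pos, e.piece⟩

lemma LRun_shift_one {w : List Slice} {x : Λ × Bool} {r s' : St Λ} {M : Λ → Λ → ℤ} {K : Set Λ} :
    LRun (w.map (sh 1)) (x :: r) s' M K ↔ ∃ r' K', s' = x :: r' ∧ LRun w r r' M K' ∧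
      K = {x.1} ∪ K' := by
  induction w generalizing r M K with
  | nil =>
    constructor
    · rintro ⟨rfl, rfl, rfl⟩
      exact ⟨r, labs r, rfl, ⟨rfl, rfl, rfl⟩, by simp⟩
    · rintro ⟨r', K', rfl, ⟨rfl, rfl, rfl⟩, rfl⟩
      exact ⟨rfl, rfl, by simp⟩
  | cons e w ih =>
    constructor
    · rintro ⟨s₁, M₁, M₂, K₂, h1, h2, rfl, rfl⟩
      simp only [sh, Nat.add_comm 1, EffAt] at h1
      obtain ⟨y, r1, r1', h, rfl, h1⟩ := h1
      obtain ⟨rfl, rfl⟩ := List.cons.inj h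
      obtain ⟨r', K', rfl, h3, rfl⟩ := ih.1 h2
      refine ⟨r', labs r ∪ K', rfl, ⟨r1', M₁, M₂, K', h1, h3, rfl, rfl⟩, ?_⟩
      ext a
      simp only [labs_cons, Set.mem_union, Set.mem_singleton_iff]
      tauto
    · rintro ⟨r', K', rfl, ⟨r₁, M₁, M₂, K₂, h1, h2, rfl, rfl⟩, rfl⟩
      refine ⟨x :: r₁, M₁, M₂, {x.1} ∪ K₂, ?_, ih.2 ⟨r', K₂, rfl, h2, rfl⟩, rfl, ?_⟩
      · simp only [sh, Nat.add_comm 1, EffAt]
        exact ⟨x, r, r₁, rfl, rfl, h1⟩
      · ext a
        simp only [labs_cons, Set.mem_union, Set.mem_singleton_iff]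
        tauto

lemma run_shift_one {w : List Slice} {x : Bool} {r : List Bool} :
    run (w.map (sh 1)) (x :: r) = (run w r).map (x :: ·) := by
  induction w generalizing r with
  | nil => rfl
  | cons e w ih =>
    simp only [List.map_cons, run, sh, Nat.add_comm 1, actAt]
    cases h : actAt e.pos e.piece r with
    | none => simp
    | some r₁ => simp [ih]

/-- Two words of slices have the same labelled runs wherever both fit. -/
def REq (Λ : Type u) (w w' : List Slice) : Prop :=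
  ∀ s : St Λ, run w (s.map Prod.snd) ≠ none → run w' (s.map Prod.snd) ≠ none →
    ∀ s' M K, LRun w s s' M K ↔ LRun w' s s' M K

lemma REq.shift_one {w w' : List Slice} (hne : w ≠ []) (h : REq Λ w w') :
    REq Λ (w.map (sh 1)) (w'.map (sh 1)) := by
  intro s h1 h2 s' M K
  cases s with
  | nil =>
    exfalso
    cases w with
    | nil => exact hne rfl
    | cons e w =>
      apply h1
      simp [run, sh, Nat.add_comm 1, actAt]
  | cons x r =>
    rw [LRun_shift_one, LRun_shift_one]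
    have h1' : run w (r.map Prod.snd) ≠ none := by
      intro h'
      apply h1
      rw [List.map_cons, run_shift_one, h']
      rfl
    have h2' : run w' (r.map Prod.snd) ≠ none := by
      intro h'
      apply h2
      rw [List.map_cons, run_shift_one, h']
      rfl
    constructor
    · rintro ⟨r', K', rfl, h3, rfl⟩
      exact ⟨r', K', rfl, (h r h1' h2' _ _ _).1 h3, rfl⟩
    · rintro ⟨r', K', rfl, h3, rfl⟩
      exact ⟨r', K', rfl, (h r h1' h2' _ _ _).2 h3, rfl⟩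

lemma REq.shift {w w' : List Slice} (hne : w ≠ []) (h : REq Λ w w') (i : ℕ) :
    REq Λ (w.map (sh i)) (w'.map (sh i)) := by
  induction i with
  | zero =>
    have : sh 0 = id := by
      funext e
      simp [sh]
    simpa [this] using h
  | succ i ih =>
    have hs : sh (i + 1) = sh 1 ∘ sh i := by
      funext e
      simp [sh]
      omega
    rw [hs, ← List.map_map, ← List.map_map]
    exact ih.shift_one (by simpa using hne)

lemma LRun_two {e f : Slice} {s s' : St Λ} {M : Λ → Λ → ℤ} {K : Set Λ} :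
    LRun [e, f] s s' M K ↔ ∃ s₁ M₁ M₂, EffAt e.pos e.piece s s₁ M₁ ∧
      EffAt f.pos f.piece s₁ s' M₂ ∧ M = M₁ + M₂ ∧ K = labs s ∪ (labs s₁ ∪ labs s') := by
  constructor
  · rintro ⟨s₁, M₁, M₂, K₂, h1, ⟨s₂, M₃, M₄, K₄, h2, ⟨rfl, rfl, rfl⟩, rfl, rfl⟩, rfl, rfl⟩
    exact ⟨s₁, M₁, M₃, h1, h2, by simp, rfl⟩
  · rintro ⟨s₁, M₁, M₃, h1, h2, rfl, rfl⟩
    exact ⟨s₁, M₁, M₃, labs s₁ ∪ labs s', h1, ⟨s', M₃, 0, labs s', h2, ⟨rfl, rfl, rfl⟩, by simp,
      rfl⟩, rfl, rfl⟩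

lemma LRun_one {e : Slice} {s s' : St Λ} {M : Λ → Λ → ℤ} {K : Set Λ} :
    LRun [e] s s' M K ↔ EffAt e.pos e.piece s s' M ∧ K = labs s ∪ labs s' := by
  constructor
  · rintro ⟨s₁, M₁, M₂, K₂, h1, ⟨rfl, rfl, rfl⟩, rfl, rfl⟩
    exact ⟨by simpa using h1, rfl⟩
  · rintro ⟨h1, rfl⟩
    exact ⟨s', M, 0, labs s', h1, ⟨rfl, rfl, rfl⟩, by simp, rfl⟩

lemma req_zigzagL (d : Bool) : REq Λ [⟨0, .cup d⟩, ⟨1, .cap⟩] [] := by
  intro s h1 _ s' M K
  rw [LRun_two]
  cases s with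
  | nil => simp [run, actAt, Piece.act] at h1
  | cons x r =>
    obtain ⟨a, e⟩ := x
    have he : e = d := by
      revert h1
      cases d <;> cases e <;> simp [run, actAt, Piece.act]
    subst he
    constructor
    · rintro ⟨s₁, M₁, M₂, ⟨c, rfl, rfl⟩, ⟨y, r1, r1', h2, rfl, ⟨c', e', h3, rfl⟩⟩, rfl, rfl⟩
      simp only [List.cons.injEq] at h2
      obtain ⟨rfl, rfl⟩ := h2
      simp only [List.cons.injEq, Prod.mk.injEq] at h3
      obtain ⟨⟨rfl, rfl⟩, ⟨rfl, -⟩, rfl⟩ := h3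
      refine ⟨rfl, by simp, ?_⟩
      ext z
      simp
    · rintro ⟨rfl, rfl, rfl⟩
      refine ⟨_, 0, 0, ⟨a, rfl, rfl⟩, ⟨_, _, _, rfl, rfl, ⟨a, !e, by simp, rfl⟩⟩, by simp, ?_⟩
      ext z
      simp

lemma req_zigzagR (d : Bool) : REq Λ [⟨1, .cup d⟩, ⟨0, .cap⟩] [] := by
  intro s h1 _ s' M K
  rw [LRun_two]
  cases s with
  | nil => simp [run, actAt] at h1
  | cons x r =>
    obtain ⟨a, e⟩ := x
    have he : e = !d := by
      revert h1
      cases d <;> cases e <;> simp [run, actAt, Piece.act]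
    subst he
    constructor
    · rintro ⟨s₁, M₁, M₂, ⟨y, r1, r1', h2, rfl, ⟨c, rfl, rfl⟩⟩, ⟨c', e', h3, rfl⟩, rfl, rfl⟩
      simp only [List.cons.injEq] at h2
      obtain ⟨rfl, rfl⟩ := h2
      simp only [List.cons.injEq, Prod.mk.injEq] at h3
      obtain ⟨⟨rfl, rfl⟩, ⟨rfl, -⟩, rfl⟩ := h3
      refine ⟨by simp, by simp, ?_⟩
      ext z
      simp
    · rintro ⟨rfl, rfl, rfl⟩
      refine ⟨_, 0, 0, ⟨_, _, _, rfl, rfl, ⟨a, rfl, rfl⟩⟩, ⟨a, !d, by simp, rfl⟩, by simp, ?_⟩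
      ext z
      simp

lemma cm_slide₁ (b d : Bool) (c : Λ) (z : Λ × Bool) : cm b (c, !d) z = cm (!b) z (c, d) := by
  obtain ⟨z, e⟩ := z
  cases b <;> cases d <;> cases e <;> simp [cm, sg]

lemma cm_slide₂ (b d : Bool) (c : Λ) (z : Λ × Bool) : cm b z (c, !d) = cm (!b) (c, d) z := by
  obtain ⟨z, e⟩ := z
  cases b <;> cases d <;> cases e <;> simp [cm, sg]

lemma cm_same (b d e : Bool) (c : Λ) : cm b (c, d) (c, e) = 0 := by
  cases b <;> simp [cm]

lemma cm_cancel (b : Bool) (x y : Λ × Bool) : cm b x y + cm (!b) y x = 0 := by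
  obtain ⟨x, d⟩ := x
  obtain ⟨y, e⟩ := y
  cases b <;> cases d <;> cases e <;> simp [cm, sg]

lemma req_slideCup (d b : Bool) :
    REq Λ [⟨0, .cup d⟩, ⟨1, .cross b⟩] [⟨1, .cup d⟩, ⟨0, .cross (!b)⟩] := by
  intro s _ _ s' M K
  rw [LRun_two, LRun_two]
  constructor
  · rintro ⟨s₁, M₁, M₂, ⟨c, rfl, rfl⟩, ⟨y, r1, r1', h2, rfl, ⟨x, z, r, h3, rfl, rfl⟩⟩, rfl, rfl⟩
    simp only [List.cons.injEq] at h2
    obtain ⟨rfl, rfl⟩ := h2
    simp only [List.cons.injEq] at h3
    obtain ⟨rfl, rfl⟩ := h3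
    refine ⟨_, 0, _, ⟨_, _, _, rfl, rfl, ⟨c, rfl, rfl⟩⟩, ⟨_, _, _, rfl, rfl, rfl⟩, ?_, ?_⟩
    · rw [cm_slide₁]
    · ext w
      simp only [labs_cons, Set.mem_union, Set.mem_singleton_iff]
      tauto
  · rintro ⟨s₁, M₁, M₂, ⟨y, r1, r1', rfl, rfl, ⟨c, rfl, rfl⟩⟩, ⟨x, z, r, h3, rfl, rfl⟩, rfl, rfl⟩
    simp only [List.cons.injEq] at h3
    obtain ⟨rfl, rfl, rfl⟩ := h3
    refine ⟨_, 0, _, ⟨c, rfl, rfl⟩, ⟨_, _, _, rfl, rfl, ⟨_, _, _, rfl, rfl, rfl⟩⟩, ?_, ?_⟩
    · rw [cm_slide₁]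
    · ext w
      simp only [labs_cons, Set.mem_union, Set.mem_singleton_iff]
      tauto

lemma req_slideCap (b : Bool) :
    REq Λ [⟨1, .cross b⟩, ⟨0, .cap⟩] [⟨0, .cross (!b)⟩, ⟨1, .cap⟩] := by
  intro s _ _ s' M K
  rw [LRun_two, LRun_two]
  constructor
  · rintro ⟨s₁, M₁, M₂, ⟨y, r1, r1', rfl, rfl, ⟨x, z, r, rfl, rfl, rfl⟩⟩, ⟨a, d, h3, rfl⟩, rfl, rfl⟩
    simp only [List.cons.injEq] at h3
    obtain ⟨rfl, rfl, rfl⟩ := h3
    refine ⟨_, _, 0, ⟨_, _, _, rfl, rfl, rfl⟩, ⟨_, _, _, rfl, rfl, ⟨a, d, rfl, rfl⟩⟩, ?_, ?_⟩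
    · rw [cm_slide₂]
    · ext w
      simp only [labs_cons, Set.mem_union, Set.mem_singleton_iff]
      tauto
  · rintro ⟨s₁, M₁, M₂, ⟨x, y, r, rfl, rfl, rfl⟩, ⟨z, r1, r1', h2, rfl, ⟨a, d, h3, rfl⟩⟩, rfl, rfl⟩
    simp only [List.cons.injEq] at h2
    obtain ⟨rfl, rfl⟩ := h2
    simp only [List.cons.injEq] at h3
    obtain ⟨rfl, rfl⟩ := h3
    refine ⟨_, _, 0, ⟨_, _, _, rfl, rfl, ⟨_, _, _, rfl, rfl, rfl⟩⟩, ⟨a, d, rfl, rfl⟩, ?_, ?_⟩
    · rw [cm_slide₂]
    · ext w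
      simp only [labs_cons, Set.mem_union, Set.mem_singleton_iff]
      tauto

lemma req_r1Cup (d b : Bool) : REq Λ [⟨0, .cup d⟩, ⟨0, .cross b⟩] [⟨0, .cup (!d)⟩] := by
  intro s _ _ s' M K
  rw [LRun_two, LRun_one]
  constructor
  · rintro ⟨s₁, M₁, M₂, ⟨c, rfl, rfl⟩, ⟨x, y, r, h2, rfl, rfl⟩, rfl, rfl⟩
    simp only [List.cons.injEq] at h2
    obtain ⟨rfl, rfl, rfl⟩ := h2
    refine ⟨⟨c, by simp, by simp [cm_same]⟩, ?_⟩
    ext w
    simp only [labs_cons, Set.mem_union, Set.mem_singleton_iff]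
    tauto
  · rintro ⟨⟨c, rfl, rfl⟩, rfl⟩
    refine ⟨_, 0, 0, ⟨c, rfl, rfl⟩, ⟨_, _, _, rfl, by simp, by simp [cm_same]⟩, by simp, ?_⟩
    ext w
    simp only [labs_cons, Set.mem_union, Set.mem_singleton_iff]
    tauto

lemma req_r1Cap (b : Bool) : REq Λ [⟨0, .cross b⟩, ⟨0, .cap⟩] [⟨0, .cap⟩] := by
  intro s _ _ s' M K
  rw [LRun_two, LRun_one]
  constructor
  · rintro ⟨s₁, M₁, M₂, ⟨x, y, r, rfl, rfl, rfl⟩, ⟨a, d, h2, rfl⟩, rfl, rfl⟩
    simp only [List.cons.injEq] at h2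
    obtain ⟨rfl, rfl, rfl⟩ := h2
    refine ⟨⟨a, !d, by simp, by simp [cm_same]⟩, ?_⟩
    ext w
    simp only [labs_cons, Set.mem_union, Set.mem_singleton_iff]
    tauto
  · rintro ⟨⟨a, d, rfl, rfl⟩, rfl⟩
    refine ⟨_, 0, 0, ⟨_, _, _, rfl, rfl, by simp [cm_same]⟩, ⟨a, !d, by simp, rfl⟩, by simp, ?_⟩
    ext w
    simp only [labs_cons, Set.mem_union, Set.mem_singleton_iff]
    tauto

lemma req_r2 (b : Bool) : REq Λ [⟨0, .cross b⟩, ⟨0, .cross (!b)⟩] [] := by
  intro s h1 _ s' M K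
  rw [LRun_two]
  match s, h1 with
  | [], h1 => simp [run, actAt, Piece.act] at h1
  | [x], h1 => simp [run, actAt, Piece.act] at h1
  | x :: y :: r, _ =>
    constructor
    · rintro ⟨s₁, M₁, M₂, ⟨x', y', r', h2, rfl, rfl⟩, ⟨x'', y'', r'', h3, rfl, rfl⟩, rfl, rfl⟩
      simp only [List.cons.injEq] at h2 h3
      obtain ⟨rfl, rfl, rfl⟩ := h2
      obtain ⟨rfl, rfl, rfl⟩ := h3
      refine ⟨rfl, cm_cancel _ _ _, ?_⟩
      ext w
      simp only [labs_cons, Set.mem_union, Set.mem_singleton_iff]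
      tauto
    · rintro ⟨rfl, rfl, rfl⟩
      refine ⟨_, _, _, ⟨_, _, _, rfl, rfl, rfl⟩, ⟨_, _, _, rfl, rfl, rfl⟩, (cm_cancel _ _ _).symm, ?_⟩
      ext w
      simp only [labs_cons, Set.mem_union, Set.mem_singleton_iff]
      tauto

lemma LRun_three {e f g : Slice} {s s' : St Λ} {M : Λ → Λ → ℤ} {K : Set Λ} :
    LRun [e, f, g] s s' M K ↔ ∃ s₁ s₂ M₁ M₂ M₃, EffAt e.pos e.piece s s₁ M₁ ∧
      EffAt f.pos f.piece s₁ s₂ M₂ ∧ EffAt g.pos g.piece s₂ s' M₃ ∧
      M = M₁ + (M₂ + M₃) ∧ K = labs s ∪ (labs s₁ ∪ (labs s₂ ∪ labs s')) := by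
  constructor
  · rintro ⟨s₁, M₁, M₂, K₂, h1, h2, rfl, rfl⟩
    obtain ⟨s₂, M₃, M₄, h3, h4, rfl, rfl⟩ := LRun_two.1 h2
    exact ⟨s₁, s₂, M₁, M₃, M₄, h1, h3, h4, rfl, rfl⟩
  · rintro ⟨s₁, s₂, M₁, M₂, M₃, h1, h2, h3, rfl, rfl⟩
    exact ⟨s₁, M₁, M₂ + M₃, labs s₁ ∪ (labs s₂ ∪ labs s'), h1,
      LRun_two.2 ⟨s₂, M₂, M₃, h2, h3, rfl, rfl⟩, rfl, rfl⟩

lemma req_r3 (a b c : Bool) : REq Λ [⟨0, .cross a⟩, ⟨1, .cross b⟩, ⟨0, .cross c⟩]
    [⟨1, .cross c⟩, ⟨0, .cross b⟩, ⟨1, .cross a⟩] := by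
  intro s _ _ s' M K
  rw [LRun_three, LRun_three]
  constructor
  · rintro ⟨s₁, s₂, M₁, M₂, M₃, ⟨x, y, r, rfl, rfl, rfl⟩, ⟨w, r1, r1', h2, rfl,
      ⟨x', z, r2, h2', rfl, rfl⟩⟩, ⟨y', z', r3, h3, rfl, rfl⟩, rfl, rfl⟩
    simp only [List.cons.injEq] at h2
    obtain ⟨rfl, rfl⟩ := h2
    simp only [List.cons.injEq] at h2'
    obtain ⟨rfl, rfl⟩ := h2'
    simp only [List.cons.injEq] at h3
    obtain ⟨rfl, rfl, rfl⟩ := h3
    refine ⟨_, _, _, _, _, ⟨_, _, _, rfl, rfl, ⟨_, _, _, rfl, rfl, rfl⟩⟩, ⟨_, _, _, rfl, rfl, rfl⟩,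
      ⟨_, _, _, rfl, rfl, ⟨_, _, _, rfl, rfl, rfl⟩⟩, ?_, ?_⟩
    · abel
    · ext w
      simp only [labs_cons, Set.mem_union, Set.mem_singleton_iff]
      tauto
  · rintro ⟨s₁, s₂, M₁, M₂, M₃, ⟨x, r1, r1', rfl, rfl, ⟨y, z, r, rfl, rfl, rfl⟩⟩,
      ⟨x', z', r', h2, rfl, rfl⟩, ⟨w, r3, r3', h3, rfl, ⟨x'', y', r'', h3', rfl, rfl⟩⟩, rfl, rfl⟩
    simp only [List.cons.injEq] at h2
    obtain ⟨rfl, rfl, rfl⟩ := h2
    simp only [List.cons.injEq] at h3
    obtain ⟨rfl, rfl⟩ := h3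
    simp only [List.cons.injEq] at h3'
    obtain ⟨rfl, rfl, rfl⟩ := h3'
    refine ⟨_, _, _, _, _, ⟨_, _, _, rfl, rfl, rfl⟩, ⟨_, _, _, rfl, rfl, ⟨_, _, _, rfl, rfl, rfl⟩⟩,
      ⟨_, _, _, rfl, rfl, rfl⟩, ?_, ?_⟩
    · abel
    · ext w
      simp only [labs_cons, Set.mem_union, Set.mem_singleton_iff]
      tauto

lemma EffAt_two_add {k : ℕ} {h : Piece} {s s' : St Λ} {M : Λ → Λ → ℤ} :
    EffAt (2 + k) h s s' M ↔ ∃ x y r r', s = x :: y :: r ∧ s' = x :: y :: r' ∧
      EffAt k h r r' M := by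
  rw [show 2 + k = k + 1 + 1 by omega]
  constructor
  · rintro ⟨x, r, r', rfl, rfl, ⟨y, t, t', rfl, rfl, h1⟩⟩
    exact ⟨x, y, t, t', rfl, rfl, h1⟩
  · rintro ⟨x, y, r, r', rfl, rfl, h1⟩
    exact ⟨x, _, _, rfl, rfl, ⟨y, _, _, rfl, rfl, h1⟩⟩

lemma req_exchange (k : ℕ) (g h : Piece) :
    REq Λ [⟨0, g⟩, ⟨g.out + k, h⟩] [⟨g.inn + k, h⟩, ⟨0, g⟩] := by
  intro s _ _ s' M K
  rw [LRun_two, LRun_two]
  cases g with
  | cup d =>
    simp only [Piece.out, Piece.inn, zero_add, EffAt_two_add]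
    constructor
    · rintro ⟨s₁, M₁, M₂, ⟨c, rfl, rfl⟩, ⟨x, y, r, r', h2, rfl, h3⟩, rfl, rfl⟩
      simp only [List.cons.injEq] at h2
      obtain ⟨rfl, rfl, rfl⟩ := h2
      refine ⟨_, _, 0, h3, ⟨c, rfl, rfl⟩, by abel, ?_⟩
      ext w
      simp only [labs_cons, Set.mem_union, Set.mem_singleton_iff]
      tauto
    · rintro ⟨s₁, M₁, M₂, h3, ⟨c, rfl, rfl⟩, rfl, rfl⟩
      refine ⟨_, 0, _, ⟨c, rfl, rfl⟩, ⟨_, _, _, _, rfl, rfl, h3⟩, by abel, ?_⟩
      ext w
      simp only [labs_cons, Set.mem_union, Set.mem_singleton_iff]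
      tauto
  | cap =>
    simp only [Piece.out, Piece.inn, zero_add, EffAt_two_add]
    constructor
    · rintro ⟨s₁, M₁, M₂, ⟨c, d, rfl, rfl⟩, h3, rfl, rfl⟩
      refine ⟨_, _, 0, ⟨_, _, _, _, rfl, rfl, h3⟩, ⟨c, d, rfl, rfl⟩, by abel, ?_⟩
      ext w
      simp only [labs_cons, Set.mem_union, Set.mem_singleton_iff]
      tauto
    · rintro ⟨s₁, M₁, M₂, ⟨x, y, r, r', rfl, rfl, h3⟩, ⟨c, d, h2, rfl⟩, rfl, rfl⟩
      simp only [List.cons.injEq] at h2
      obtain ⟨rfl, rfl, rfl⟩ := h2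
      refine ⟨_, 0, _, ⟨c, d, rfl, rfl⟩, h3, by abel, ?_⟩
      ext w
      simp only [labs_cons, Set.mem_union, Set.mem_singleton_iff]
      tauto
  | cross b =>
    simp only [Piece.out, Piece.inn, EffAt_two_add]
    constructor
    · rintro ⟨s₁, M₁, M₂, ⟨x, y, r, rfl, rfl, rfl⟩, ⟨x', y', t, t', h2, rfl, h3⟩, rfl, rfl⟩
      simp only [List.cons.injEq] at h2
      obtain ⟨rfl, rfl, rfl⟩ := h2
      refine ⟨_, _, _, ⟨_, _, _, _, rfl, rfl, h3⟩, ⟨_, _, _, rfl, rfl, rfl⟩, by abel, ?_⟩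
      ext w
      simp only [labs_cons, Set.mem_union, Set.mem_singleton_iff]
      tauto
    · rintro ⟨s₁, M₁, M₂, ⟨x, y, r, r', rfl, rfl, h3⟩, ⟨x', y', t, h2, rfl, rfl⟩, rfl, rfl⟩
      simp only [List.cons.injEq] at h2
      obtain ⟨rfl, rfl, rfl⟩ := h2
      refine ⟨_, _, _, ⟨_, _, _, rfl, rfl, rfl⟩, ⟨_, _, _, _, rfl, rfl, h3⟩, by abel, ?_⟩
      ext w
      simp only [labs_cons, Set.mem_union, Set.mem_singleton_iff]
      tauto

lemma REq_of_move {u u' : List Slice} (h : Move u u') : REq Λ u u' := by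
  cases h with
  | exchange i k g h =>
    have := (req_exchange (Λ := Λ) k g h).shift (by simp) i
    simpa [sh, add_assoc] using this
  | zigzagL i d =>
    have := (req_zigzagL (Λ := Λ) d).shift (by simp) i
    simpa [sh] using this
  | zigzagR i d =>
    have := (req_zigzagR (Λ := Λ) d).shift (by simp) i
    simpa [sh] using this
  | slideCup i d b =>
    have := (req_slideCup (Λ := Λ) d b).shift (by simp) i
    simpa [sh] using this
  | slideCap i b =>
    have := (req_slideCap (Λ := Λ) b).shift (by simp) i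
    simpa [sh] using this
  | r1Cup i d b =>
    have := (req_r1Cup (Λ := Λ) d b).shift (by simp) i
    simpa [sh] using this
  | r1Cap i b =>
    have := (req_r1Cap (Λ := Λ) b).shift (by simp) i
    simpa [sh] using this
  | r2 i b =>
    have := (req_r2 (Λ := Λ) b).shift (by simp) i
    simpa [sh] using this
  | r3 i a b c _ =>
    have := (req_r3 (Λ := Λ) a b c).shift (by simp) i
    simpa [sh] using this

lemma run_append {w₁ w₂ : List Slice} {s : List Bool} :
    run (w₁ ++ w₂) s = (run w₁ s).bind (run w₂) := by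
  induction w₁ generalizing s with
  | nil => rfl
  | cons e w ih =>
    simp only [List.cons_append, run]
    cases actAt e.pos e.piece s with
    | none => rfl
    | some t => simp [ih]

lemma LRun_step {D D' : Diagram} (h : Step D D') (M : Λ → Λ → ℤ) (K : Set Λ) :
    LRun D.word [] [] M K ↔ LRun D'.word [] [] M K := by
  obtain ⟨w₁, w₂, u, u', hm, hD, hD'⟩ := h
  have key : ∀ (s : St Λ), run w₁ [] = some (s.map Prod.snd) →
      ∀ s' M K, LRun u s s' M K ↔ LRun u' s s' M K := by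
    intro s hs
    apply REq_of_move hm
    · intro h0
      have := D.closed
      rw [hD, List.append_assoc, run_append, hs] at this
      simp [run_append, h0] at this
    · intro h0
      have := D'.closed
      rw [hD', List.append_assoc, run_append, hs] at this
      simp [run_append, h0] at this
  rw [hD, hD', List.append_assoc, List.append_assoc, LRun_append, LRun_append]
  constructor
  · rintro ⟨s₁, M₁, M₂, K₁, K₂, h1, h2, rfl, rfl⟩
    refine ⟨s₁, M₁, M₂, K₁, K₂, h1, ?_, rfl, rfl⟩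
    rw [LRun_append] at h2 ⊢
    obtain ⟨s₂, M₃, M₄, K₃, K₄, h3, h4, rfl, rfl⟩ := h2
    exact ⟨s₂, M₃, M₄, K₃, K₄, (key s₁ h1.run _ _ _).1 h3, h4, rfl, rfl⟩
  · rintro ⟨s₁, M₁, M₂, K₁, K₂, h1, h2, rfl, rfl⟩
    refine ⟨s₁, M₁, M₂, K₁, K₂, h1, ?_, rfl, rfl⟩
    rw [LRun_append] at h2 ⊢
    obtain ⟨s₂, M₃, M₄, K₃, K₄, h3, h4, rfl, rfl⟩ := h2
    exact ⟨s₂, M₃, M₄, K₃, K₄, (key s₁ h1.run _ _ _).2 h3, h4, rfl, rfl⟩

/-- Labelled lifts (with their over-linking matrix and label set) transport between diagrams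
of the same link. -/
theorem LRun_transport {D D' : Diagram} (h : (Quot.mk Step D : Link) = Quot.mk Step D')
    (M : Λ → Λ → ℤ) (K : Set Λ) : LRun D.word [] [] M K ↔ LRun D'.word [] [] M K := by
  have := Quot.eqvGen_exact h
  clear h
  induction this with
  | rel D D' h => exact LRun_step h M K
  | refl D => exact Iff.rfl
  | symm D D' _ ih => exact ih.symm
  | trans D D' D'' _ _ ih1 ih2 => exact ih1.trans ih2

/-- Number of cups of a word. -/
def ncup : List Slice → ℕ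
  | [] => 0
  | ⟨_, .cup _⟩ :: w => ncup w + 1
  | ⟨_, .cap⟩ :: w => ncup w
  | ⟨_, .cross _⟩ :: w => ncup w

lemma EffAt_cup_labs {i : ℕ} {d : Bool} {s s' : St Λ} {M : Λ → Λ → ℤ}
    (h : EffAt i (.cup d) s s' M) : ∃ a, labs s' = labs s ∪ {a} := by
  induction i generalizing s s' with
  | zero =>
    obtain ⟨a, rfl, -⟩ := h
    refine ⟨a, ?_⟩
    ext z
    simp only [labs_cons, Set.mem_union, Set.mem_singleton_iff]
    tauto
  | succ i ih =>
    obtain ⟨x, r, r', rfl, rfl, h⟩ := h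
    obtain ⟨a, ha⟩ := ih h
    refine ⟨a, ?_⟩
    rw [labs_cons, labs_cons, ha, Set.union_assoc]

lemma EffAt_cap_labs {i : ℕ} {s s' : St Λ} {M : Λ → Λ → ℤ}
    (h : EffAt i .cap s s' M) : labs s' ⊆ labs s := by
  induction i generalizing s s' with
  | zero =>
    obtain ⟨a, d, rfl, -⟩ := h
    intro z hz
    simp only [labs_cons, Set.mem_union, Set.mem_singleton_iff]
    tauto
  | succ i ih =>
    obtain ⟨x, r, r', rfl, rfl, h⟩ := h
    rw [labs_cons, labs_cons]
    exact Set.union_subset_union_right _ (ih h)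

lemma EffAt_cross_labs {i : ℕ} {b : Bool} {s s' : St Λ} {M : Λ → Λ → ℤ}
    (h : EffAt i (.cross b) s s' M) : labs s' = labs s := by
  induction i generalizing s s' with
  | zero =>
    obtain ⟨x, y, r, rfl, rfl, -⟩ := h
    ext z
    simp only [labs_cons, Set.mem_union, Set.mem_singleton_iff]
    tauto
  | succ i ih =>
    obtain ⟨x, r, r', rfl, rfl, h⟩ := h
    rw [labs_cons, labs_cons, ih h]

lemma LRun_card {w : List Slice} {s s' : St Λ} {M : Λ → Λ → ℤ} {K : Set Λ}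
    (h : LRun w s s' M K) : ∃ F : Set Λ, F.Finite ∧ F.ncard ≤ ncup w ∧ K ⊆ labs s ∪ F := by
  induction w generalizing s M K with
  | nil =>
    obtain ⟨-, -, rfl⟩ := h
    exact ⟨∅, Set.finite_empty, by simp, by simp⟩
  | cons e w ih =>
    obtain ⟨s₁, M₁, M₂, K₂, h1, h2, rfl, rfl⟩ := h
    obtain ⟨F, hF, hc, hK⟩ := ih h2
    obtain ⟨p, g⟩ := e
    cases g with
    | cup d =>
      obtain ⟨a, ha⟩ := EffAt_cup_labs h1
      refine ⟨insert a F, hF.insert a, ?_, ?_⟩
      · exact (Set.ncard_insert_le a F).trans (by simpa [ncup] using hc)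
      · intro z hz
        rcases hz with hz | hz
        · exact Or.inl hz
        · rcases hK hz with hz | hz
          · rw [ha] at hz
            rcases hz with hz | hz
            · exact Or.inl hz
            · exact Or.inr (Or.inl hz)
          · exact Or.inr (Or.inr hz)
    | cap =>
      refine ⟨F, hF, by simpa [ncup] using hc, ?_⟩
      have := EffAt_cap_labs h1
      intro z hz
      rcases hz with hz | hz
      · exact Or.inl hz
      · rcases hK hz with hz | hz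
        · exact Or.inl (this hz)
        · exact Or.inr hz
    | cross b =>
      refine ⟨F, hF, by simpa [ncup] using hc, ?_⟩
      have := EffAt_cross_labs h1
      intro z hz
      rcases hz with hz | hz
      · exact Or.inl hz
      · rcases hK hz with hz | hz
        · exact Or.inl (this ▸ hz)
        · exact Or.inr hz

lemma LRun_seq {w : List Slice} {s s' : St Λ} {M : Λ → Λ → ℤ} {K : Set Λ}
    (h : LRun w s s' M K) : ∃ (σ : ℕ → St Λ) (m : ℕ → Λ → Λ → ℤ), σ 0 = s ∧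
      (∀ t, w.length ≤ t → σ t = s') ∧
      (∀ t (ht : t < w.length), EffAt w[t].pos w[t].piece (σ t) (σ (t + 1)) (m t)) ∧
      M = ∑ t ∈ Finset.range w.length, m t ∧ K = {a | ∃ t, a ∈ labs (σ t)} := by
  induction w generalizing s M K with
  | nil =>
    obtain ⟨rfl, rfl, rfl⟩ := h
    exact ⟨fun _ => s', fun _ => 0, rfl, fun _ _ => rfl, fun t ht => by simp at ht, by simp,
      by simp⟩
  | cons e w ih =>
    obtain ⟨s₁, M₁, M₂, K₂, h1, h2, rfl, rfl⟩ := h
    obtain ⟨σ, m, h0, hT, hE, rfl, rfl⟩ := ih h2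
    refine ⟨fun t => t.casesOn s σ, fun t => t.casesOn M₁ m, rfl, ?_, ?_, ?_, ?_⟩
    · intro t ht
      cases t with
      | zero => simp at ht
      | succ t => exact hT t (by simpa using ht)
    · intro t ht
      cases t with
      | zero =>
        simp only [List.getElem_cons_zero]
        rw [h0]
        exact h1
      | succ t => exact hE t (by simpa using ht)
    · rw [List.length_cons, Finset.sum_range_succ']
      exact add_comm _ _
    · ext a
      simp only [Set.mem_union, Set.mem_ofPred_eq]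
      constructor
      · rintro (ha | ⟨t, ha⟩)
        · exact ⟨0, ha⟩
        · exact ⟨t + 1, ha⟩
      · rintro ⟨t, ha⟩
        cases t with
        | zero => exact Or.inl ha
        | succ t => exact Or.inr ⟨t, ha⟩

lemma LRun_of_seq {w : List Slice} {σ : ℕ → St Λ} {m : ℕ → Λ → Λ → ℤ}
    (hE : ∀ t (ht : t < w.length), EffAt w[t].pos w[t].piece (σ t) (σ (t + 1)) (m t)) :
    LRun w (σ 0) (σ w.length) (∑ t ∈ Finset.range w.length, m t)
      {a | ∃ t ≤ w.length, a ∈ labs (σ t)} := by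
  induction w generalizing σ m with
  | nil =>
    refine ⟨rfl, by simp, ?_⟩
    ext a
    simp
  | cons e w ih =>
    refine ⟨σ 1, m 0, _, _, hE 0 (by simp), ih (σ := fun t => σ (t + 1))
      (m := fun t => m (t + 1)) (fun t ht => hE (t + 1) (by simpa using ht)), ?_, ?_⟩
    · rw [List.length_cons, Finset.sum_range_succ', add_comm]
    · ext a
      simp only [Set.mem_union, Set.mem_ofPred_eq]
      constructor
      · rintro ⟨t, ht, ha⟩
        cases t with
        | zero => exact Or.inl ha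
        | succ t => exact Or.inr ⟨t, by simpa using ht, ha⟩
      · rintro (ha | ⟨t, ht, ha⟩)
        · exact ⟨0, by simp, ha⟩
        · exact ⟨t + 1, by simpa using ht, ha⟩

lemma EffAt_cup_iff {p : ℕ} {d : Bool} {s s' : St Λ} {M : Λ → Λ → ℤ} :
    EffAt p (.cup d) s s' M ↔ M = 0 ∧ (∀ i < p, s'[i]? = s[i]?) ∧
      (∀ i, p ≤ i → s'[i + 2]? = s[i]?) ∧ ∃ a, s'[p]? = some (a, d) ∧ s'[p + 1]? = some (a, !d) := by
  induction p generalizing s s' with
  | zero =>
    constructor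
    · rintro ⟨a, rfl, rfl⟩
      exact ⟨rfl, fun i hi => by omega, fun i _ => by simp, a, by simp, by simp⟩
    · rintro ⟨rfl, -, h, a, h0, h1⟩
      refine ⟨a, ?_, rfl⟩
      apply List.ext_getElem?
      intro i
      match i with
      | 0 => simpa using h0
      | 1 => simpa using h1
      | i + 2 => simpa using h i (by omega)
  | succ p ih =>
    constructor
    · rintro ⟨x, r, r', rfl, rfl, h⟩
      obtain ⟨rfl, h1, h2, a, h3, h4⟩ := ih.1 h
      refine ⟨rfl, ?_, ?_, a, by simpa using h3, by simpa using h4⟩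
      · intro i hi
        cases i with
        | zero => simp
        | succ i => simpa using h1 i (by omega)
      · intro i hi
        cases i with
        | zero => omega
        | succ i => simpa using h2 i (by omega)
    · rintro ⟨rfl, h1, h2, a, h3, h4⟩
      have h0 := h1 0 (by omega)
      cases s' with
      | nil => simp at h3
      | cons x r' =>
        cases s with
        | nil => simp at h0
        | cons y r =>
          simp only [List.length_cons, Nat.zero_lt_succ, getElem?_pos, List.getElem_cons_zero,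
            Option.some.injEq] at h0
          subst h0
          refine ⟨x, r, r', rfl, rfl, ih.2 ⟨rfl, ?_, ?_, a, by simpa using h3, by simpa using h4⟩⟩
          · intro i hi
            simpa using h1 (i + 1) (by omega)
          · intro i hi
            simpa using h2 (i + 1) (by omega)

lemma EffAt_cap_iff {p : ℕ} {s s' : St Λ} {M : Λ → Λ → ℤ} :
    EffAt p .cap s s' M ↔ M = 0 ∧ (∀ i < p, s'[i]? = s[i]?) ∧
      (∀ i, p ≤ i → s'[i]? = s[i + 2]?) ∧ ∃ a d, s[p]? = some (a, d) ∧ s[p + 1]? = some (a, !d) := by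
  induction p generalizing s s' with
  | zero =>
    constructor
    · rintro ⟨a, d, rfl, rfl⟩
      exact ⟨rfl, fun i hi => by omega, fun i _ => by simp, a, d, by simp, by simp⟩
    · rintro ⟨rfl, -, h, a, d, h0, h1⟩
      refine ⟨a, d, ?_, rfl⟩
      apply List.ext_getElem?
      intro i
      match i with
      | 0 => simpa using h0
      | 1 => simpa using h1
      | i + 2 => simpa using (h i (by omega)).symm
  | succ p ih =>
    constructor
    · rintro ⟨x, r, r', rfl, rfl, h⟩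
      obtain ⟨rfl, h1, h2, a, d, h3, h4⟩ := ih.1 h
      refine ⟨rfl, ?_, ?_, a, d, by simpa using h3, by simpa using h4⟩
      · intro i hi
        cases i with
        | zero => simp
        | succ i => simpa using h1 i (by omega)
      · intro i hi
        cases i with
        | zero => omega
        | succ i => simpa using h2 i (by omega)
    · rintro ⟨rfl, h1, h2, a, d, h3, h4⟩
      have h0 := h1 0 (by omega)
      cases s with
      | nil => simp at h3
      | cons x r =>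
        cases s' with
        | nil => simp at h0
        | cons y r' =>
          simp only [List.length_cons, Nat.zero_lt_succ, getElem?_pos, List.getElem_cons_zero,
            Option.some.injEq] at h0
          subst h0
          refine ⟨y, r, r', rfl, rfl,
            ih.2 ⟨rfl, ?_, ?_, a, d, by simpa using h3, by simpa using h4⟩⟩
          · intro i hi
            simpa using h1 (i + 1) (by omega)
          · intro i hi
            simpa using h2 (i + 1) (by omega)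

lemma EffAt_cross_iff {p : ℕ} {b : Bool} {s s' : St Λ} {M : Λ → Λ → ℤ} :
    EffAt p (.cross b) s s' M ↔ ∃ x y, s[p]? = some x ∧ s[p + 1]? = some y ∧ s'[p]? = some y ∧
      s'[p + 1]? = some x ∧ (∀ i, i ≠ p → i ≠ p + 1 → s'[i]? = s[i]?) ∧ M = cm b x y := by
  induction p generalizing s s' with
  | zero =>
    constructor
    · rintro ⟨x, y, r, rfl, rfl, rfl⟩
      refine ⟨x, y, by simp, by simp, by simp, by simp, ?_, rfl⟩
      intro i h0 h1
      match i with
      | 0 => omega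
      | 1 => omega
      | i + 2 => simp
    · rintro ⟨x, y, h0, h1, h2, h3, h4, rfl⟩
      match s, s' with
      | [], _ => simp at h0
      | [_], _ => simp at h1
      | _ :: _ :: _, [] => simp at h2
      | _ :: _ :: _, [_] => simp at h3
      | x' :: y' :: r, y'' :: x'' :: r' =>
        simp only [List.length_cons, Nat.zero_lt_succ, getElem?_pos, List.getElem_cons_zero,
            Option.some.injEq, zero_add, List.getElem?_cons_succ] at h0 h1 h2 h3
        subst h0 h1 h2 h3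
        refine ⟨_, _, r, rfl, ?_, rfl⟩
        congr 2
        apply List.ext_getElem?
        intro i
        simpa using h4 (i + 2) (by omega) (by omega)
  | succ p ih =>
    constructor
    · rintro ⟨z, r, r', rfl, rfl, h⟩
      obtain ⟨x, y, h1, h2, h3, h4, h5, rfl⟩ := ih.1 h
      refine ⟨x, y, by simpa using h1, by simpa using h2, by simpa using h3, by simpa using h4,
        ?_, rfl⟩
      intro i hi hi'
      cases i with
      | zero => simp
      | succ i => simpa using h5 i (by omega) (by omega)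
    · rintro ⟨x, y, h1, h2, h3, h4, h5, rfl⟩
      have h0 := h5 0 (by omega) (by omega)
      cases s with
      | nil => simp at h1
      | cons z r =>
        cases s' with
        | nil => simp at h0
        | cons z' r' =>
          simp only [List.length_cons, Nat.zero_lt_succ, getElem?_pos, List.getElem_cons_zero,
            Option.some.injEq] at h0
          subst h0
          refine ⟨_, r, r', rfl, rfl, ih.2 ⟨x, y, by simpa using h1, by simpa using h2,
            by simpa using h3, by simpa using h4, ?_, rfl⟩⟩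
          intro i hi hi'
          simpa using h5 (i + 1) (by omega) (by omega)

end Pool.Agent.Lib_helper21.Wsap
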