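import Pool.Agent.Lib_helper21.WsapK33

namespace Pool.Agent.Lib_helper21.Wsap

universe u
variable {Λ : Type u} {D : Diagram} {S : Lift D Λ}

lemma Lift.side_const {Y Z : Λ} (hY : S.Conn Y) (hne : Y ≠ Z) (hm : ∀ t, ¬ S.Meet t Y Z)
    {x y : ℕ × ℕ} (hx : S.lb x = some Y) (hy : S.lb y = some Y) : S.side Z x = S.side Z y := by
  obtain ⟨m, rfl⟩ := hY x y hx hy
  clear hy
  induction m with
  | zero => rfl
  | succ m ih =>
    have hl : S.lb (D.next^[m] x) = some Y := by
      rw [S.lb_iterate (Lift.valid_of_lb hx), hx]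
    rw [Function.iterate_succ_apply', Lift.side_next hne hl, ih]
    cases hc : D.cr (D.next^[m] x) with
    | none => simp
    | some t =>
      rw [Option.elim_some, Lift.mt_eq hne hl hc, if_neg (hm t), add_zero]

lemma Lift.side_conn {Y₁ Y₂ W Z : Λ} (h1 : S.Conn Y₁) (h2 : S.Conn Y₂) (hW : S.Conn W)
    (n1 : Y₁ ≠ Z) (n2 : Y₂ ≠ Z) (nW : W ≠ Z) (m1 : ∀ t, ¬ S.Meet t Y₁ Z)
    (m2 : ∀ t, ¬ S.Meet t Y₂ Z) (mW : ∀ t, ¬ S.Meet t W Z) (w1 : W ≠ Y₁) (w2 : W ≠ Y₂)
    (e1 : ∃ t, S.Meet t W Y₁) (e2 : ∃ t, S.Meet t W Y₂)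
    {x y : ℕ × ℕ} (hx : S.lb x = some Y₁) (hy : S.lb y = some Y₂) :
    S.side Z x = S.side Z y := by
  obtain ⟨t₁, e1⟩ := e1
  obtain ⟨t₂, e2⟩ := e2
  obtain ⟨s₁, hs₁, cs₁, -⟩ := e1.start w1
  obtain ⟨s₁', hs₁', cs₁', -⟩ := e1.symm.start w1.symm
  obtain ⟨s₂, hs₂, cs₂, -⟩ := e2.start w2
  obtain ⟨s₂', hs₂', cs₂', -⟩ := e2.symm.start w2.symm
  have a1 := e1.side_eq nW n1 (Lift.valid_of_lb hs₁) (Lift.valid_of_lb hs₁') cs₁ cs₁'
  have a2 := e2.side_eq nW n2 (Lift.valid_of_lb hs₂) (Lift.valid_of_lb hs₂') cs₂ cs₂'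
  rw [Lift.side_const h1 n1 m1 hx hs₁', ← a1, Lift.side_const hW nW mW hs₁ hs₂, a2,
    Lift.side_const h2 n2 m2 hs₂' hy]

/-- The crossing in slice `t` has over-strand labelled `Y` and under-strand labelled `Z`. -/
def Lift.OU (S : Lift D Λ) (t : ℕ) (Y Z : Λ) : Prop :=
  ∃ p b, D.word[t]? = some ⟨p, .cross b⟩ ∧ S.lb (t, p) = some (if b then Y else Z) ∧
    S.lb (t, p + 1) = some (if b then Z else Y)

lemma Lift.OU.unique {t : ℕ} {Y Z Y' Z' : Λ} (h : S.OU t Y Z) (h' : S.OU t Y' Z') :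
    Y = Y' ∧ Z = Z' := by
  obtain ⟨p, b, h1, h2, h3⟩ := h
  obtain ⟨p', b', h1', h2', h3'⟩ := h'
  rw [h1] at h1'
  simp only [Option.some.injEq, Slice.mk.injEq, Piece.cross.injEq] at h1'
  obtain ⟨rfl, rfl⟩ := h1'
  rw [h2] at h2'
  rw [h3] at h3'
  have a := Option.some.inj h2'
  have b' := Option.some.inj h3'
  cases b
  · simp only [Bool.false_eq_true, if_false] at a b'
    exact ⟨b', a⟩
  · simp only [if_true] at a b'
    exact ⟨a, b'⟩

lemma Lift.meet_iff_OU {t : ℕ} {Y Z : Λ} : S.Meet t Y Z ↔ S.OU t Y Z ∨ S.OU t Z Y := by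
  constructor
  · rintro (⟨p, b, h1, h2, h3⟩ | ⟨p, b, h1, h2, h3⟩)
    · cases b
      · exact Or.inr ⟨p, false, h1, by simpa using h2, by simpa using h3⟩
      · exact Or.inl ⟨p, true, h1, by simpa using h2, by simpa using h3⟩
    · cases b
      · exact Or.inl ⟨p, false, h1, by simpa using h2, by simpa using h3⟩
      · exact Or.inr ⟨p, true, h1, by simpa using h2, by simpa using h3⟩
  · rintro (⟨p, b, h1, h2, h3⟩ | ⟨p, b, h1, h2, h3⟩)
    · cases b
      · exact Or.inr ⟨p, false, h1, by simpa using h2, by simpa using h3⟩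
      · exact Or.inl ⟨p, true, h1, by simpa using h2, by simpa using h3⟩
    · cases b
      · exact Or.inl ⟨p, false, h1, by simpa using h2, by simpa using h3⟩
      · exact Or.inr ⟨p, true, h1, by simpa using h2, by simpa using h3⟩

open Classical in
lemma Lift.m_eq {t : ℕ} (ht : t < D.word.length) {Y Z : Λ} (hYZ : Y ≠ Z) :
    S.m t Y Z = if S.OU t Y Z then (if D.IsNeg t then -1 else 1) else 0 := by
  obtain ⟨⟨p, g⟩, he⟩ : ∃ e, D.word[t]? = some e := ⟨_, List.getElem?_eq_getElem ht⟩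
  cases g with
  | cup d =>
    have : ¬ S.OU t Y Z := by
      rintro ⟨p', b, h, -⟩
      rw [he] at h
      simp at h
    rw [if_neg this, (S.cup_spec he).1]
    rfl
  | cap =>
    have : ¬ S.OU t Y Z := by
      rintro ⟨p', b, h, -⟩
      rw [he] at h
      simp at h
    rw [if_neg this, (S.cap_spec he).1]
    rfl
  | cross b =>
    obtain ⟨⟨A, d⟩, ⟨B, d'⟩, k1, k2, k3, k4, k5, k6⟩ := S.cross_spec he
    have hneg : D.IsNeg t ↔ b ≠ (d == d') := by
      constructor
      · rintro ⟨p', b', h, h'⟩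
        rw [he] at h
        simp only [Option.some.injEq, Slice.mk.injEq, Piece.cross.injEq] at h
        obtain ⟨rfl, rfl⟩ := h
        rwa [S.up_eq k1, S.up_eq k2] at h'
      · intro h
        exact ⟨p, b, he, by rwa [S.up_eq k1, S.up_eq k2]⟩
    have hOU : S.OU t Y Z ↔ (A = if b then Y else Z) ∧ (B = if b then Z else Y) := by
      constructor
      · rintro ⟨p', b', h, h2, h3⟩
        rw [he] at h
        simp only [Option.some.injEq, Slice.mk.injEq, Piece.cross.injEq] at h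
        obtain ⟨rfl, rfl⟩ := h
        rw [Lift.lb_of_pt k1] at h2
        rw [Lift.lb_of_pt k2] at h3
        exact ⟨Option.some.inj h2, Option.some.inj h3⟩
      · rintro ⟨h2, h3⟩
        exact ⟨p, b, he, by rw [Lift.lb_of_pt k1, h2], by rw [Lift.lb_of_pt k2, h3]⟩
    rw [k6]
    cases b
    · have e1 : cm false (A, d) (B, d') Y Z = sg false d d' * E B A Y Z := by
        simp [cm]
      rw [e1]
      by_cases h : S.OU t Y Z
      · rw [if_pos h]
        obtain ⟨h1, h2⟩ := hOU.1 h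
        simp only [Bool.false_eq_true, if_false] at h1 h2
        subst h1 h2
        have e2 : E B A B A = 1 := by simp [E, hYZ]
        rw [e2, mul_one, sg]
        by_cases hn : false = (d == d')
        · rw [if_pos hn, if_neg]
          rw [hneg]
          simpa using hn
        · rw [if_neg hn, if_pos]
          rw [hneg]
          exact hn
      · rw [if_neg h]
        have e2 : E B A Y Z = 0 := by
          simp only [E]
          rw [if_neg]
          rintro ⟨h1, h2, -⟩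
          exact h (hOU.2 ⟨by simpa using h2.symm, by simpa using h1.symm⟩)
        rw [e2, mul_zero]
    · have e1 : cm true (A, d) (B, d') Y Z = sg true d d' * E A B Y Z := by
        simp [cm]
      rw [e1]
      by_cases h : S.OU t Y Z
      · rw [if_pos h]
        obtain ⟨h1, h2⟩ := hOU.1 h
        simp only [if_true] at h1 h2
        subst h1 h2
        have e2 : E A B A B = 1 := by simp [E, hYZ]
        rw [e2, mul_one, sg]
        by_cases hn : true = (d == d')
        · rw [if_pos hn, if_neg]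
          rw [hneg]
          simpa using hn
        · rw [if_neg hn, if_pos]
          rw [hneg]
          exact hn
      · rw [if_neg h]
        have e2 : E A B Y Z = 0 := by
          simp only [E]
          rw [if_neg]
          rintro ⟨h1, h2, -⟩
          exact h (hOU.2 ⟨by simpa using h1.symm, by simpa using h2.symm⟩)
        rw [e2, mul_zero]

/-- Total over-linking matrix of a lift. -/
def Lift.M (S : Lift D Λ) : Λ → Λ → ℤ := ∑ t ∈ Finset.range D.word.length, S.m t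

lemma Lift.OU.lt {t : ℕ} {Y Z : Λ} (h : S.OU t Y Z) : t < D.word.length := by
  obtain ⟨p, b, h, -⟩ := h
  exact (List.getElem?_eq_some_iff.1 h).1

open Classical in
lemma Lift.M_eq_card {Y Z : Λ} (hYZ : Y ≠ Z) (h : ∀ t, S.OU t Y Z → ¬ D.IsNeg t) :
    S.M Y Z = ((Finset.range D.word.length).filter (fun t => S.OU t Y Z)).card := by
  rw [Lift.M, Finset.sum_apply, Finset.sum_apply, Finset.card_filter, Nat.cast_sum]
  apply Finset.sum_congr rfl
  intro t ht
  rw [Lift.m_eq (Finset.mem_range.1 ht) hYZ]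
  by_cases h1 : S.OU t Y Z
  · rw [if_pos h1, if_pos h1, if_neg (h t h1)]
    rfl
  · rw [if_neg h1, if_neg h1]
    rfl

lemma Lift.no_OU {Y Z : Λ} (hYZ : Y ≠ Z) (h : ∀ t, S.OU t Y Z → ¬ D.IsNeg t)
    (hM : S.M Y Z = 0) (t : ℕ) : ¬ S.OU t Y Z := by
  classical
  intro ht
  rw [Lift.M_eq_card hYZ h] at hM
  have : ((Finset.range D.word.length).filter (fun t => S.OU t Y Z)).card = 0 := by
    exact_mod_cast hM
  rw [Finset.card_eq_zero] at this
  have h2 : t ∈ (Finset.range D.word.length).filter (fun t => S.OU t Y Z) :=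
    Finset.mem_filter.2 ⟨Finset.mem_range.2 ht.lt, ht⟩
  rw [this] at h2
  simp at h2

lemma Lift.one_OU {Y Z : Λ} (hYZ : Y ≠ Z) (h : ∀ t, S.OU t Y Z → ¬ D.IsNeg t)
    (hM : S.M Y Z = 1) : ∃ s, ∀ t, S.OU t Y Z ↔ t = s := by
  classical
  rw [Lift.M_eq_card hYZ h] at hM
  have : ((Finset.range D.word.length).filter (fun t => S.OU t Y Z)).card = 1 := by
    exact_mod_cast hM
  obtain ⟨s, hs⟩ := Finset.card_eq_one.1 this
  refine ⟨s, fun t => ?_⟩
  have h2 : t ∈ (Finset.range D.word.length).filter (fun t => S.OU t Y Z) ↔ t = s := by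
    rw [hs, Finset.mem_singleton]
  rw [← h2, Finset.mem_filter, Finset.mem_range]
  exact ⟨fun h => ⟨h.lt, h⟩, fun h => h.2⟩

/-- The negative crossings of a weakly successively almost positive diagram have over-strands
on one component. -/
lemma Lift.exists_X {k : ℕ} (hD : D.WSAP k) (hk : k ≠ 0) :
    ∃ X, ∀ t Y Z, D.IsNeg t → S.OU t Y Z → Y = X := by
  obtain ⟨q, m, ⟨hq, -, -⟩, hover⟩ := hD.2 hk
  have hq' : S.pt q ≠ none := by
    rw [S.state_eq, List.length_map] at hq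
    simp only [Lift.pt]
    rw [List.getElem?_eq_getElem hq]
    simp
  obtain ⟨⟨X, d⟩, hX⟩ := Option.ne_none_iff_exists'.1 hq'
  refine ⟨X, ?_⟩
  intro t Y Z hneg hOU
  obtain ⟨j, -, hj⟩ := hover t hneg
  have hl : S.lb (D.next^[j] q) = some X := by
    rw [S.lb_iterate hq', Lift.lb_of_pt hX]
  obtain ⟨p, b, he, hx⟩ := hj
  obtain ⟨p', b', he', h1, h2⟩ := hOU
  rw [he] at he'
  simp only [Option.some.injEq, Slice.mk.injEq, Piece.cross.injEq] at he'
  obtain ⟨rfl, rfl⟩ := he'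
  obtain ⟨A, B, k1, k2, k3, k4, -⟩ := Lift.cross_data (S := S) he
  rw [k1] at h1
  rw [k2] at h2
  have h1' := Option.some.inj h1
  have h2' := Option.some.inj h2
  cases hu : D.up (D.next^[j] q)
  · rw [hu] at hx
    simp only [Bool.false_eq_true, if_false] at hx
    rw [hx] at hl
    cases b
    · simp only [Bool.false_eq_true, if_false] at hl h1' h2'
      rw [k3, h2'] at hl
      exact Option.some.inj hl
    · simp only [if_true] at hl h1' h2'
      rw [k4, h1'] at hl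
      exact Option.some.inj hl
  · rw [hu] at hx
    simp only [if_true] at hx
    rw [hx] at hl
    cases b
    · simp only [Bool.false_eq_true, if_false] at hl h1' h2'
      rw [k2, h2'] at hl
      exact Option.some.inj hl
    · simp only [if_true] at hl h1' h2'
      rw [k1, h1'] at hl
      exact Option.some.inj hl

/-- Labels of the components of the example. -/
inductive Lb
  | C (i : ℕ)
  | P (b : Bool) (i : Fin 3)
  | T (b : Bool) (i : Fin 3)
  | U (b : Bool)
  | V (b : Bool)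
  | A

/-- The linking numbers of the example that are used. -/
structure LinkMat (k : ℕ) (M : Lb → Lb → ℤ) : Prop where
  CC : ∀ i j, i ≠ j → i < k + 4 → j < k + 4 → M (.C i) (.C j) = 0
  PP : ∀ b i j, i ≠ j → M (.P b i) (.P b j) = 0
  CP : ∀ b i j, i < k + 4 → M (.C i) (.P b j) = 1
  PC : ∀ b i j, i < k + 4 → M (.P b j) (.C i) = 1
  TP1 : ∀ b l i, i ≠ l → M (.T b l) (.P b i) = 1
  TP0 : ∀ b l, M (.T b l) (.P b l) = 0
  PT0 : ∀ b l, M (.P b l) (.T b l) = 0
  U1 : ∀ b j, j < k + 2 → M (.U b) (.C j) = 1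
  U0 : ∀ b j, k + 2 ≤ j → j < k + 4 → M (.U b) (.C j) = 0
  U0' : ∀ b j, k + 2 ≤ j → j < k + 4 → M (.C j) (.U b) = 0
  V1 : ∀ b j, 2 ≤ j → j < k + 4 → M (.V b) (.C j) = 1
  V0 : ∀ b j, j < 2 → M (.V b) (.C j) = 0
  V0' : ∀ b j, j < 2 → M (.C j) (.V b) = 0
  A1 : ∀ j, j < 2 → M (.C j) .A = 1
  A1' : ∀ j, k + 2 ≤ j → j < k + 4 → M (.C j) .A = 1
  A0 : ∀ j, 2 ≤ j → j < k + 2 → M .A (.C j) = 0
  A0' : ∀ j, 2 ≤ j → j < k + 2 → M (.C j) .A = 0

lemma Lift.no_meet {Y Z : Λ} (hYZ : Y ≠ Z) (h : ∀ t, S.OU t Y Z → ¬ D.IsNeg t)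
    (h' : ∀ t, S.OU t Z Y → ¬ D.IsNeg t)
    (hM : S.M Y Z = 0) (hM' : S.M Z Y = 0) (t : ℕ) : ¬ S.Meet t Y Z := by
  rw [Lift.meet_iff_OU]
  rintro (h1 | h1)
  · exact Lift.no_OU hYZ h hM t h1
  · exact Lift.no_OU hYZ.symm h' hM' t h1

lemma Lift.two_meet {Y Z : Λ} (hYZ : Y ≠ Z) (h : ∀ t, S.OU t Y Z → ¬ D.IsNeg t)
    (h' : ∀ t, S.OU t Z Y → ¬ D.IsNeg t)
    (hM : S.M Y Z = 1) (hM' : S.M Z Y = 1) :
    ∃ t₁ t₂, t₁ ≠ t₂ ∧ ∀ t, S.Meet t Y Z ↔ t = t₁ ∨ t = t₂ := by
  obtain ⟨s, hs⟩ := Lift.one_OU hYZ h hM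
  obtain ⟨s', hs'⟩ := Lift.one_OU hYZ.symm h' hM'
  refine ⟨s, s', ?_, ?_⟩
  · rintro rfl
    have := ((hs s).2 rfl).unique ((hs' s).2 rfl)
    exact hYZ this.1
  · intro t
    rw [Lift.meet_iff_OU, hs, hs']

lemma Lift.some_meet {Y Z : Λ} (hYZ : Y ≠ Z) (h : ∀ t, S.OU t Y Z → ¬ D.IsNeg t)
    (hM : S.M Y Z = 1) : ∃ t, S.Meet t Y Z := by
  obtain ⟨s, hs⟩ := Lift.one_OU hYZ h hM
  exact ⟨s, Lift.meet_iff_OU.2 (Or.inl ((hs s).2 rfl))⟩

lemma exists_sigma {ι : Type*} {f : ℕ × ℕ → ZMod 2} {L : ι → ℕ × ℕ → Prop}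
    (h : ∀ i j x y, L i x → L j y → f x = f y) : ∃ σ, ∀ i x, L i x → f x + σ = 0 := by
  by_cases hx : ∃ i x, L i x
  · obtain ⟨i, x, hx⟩ := hx
    refine ⟨f x, fun j y hy => ?_⟩
    rw [h j i y x hy hx, z2_add_self]
  · exact ⟨0, fun i x h' => absurd ⟨i, x, h'⟩ hx⟩

/-- Three pairwise disjoint curves, each two of which are joined by a connector avoiding the
third. -/
lemma Lift.side_triple {c w : Fin 3 → Λ} (hc : Function.Injective c)
    (hcon : ∀ i, S.Conn (c i)) (hw : ∀ i, S.Conn (w i)) (hwc : ∀ i j, w i ≠ c j)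
    (hcc : ∀ i j, i ≠ j → ∀ t, ¬ S.Meet t (c i) (c j))
    (h0 : ∀ l t, ¬ S.Meet t (w l) (c l)) (h1 : ∀ l i, i ≠ l → ∃ t, S.Meet t (w l) (c i))
    (l : Fin 3) : ∃ σ, ∀ i, i ≠ l → ∀ x, S.lb x = some (c i) → S.side (c l) x + σ = 0 := by
  have key : ∀ i j : {i : Fin 3 // i ≠ l}, ∀ x y, S.lb x = some (c i.1) → S.lb y = some (c j.1) →
      S.side (c l) x = S.side (c l) y := by
    rintro ⟨i, hi⟩ ⟨j, hj⟩ x y hx hy
    exact Lift.side_conn (W := w l) (hcon i) (hcon j) (hw l) (fun h => hi (hc h))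
      (fun h => hj (hc h)) (hwc l l) (hcc i l hi) (hcc j l hj) (h0 l) (hwc l i) (hwc l j)
      (h1 l i hi) (h1 l j hj) hx hy
  obtain ⟨σ, h⟩ := exists_sigma (f := S.side (c l))
    (L := fun (i : {i : Fin 3 // i ≠ l}) x => S.lb x = some (c i.1)) key
  exact ⟨σ, fun i hi x hx => h ⟨i, hi⟩ x hx⟩

theorem lower_aux {k : ℕ} {S : Lift D Lb} (hM : LinkMat k S.M) (hconn : ∀ Y, S.Conn Y) {X : Lb}
    (hX : ∀ t Y Z, D.IsNeg t → S.OU t Y Z → Y = X) {j : ℕ} (hj : 2 ≤ j) (hj' : j < k + 2)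
    (hjX : Lb.C j ≠ X) (hA : ∀ t, ¬ S.Meet t .A (.C j)) : False := by
  -- choices avoiding `X`
  obtain ⟨i, hi, hiX⟩ : ∃ i, i < 2 ∧ Lb.C i ≠ X := by
    by_cases h : Lb.C 0 = X
    · exact ⟨1, by omega, by rw [← h]; simp⟩
    · exact ⟨0, by omega, h⟩
  obtain ⟨o, ho, ho', hoX⟩ : ∃ o, k + 2 ≤ o ∧ o < k + 4 ∧ Lb.C o ≠ X := by
    by_cases h : Lb.C (k + 2) = X
    · exact ⟨k + 3, by omega, by omega, by rw [← h]; simp⟩
    · exact ⟨k + 2, by omega, by omega, h⟩
  obtain ⟨b, hPX, hTX⟩ : ∃ b, (∀ l, Lb.P b l ≠ X) ∧ (∀ l, Lb.T b l ≠ X) := by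
    by_cases h : (∃ l, Lb.P true l = X) ∨ (∃ l, Lb.T true l = X)
    · refine ⟨false, ?_, ?_⟩
      · intro l hl
        rcases h with ⟨l', h⟩ | ⟨l', h⟩ <;> · rw [← h] at hl; simp at hl
      · intro l hl
        rcases h with ⟨l', h⟩ | ⟨l', h⟩ <;> · rw [← h] at hl; simp at hl
    · push Not at h
      exact ⟨true, h.1, h.2⟩
  obtain ⟨b₁, hUX⟩ : ∃ b₁, Lb.U b₁ ≠ X := by
    by_cases h : Lb.U true = X
    · exact ⟨false, by rw [← h]; simp⟩
    · exact ⟨true, h⟩
  obtain ⟨b₂, hVX⟩ : ∃ b₂, Lb.V b₂ ≠ X := by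
    by_cases h : Lb.V true = X
    · exact ⟨false, by rw [← h]; simp⟩
    · exact ⟨true, h⟩
  have pos : ∀ {Y Z}, Y ≠ X → ∀ t, S.OU t Y Z → ¬ D.IsNeg t :=
    fun hY t hOU hneg => hY (hX t _ _ hneg hOU)
  -- the triples
  let ci : Fin 3 → ℕ := ![i, j, o]
  let c : Fin 3 → Lb := fun l => .C (ci l)
  have hcX : ∀ l, c l ≠ X := by
    intro l
    fin_cases l
    · exact hiX
    · exact hjX
    · exact hoX
  have hci : ∀ l, ci l < k + 4 := by
    intro l
    fin_cases l
    · show i < k + 4; omega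
    · show j < k + 4; omega
    · exact ho'
  have hcinj : Function.Injective ci := by
    intro a b hab
    fin_cases a <;> fin_cases b <;> first | rfl | (exfalso; simp [ci] at hab; omega)
  have cinj : Function.Injective c := by
    intro a b hab
    exact hcinj (by simpa [c] using hab)
  let p : Fin 3 → Lb := fun l => .P b l
  have pinj : Function.Injective p := by
    intro a b' hab
    simpa [p] using hab
  have cc : ∀ l l', l ≠ l' → ∀ t, ¬ S.Meet t (c l) (c l') := by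
    intro l l' hl
    exact Lift.no_meet (fun h => hl (cinj h)) (pos (hcX l)) (pos (hcX l'))
      (hM.CC _ _ (fun h => hl (hcinj h)) (hci l) (hci l'))
      (hM.CC _ _ (fun h => hl (hcinj h.symm)) (hci l') (hci l))
  have pp : ∀ l l', l ≠ l' → ∀ t, ¬ S.Meet t (p l) (p l') := by
    intro l l' hl
    exact Lift.no_meet (fun h => hl (pinj h)) (pos (hPX l)) (pos (hPX l'))
      (hM.PP b _ _ hl) (hM.PP b _ _ hl.symm)
  -- connectors
  let w : Fin 3 → Lb := ![.V b₂, .A, .U b₁]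
  have hw0 : ∀ l t, ¬ S.Meet t (w l) (c l) := by
    intro l
    fin_cases l
    · exact Lift.no_meet (Y := .V b₂) (Z := .C i) (by simp) (pos hVX) (pos hiX) (hM.V0 _ _ hi)
        (hM.V0' _ _ hi)
    · exact hA
    · exact Lift.no_meet (Y := .U b₁) (Z := .C o) (by simp) (pos hUX) (pos hoX) (hM.U0 _ _ ho ho')
        (hM.U0' _ _ ho ho')
  have hw1 : ∀ l l', l' ≠ l → ∃ t, S.Meet t (w l) (c l') := by
    intro l l' hl
    fin_cases l
    · fin_cases l'
      · exact absurd rfl hl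
      · exact Lift.some_meet (Y := .V b₂) (Z := .C j) (by simp) (pos hVX)
          (hM.V1 _ _ hj (by omega))
      · exact Lift.some_meet (Y := .V b₂) (Z := .C o) (by simp) (pos hVX)
          (hM.V1 _ _ (by omega) ho')
    · fin_cases l'
      · obtain ⟨t, ht⟩ := Lift.some_meet (Y := .C i) (Z := .A) (by simp) (pos hiX) (hM.A1 _ hi)
        exact ⟨t, ht.symm⟩
      · exact absurd rfl hl
      · obtain ⟨t, ht⟩ := Lift.some_meet (Y := .C o) (Z := .A) (by simp) (pos hoX)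
          (hM.A1' _ ho ho')
        exact ⟨t, ht.symm⟩
    · fin_cases l'
      · exact Lift.some_meet (Y := .U b₁) (Z := .C i) (by simp) (pos hUX)
          (hM.U1 _ _ (by omega))
      · exact Lift.some_meet (Y := .U b₁) (Z := .C j) (by simp) (pos hUX)
          (hM.U1 _ _ hj')
      · exact absurd rfl hl
  let v : Fin 3 → Lb := fun l => .T b l
  have K : S.K33 c p :=
    { cinj := cinj
      pinj := pinj
      ne := by intro l l'; simp [c, p]
      cc := cc
      pp := pp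
      ccon := fun l => hconn _
      pcon := fun l => hconn _
      cp := by
        intro l l'
        exact Lift.two_meet (by simp [c, p]) (pos (hcX l)) (pos (hPX l'))
          (hM.CP b _ _ (hci l)) (hM.PC b _ _ (hci l))
      cside := Lift.side_triple (w := w) cinj (fun l => hconn _) (fun l => hconn _)
        (by intro l l'; fin_cases l <;> simp [w, c]) cc hw0 hw1
      pside := Lift.side_triple (w := v) pinj (fun l => hconn _) (fun l => hconn _)
        (by intro l l'; simp [v, p]) pp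
        (fun l => Lift.no_meet (by simp [v, p]) (pos (hTX l)) (pos (hPX l)) (hM.TP0 b l)
          (hM.PT0 b l))
        (fun l l' hl => Lift.some_meet (by simp [v, p]) (pos (hTX l)) (hM.TP1 b l l' hl)) }
  exact K.false

theorem lower_bound {k k' : ℕ} (hk : k' < k) {S : Lift D Lb} (hM : LinkMat k S.M)
    (hconn : ∀ Y, S.Conn Y) (hD : D.WSAP k') : False := by
  have caseA : (∀ t Y Z, D.IsNeg t → S.OU t Y Z → Y = .A) → False := by
    intro hX
    obtain ⟨j, hj, hj', hneg⟩ : ∃ j, 2 ≤ j ∧ j < k + 2 ∧ ∀ t, S.OU t .A (.C j) → ¬ D.IsNeg t := by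
      by_contra hcon
      push Not at hcon
      choose f hf hf' using fun j : Fin k => hcon (j + 2) (by omega) (by omega)
      have hinj : Function.Injective f := by
        intro a b hab
        have h1 := hf a
        rw [hab] at h1
        have h2 := (h1.unique (hf b)).2
        simp only [Lb.C.injEq] at h2
        ext
        omega
      have hfin : {t | D.IsNeg t}.Finite := by
        apply Set.Finite.subset (Set.finite_Iio D.word.length)
        rintro t ⟨p, b, he, -⟩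
        exact (List.getElem?_eq_some_iff.1 he).1
      have hsub : Set.range f ⊆ {t | D.IsNeg t} := by
        rintro _ ⟨a, rfl⟩
        exact hf' a
      have h3 := Set.ncard_le_ncard hsub hfin
      rw [hD.1, ← Set.image_univ, Set.ncard_image_of_injective _ hinj, Set.ncard_univ,
        Nat.card_eq_fintype_card, Fintype.card_fin] at h3
      omega
    have pos : ∀ {Y Z}, Y ≠ .A → ∀ t, S.OU t Y Z → ¬ D.IsNeg t :=
      fun hY t hOU hneg => hY (hX t _ _ hneg hOU)
    exact lower_aux hM hconn hX hj hj' (by simp)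
      (Lift.no_meet (by simp) hneg (pos (by simp)) (hM.A0 _ hj hj') (hM.A0' _ hj hj'))
  rcases Nat.eq_zero_or_pos k' with h0 | h0
  · apply caseA
    intro t Y Z hneg
    exfalso
    have hfin : {t | D.IsNeg t}.Finite := by
      apply Set.Finite.subset (Set.finite_Iio D.word.length)
      rintro t ⟨p, b, he, -⟩
      exact (List.getElem?_eq_some_iff.1 he).1
    have h1 := hD.1
    rw [h0, Set.ncard_eq_zero hfin] at h1
    have h2 : t ∈ {t | D.IsNeg t} := hneg
    rw [h1] at h2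
    exact h2
  · obtain ⟨X, hX⟩ := Lift.exists_X (S := S) hD (by omega)
    by_cases hXA : X = .A
    · subst hXA
      exact caseA hX
    · obtain ⟨j, hj, hj', hjX⟩ : ∃ j, 2 ≤ j ∧ j < k + 2 ∧ Lb.C j ≠ X := by
        by_cases h : Lb.C 2 = X
        · exact ⟨3, by omega, by omega, by rw [← h]; simp⟩
        · exact ⟨2, by omega, by omega, h⟩
      have pos : ∀ {Y Z}, Y ≠ X → ∀ t, S.OU t Y Z → ¬ D.IsNeg t :=
        fun hY t hOU hneg => hY (hX t _ _ hneg hOU)
      exact lower_aux hM hconn hX hj hj' hjX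
        (Lift.no_meet (by simp) (pos (Ne.symm hXA)) (pos hjX) (hM.A0 _ hj hj') (hM.A0' _ hj hj'))

end Pool.Agent.Lib_helper21.Wsap
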