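import Pool.Agent.Lib_helper21.WsapExample

namespace Pool.Agent.Lib_helper21.Wsap

universe u
variable {Λ : Type u}

open Classical in
lemma oM_Cl {a : Lb} (ha : ∀ j, a ≠ .C j) (c m : ℕ) (x y : Lb) :
    oM a (Cl c m) x y = if x = a ∧ (∃ j, y = .C j ∧ c ≤ j ∧ j < c + m) then 1 else 0 := by
  induction m generalizing c with
  | zero =>
    rw [if_neg]
    · simp [Cl, oM]
    · rintro ⟨-, j, -, h1, h2⟩
      omega
  | succ m ih =>
    have e : Cl c (m + 1) = .C c :: Cl (c + 1) m := by
      rw [Nat.add_comm m 1, Cl_add]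
      simp [Cl]
    rw [e, oM, Pi.add_apply, Pi.add_apply, ih]
    by_cases hx : x = a
    · subst hx
      by_cases hy : y = .C c
      · subst hy
        have h1 : ¬ ∃ j, Lb.C c = .C j ∧ c + 1 ≤ j ∧ j < c + 1 + m := by
          rintro ⟨j, h, h'⟩
          simp only [Lb.C.injEq] at h
          omega
        have h2 : ∃ j, Lb.C c = .C j ∧ c ≤ j ∧ j < c + (m + 1) := ⟨c, rfl, le_rfl, by omega⟩
        simp [E, ha]
      · have h3 : (∃ j, y = .C j ∧ c + 1 ≤ j ∧ j < c + 1 + m) ↔
            (∃ j, y = .C j ∧ c ≤ j ∧ j < c + (m + 1)) := by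
          constructor
          · rintro ⟨j, h, h'⟩
            exact ⟨j, h, by omega, by omega⟩
          · rintro ⟨j, h, h'⟩
            refine ⟨j, h, ?_, by omega⟩
            have : j ≠ c := by
              rintro rfl
              exact hy h
            omega
        have hE : E x (.C c) x y = 0 := by simp [E, hy]
        rw [hE, zero_add]
        by_cases h4 : ∃ j, y = .C j ∧ c ≤ j ∧ j < c + (m + 1)
        · rw [if_pos ⟨rfl, h3.2 h4⟩, if_pos ⟨rfl, h4⟩]
        · rw [if_neg (fun h => h4 (h3.1 h.2)), if_neg (fun h => h4 h.2)]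
    · simp [E, hx]

open Classical in
lemma iM_Cl {a : Lb} (ha : ∀ j, a ≠ .C j) (c m : ℕ) (x y : Lb) :
    iM a (Cl c m) x y = if y = a ∧ (∃ j, x = .C j ∧ c ≤ j ∧ j < c + m) then 1 else 0 := by
  induction m generalizing c with
  | zero =>
    rw [if_neg]
    · simp [Cl, iM]
    · rintro ⟨-, j, -, h1, h2⟩
      omega
  | succ m ih =>
    have e : Cl c (m + 1) = .C c :: Cl (c + 1) m := by
      rw [Nat.add_comm m 1, Cl_add]
      simp [Cl]
    rw [e, iM, Pi.add_apply, Pi.add_apply, ih]
    by_cases hx : y = a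
    · subst hx
      by_cases hy : x = .C c
      · subst hy
        have h1 : ¬ ∃ j, Lb.C c = .C j ∧ c + 1 ≤ j ∧ j < c + 1 + m := by
          rintro ⟨j, h, h'⟩
          simp only [Lb.C.injEq] at h
          omega
        have h2 : ∃ j, Lb.C c = .C j ∧ c ≤ j ∧ j < c + (m + 1) := ⟨c, rfl, le_rfl, by omega⟩
        simp [E, (ha c).symm]
      · have h3 : (∃ j, x = .C j ∧ c + 1 ≤ j ∧ j < c + 1 + m) ↔
            (∃ j, x = .C j ∧ c ≤ j ∧ j < c + (m + 1)) := by
          constructor
          · rintro ⟨j, h, h'⟩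
            exact ⟨j, h, by omega, by omega⟩
          · rintro ⟨j, h, h'⟩
            refine ⟨j, h, ?_, by omega⟩
            have : j ≠ c := by
              rintro rfl
              exact hy h
            omega
        have hE : E (.C c) y x y = 0 := by simp [E, hy]
        rw [hE, add_zero]
        by_cases h4 : ∃ j, x = .C j ∧ c ≤ j ∧ j < c + (m + 1)
        · rw [if_pos ⟨rfl, h3.2 h4⟩, if_pos ⟨rfl, h4⟩]
        · rw [if_neg (fun h => h4 (h3.1 h.2)), if_neg (fun h => h4 h.2)]
    · simp [E, hx]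

lemma exM_eval (k : ℕ) (x y : Lb) : exM k x y =
    gadM k x y + oM .A (Cl 0 (k + 4)) x y + iM .A (Cl (k + 2) 2) x y - oM .A (Cl 2 k) x y +
      iM .A (Cl 0 2) x y := by
  simp only [exM, Pi.add_apply, Pi.neg_apply]
  ring

set_option maxHeartbeats 4000000 in
lemma exM_linkMat (k : ℕ) : LinkMat k (exM k) := by
  have hP : ∀ b i j, Lb.P b i ≠ .C j := by intro b i j; simp
  have hT : ∀ b i j, Lb.T b i ≠ .C j := by intro b i j; simp
  have hU : ∀ b j, Lb.U b ≠ .C j := by intro b j; simp
  have hV : ∀ b j, Lb.V b ≠ .C j := by intro b j; simp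
  have hA : ∀ j, Lb.A ≠ .C j := by intro j; simp
  constructor
  · intro i j _ _ _
    simp [exM_eval, gadM, blockM, clM, E, oM_Cl, iM_Cl]
  · intro b i j hij
    cases b <;> fin_cases i <;> fin_cases j <;>
      simp [exM_eval, gadM, blockM, clM, E, oM_Cl, iM_Cl]
  · intro b i j hi
    cases b <;> fin_cases j <;>
      simp [exM_eval, gadM, blockM, clM, E, oM_Cl, iM_Cl, hi]
  · intro b i j hi
    cases b <;> fin_cases j <;>
      simp [exM_eval, gadM, blockM, clM, E, oM_Cl, iM_Cl, hi]
  · intro b l i hi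
    cases b <;> fin_cases l <;> fin_cases i <;>
      simp [exM_eval, gadM, blockM, clM, E, oM_Cl, iM_Cl] at hi ⊢
  · intro b l
    cases b <;> fin_cases l <;>
      simp [exM_eval, gadM, blockM, clM, E, oM_Cl, iM_Cl]
  · intro b l
    cases b <;> fin_cases l <;>
      simp [exM_eval, gadM, blockM, clM, E, oM_Cl, iM_Cl]
  · intro b j hj
    cases b <;> simp [exM_eval, gadM, blockM, clM, E, oM_Cl, iM_Cl, hj]
  · intro b j hj hj'
    have h1 : ¬ j < k + 2 := by omega
    cases b <;> simp [exM_eval, gadM, blockM, clM, E, oM_Cl, iM_Cl, h1]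
  · intro b j hj hj'
    have h1 : ¬ j < k + 2 := by omega
    cases b <;> simp [exM_eval, gadM, blockM, clM, E, oM_Cl, iM_Cl, h1]
  · intro b j hj hj'
    have h1 : j < 2 + (k + 2) := by omega
    cases b <;> simp [exM_eval, gadM, blockM, clM, E, oM_Cl, iM_Cl, h1, hj]
  · intro b j hj
    have h1 : ¬ 2 ≤ j := by omega
    cases b <;> simp [exM_eval, gadM, blockM, clM, E, oM_Cl, iM_Cl, h1]
  · intro b j hj
    have h1 : ¬ 2 ≤ j := by omega
    cases b <;> simp [exM_eval, gadM, blockM, clM, E, oM_Cl, iM_Cl, h1]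
  · intro j hj
    have h1 : ¬ k + 2 ≤ j := by omega
    simp [exM_eval, gadM, blockM, clM, E, oM_Cl, iM_Cl, h1]
    omega
  · intro j hj hj'
    have h2 : j < k + 2 + 2 := by omega
    simp [exM_eval, gadM, blockM, clM, E, oM_Cl, iM_Cl, h2, hj]
    omega
  · intro j hj hj'
    have h2 : j < 2 + k := by omega
    have h3 : j < k + 4 := by omega
    simp [exM_eval, gadM, blockM, clM, E, oM_Cl, iM_Cl, h2, h3, hj]
  · intro j hj hj'
    have h2 : ¬ k + 2 ≤ j := by omega
    simp [exM_eval, gadM, blockM, clM, E, oM_Cl, iM_Cl, h2]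
    omega

/-! ### Counting components -/

lemma ncup_append (w w' : List Slice) : ncup (w ++ w') = ncup w + ncup w' := by
  induction w with
  | nil => simp [ncup]
  | cons e w ih =>
    obtain ⟨p, g⟩ := e
    cases g
    · simp only [List.cons_append, ncup, ih]
      omega
    · simp only [List.cons_append, ncup, ih]
    · simp only [List.cons_append, ncup, ih]

lemma ncup_sh (w : List Slice) (n : ℕ) : ncup (w.map (sh n)) = ncup w := by
  induction w with
  | nil => rfl
  | cons e w ih =>
    obtain ⟨p, g⟩ := e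
    cases g <;> simp [sh, ncup] <;> exact ih

lemma ncup_outw (m : ℕ) : ncup (outw m) = 0 := by
  induction m with
  | zero => rfl
  | succ m ih => simp [outw, ncup, ncup_sh, ih]

lemma ncup_inw (l : List Bool) : ncup (inw l) = 0 := by
  induction l with
  | nil => rfl
  | cons b l ih => simp [inw, ncup, ncup_append, ncup_sh, ih]

lemma ncup_radial (m : ℕ) (tip : List Slice) : ncup (radial m tip) = 1 + ncup tip := by
  simp only [radial, ncup, ncup_append, ncup_sh, ncup_outw, ncup_inw]
  omega

lemma ncup_cupsw (m : ℕ) : ncup (cupsw m) = m := by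
  induction m with
  | zero => rfl
  | succ m ih => simp [cupsw, ncup, ncup_sh, ih]

lemma ncup_capsw (m : ℕ) : ncup (capsw m) = 0 := by
  induction m with
  | zero => rfl
  | succ m ih => simp [capsw, ncup, ncup_append, ncup_sh, ih]

lemma ncup_exD (k : ℕ) : ncup (exD k).word = k + 21 := by
  simp only [exD, wpre, wpost, aneg, gad, apre, apost, block, cup1, cap1, clasp, ncup_append,
    ncup_sh, ncup_outw, ncup_inw, ncup_radial, ncup_cupsw, ncup_capsw, ncup]

lemma Lift.mem_allLabels {D : Diagram} (S : Lift D Λ) {x : ℕ × ℕ} {a : Λ}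
    (h : S.lb x = some a) : a ∈ S.allLabels := by
  obtain ⟨d, hd⟩ := S.pt_of_lb h
  exact ⟨x, d, hd⟩

lemma Lift.finite_allLabels {D : Diagram} (S : Lift D Λ) : S.allLabels.Finite := by
  have h1 : (some '' S.allLabels).Finite := by
    apply Set.Finite.subset (S.finite_valid.image S.lb)
    rintro _ ⟨a, ⟨x, d, hx⟩, rfl⟩
    exact ⟨x, by simp [hx], Lift.lb_of_pt hx⟩
  exact Set.Finite.of_finite_image h1 ((Option.some_injective _).injOn)

lemma Lift.mem_of_M {D : Diagram} (S : Lift D Λ) {a b : Λ} (hab : a ≠ b) (h : S.M a b ≠ 0) :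
    a ∈ S.allLabels ∧ b ∈ S.allLabels := by
  classical
  have : ∃ t, S.OU t a b := by
    by_contra hn
    push Not at hn
    apply h
    rw [Lift.M_eq_card hab (fun t ht => absurd ht (hn t))]
    simp [hn]
  obtain ⟨t, p, c, he, h1, h2⟩ := this
  cases c
  · simp only [Bool.false_eq_true, if_false] at h1 h2
    exact ⟨S.mem_allLabels h2, S.mem_allLabels h1⟩
  · simp only [if_true] at h1 h2
    exact ⟨S.mem_allLabels h1, S.mem_allLabels h2⟩

/-- The list of labels of the example. -/
def lbList (k : ℕ) : List Lb := (List.range (k + 4)).map Lb.C ++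
  [.P false 0, .P false 1, .P false 2, .P true 0, .P true 1, .P true 2,
   .T false 0, .T false 1, .T false 2, .T true 0, .T true 1, .T true 2,
   .U false, .U true, .V false, .V true, .A]

lemma lbList_nodup (k : ℕ) : (lbList k).Nodup := by
  rw [lbList, List.nodup_append]
  refine ⟨?_, ?_, ?_⟩
  · exact List.Nodup.map (fun a b h => by simpa using h) List.nodup_range
  · simp
  · intro a ha b hb
    simp only [List.mem_map] at ha
    obtain ⟨j, -, rfl⟩ := ha
    rintro rfl
    simp at hb

lemma lbList_length (k : ℕ) : (lbList k).length = k + 21 := by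
  simp [lbList]

lemma Lift.card_allLabels {D : Diagram} {k : ℕ} (S : Lift D Lb) (hM : LinkMat k S.M) :
    k + 21 ≤ S.allLabels.ncard := by
  classical
  have hsub : ((lbList k).toFinset : Set Lb) ⊆ S.allLabels := by
    intro a ha
    simp only [List.coe_toFinset, Set.mem_ofPred_eq, lbList, List.mem_append, List.mem_map,
      List.mem_range] at ha
    have hP : ∀ b i, Lb.P b i ∈ S.allLabels := fun b i =>
      (S.mem_of_M (a := .P b i) (b := .C 0) (by simp) (by rw [hM.PC b 0 i (by omega)]; simp)).1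
    have hT : ∀ b i, Lb.T b i ∈ S.allLabels := fun b i => by
      obtain ⟨j, hj⟩ : ∃ j : Fin 3, j ≠ i := by
        revert i
        decide
      exact (S.mem_of_M (a := .T b i) (b := .P b j) (by simp)
        (by rw [hM.TP1 b i j hj]; simp)).1
    have hU : ∀ b, Lb.U b ∈ S.allLabels := fun b =>
      (S.mem_of_M (a := .U b) (b := .C 0) (by simp) (by rw [hM.U1 b 0 (by omega)]; simp)).1
    have hV : ∀ b, Lb.V b ∈ S.allLabels := fun b =>
      (S.mem_of_M (a := .V b) (b := .C 2) (by simp) (by rw [hM.V1 b 2 le_rfl (by omega)]; simp)).1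
    have hA : Lb.A ∈ S.allLabels :=
      (S.mem_of_M (a := .C 0) (b := .A) (by simp) (by rw [hM.A1 0 (by omega)]; simp)).2
    rcases ha with ⟨j, hj, rfl⟩ | ha
    · exact (S.mem_of_M (a := .C j) (b := .P true 0) (by simp)
        (by rw [hM.CP true j 0 hj]; simp)).1
    · simp only [List.mem_cons, List.not_mem_nil, or_false] at ha
      rcases ha with rfl | rfl | rfl | rfl | rfl | rfl | rfl | rfl | rfl | rfl | rfl | rfl | rfl |
        rfl | rfl | rfl | rfl
      all_goals first | exact hP _ _ | exact hT _ _ | exact hU _ | exact hV _ | exact hA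
  have h1 := Set.ncard_le_ncard hsub S.finite_allLabels
  rw [Set.ncard_coe_finset, List.toFinset_card_of_nodup (lbList_nodup k), lbList_length] at h1
  exact h1

lemma exists_lift {D : Diagram} {M : Λ → Λ → ℤ} {K : Set Λ} (h : LRun D.word [] [] M K) :
    ∃ S : Lift D Λ, S.M = M := by
  obtain ⟨σ, m, h0, hT, hE, rfl, -⟩ := LRun_seq h
  exact ⟨⟨σ, m, h0, hT, hE⟩, rfl⟩

theorem ex_not_wsap {k k' : ℕ} (hk : k' < k) :
    ¬ Link.WSAP (Quot.mk Step (exD k)) k' := by
  rintro ⟨D, hD, hW⟩
  obtain ⟨K, hK⟩ := ex_run k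
  have hK' : LRun (exD k).word [] [] (exM k) K := hK
  rw [← LRun_transport hD] at hK'
  obtain ⟨S, hS⟩ := exists_lift hK'
  have hM : LinkMat k S.M := by
    rw [hS]
    exact exM_linkMat k
  refine lower_bound hk hM ?_ hW
  intro Y x y hx hy
  apply S.connected hD ?_ (Lift.valid_of_lb hx) (hx.trans hy.symm)
  rw [ncup_exD]
  exact S.card_allLabels hM

end Pool.Agent.Lib_helper21.Wsap
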