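import Pool.Agent.Lib_helper21.WsapLab

namespace Pool.Agent.Lib_helper21.Wsap

universe u
variable {Λ : Type u}

/-- A labelled lift of a diagram. -/
structure Lift (D : Diagram) (Λ : Type u) where
  σ : ℕ → St Λ
  m : ℕ → Λ → Λ → ℤ
  zero : σ 0 = []
  top : ∀ t, D.word.length ≤ t → σ t = []
  eff : ∀ t (ht : t < D.word.length),
    EffAt (D.word[t]).pos (D.word[t]).piece (σ t) (σ (t + 1)) (m t)

variable {D : Diagram} (S : Lift D Λ)

/-- Label and direction at a point. -/
def Lift.pt (x : ℕ × ℕ) : Option (Λ × Bool) := (S.σ x.1)[x.2]?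

lemma Lift.state_eq (t : ℕ) : D.state t = (S.σ t).map Prod.snd := by
  have key : ∀ t ≤ D.word.length, run (D.word.take t) [] = some ((S.σ t).map Prod.snd) := by
    intro t
    induction t with
    | zero => intro _; simp [run, S.zero]
    | succ t ih =>
      intro ht
      have ht' : t < D.word.length := by omega
      rw [List.take_succ_eq_append_getElem ht', run_append, ih (by omega)]
      simp [run, (S.eff t ht').act]
  by_cases ht : t ≤ D.word.length
  · simp [Diagram.state, key t ht]
  · rw [Diagram.state, List.take_of_length_le (by omega), D.closed, S.top t (by omega)]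
    rfl

lemma Lift.up_eq {x : ℕ × ℕ} {a : Λ} {d : Bool} (h : S.pt x = some (a, d)) : D.up x = d := by
  rw [Diagram.up, S.state_eq]
  simp only [Lift.pt] at h
  simp [List.getD_eq_getElem?_getD, h]

lemma Lift.lt_of_pt {x : ℕ × ℕ} (h : S.pt x ≠ none) : x.1 < D.word.length := by
  by_contra hx
  apply h
  rw [Lift.pt, S.top _ (by omega)]
  simp

lemma Lift.pos_of_pt {x : ℕ × ℕ} (h : S.pt x ≠ none) : 0 < x.1 := by
  rcases Nat.eq_zero_or_pos x.1 with hx | hx
  · exfalso
    apply h
    rw [Lift.pt, hx, S.zero]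
    simp
  · exact hx

section slices

variable {t p : ℕ} {d b : Bool}

lemma Lift.cup_spec (h : D.word[t]? = some ⟨p, .cup d⟩) :
    S.m t = 0 ∧ (∀ i < p, S.pt (t + 1, i) = S.pt (t, i)) ∧
      (∀ i, p ≤ i → S.pt (t + 1, i + 2) = S.pt (t, i)) ∧
      ∃ a, S.pt (t + 1, p) = some (a, d) ∧ S.pt (t + 1, p + 1) = some (a, !d) := by
  obtain ⟨ht, h⟩ := List.getElem?_eq_some_iff.1 h
  have := S.eff t ht
  rw [h] at this
  exact EffAt_cup_iff.1 this

lemma Lift.cap_spec (h : D.word[t]? = some ⟨p, .cap⟩) :
    S.m t = 0 ∧ (∀ i < p, S.pt (t + 1, i) = S.pt (t, i)) ∧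
      (∀ i, p ≤ i → S.pt (t + 1, i) = S.pt (t, i + 2)) ∧
      ∃ a d, S.pt (t, p) = some (a, d) ∧ S.pt (t, p + 1) = some (a, !d) := by
  obtain ⟨ht, h⟩ := List.getElem?_eq_some_iff.1 h
  have := S.eff t ht
  rw [h] at this
  exact EffAt_cap_iff.1 this

lemma Lift.cross_spec (h : D.word[t]? = some ⟨p, .cross b⟩) :
    ∃ x y, S.pt (t, p) = some x ∧ S.pt (t, p + 1) = some y ∧ S.pt (t + 1, p) = some y ∧
      S.pt (t + 1, p + 1) = some x ∧
      (∀ i, i ≠ p → i ≠ p + 1 → S.pt (t + 1, i) = S.pt (t, i)) ∧ S.m t = cm b x y := by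
  obtain ⟨ht, h⟩ := List.getElem?_eq_some_iff.1 h
  have := S.eff t ht
  rw [h] at this
  exact EffAt_cross_iff.1 this

end slices

/-- One step along the diagram from the point `x` in vertical direction `u`:
new vertical direction and new point. -/
def Diagram.dart (D : Diagram) (u : Bool) (x : ℕ × ℕ) : Bool × (ℕ × ℕ) :=
  if u then
    let r := (D.slice x.1).fromBelow x.2
    (r.1, (if r.1 then x.1 + 1 else x.1, r.2))
  else
    let r := (D.slice (x.1 - 1)).fromAbove x.2
    (r.1, (if r.1 then x.1 else x.1 - 1, r.2))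

lemma Diagram.next_eq_dart (x : ℕ × ℕ) : D.next x = (D.dart (D.up x) x).2 := by
  rw [Diagram.next, Diagram.dart]
  split <;> rfl

lemma Diagram.slice_eq {t : ℕ} {e : Slice} (h : D.word[t]? = some e) : D.slice t = e := by
  simp [Diagram.slice, h]

lemma Lift.dart_pt {x : ℕ × ℕ} {a : Λ} {d : Bool} (h : S.pt x = some (a, d)) :
    S.pt (D.dart d x).2 = some (a, (D.dart d x).1) := by
  obtain ⟨t, i⟩ := x
  have hlt : t < D.word.length := S.lt_of_pt (x := (t, i)) (by rw [h]; simp)
  have hpos : 0 < t := S.pos_of_pt (x := (t, i)) (by rw [h]; simp)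
  cases d with
  | true =>
    obtain ⟨e, he⟩ : ∃ e, D.word[t]? = some e := ⟨_, List.getElem?_eq_getElem hlt⟩
    obtain ⟨p, g⟩ := e
    cases g with
    | cup d =>
      obtain ⟨-, h1, h2, -⟩ := S.cup_spec he
      by_cases hi : i < p
      · simp [Diagram.dart, D.slice_eq he, Slice.fromBelow, hi, h1 i hi, h]
      · simp [Diagram.dart, D.slice_eq he, Slice.fromBelow, hi, h2 i (by omega), h]
    | cap =>
      obtain ⟨-, h1, h2, c, e, h3, h4⟩ := S.cap_spec he
      by_cases hi : i < p
      · simp [Diagram.dart, D.slice_eq he, Slice.fromBelow, hi, h1 i hi, h]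
      · by_cases hi' : i = p
        · subst hi'
          rw [h] at h3
          simp only [Option.some.injEq, Prod.mk.injEq] at h3
          obtain ⟨rfl, rfl⟩ := h3
          simp [Diagram.dart, D.slice_eq he, Slice.fromBelow, h4]
        · by_cases hi'' : i = p + 1
          · subst hi''
            rw [h] at h4
            simp only [Option.some.injEq, Prod.mk.injEq] at h4
            obtain ⟨rfl, h5⟩ := h4
            have : e = false := by simpa using h5.symm
            subst this
            simp [Diagram.dart, D.slice_eq he, Slice.fromBelow, h3]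
          · have h5 := h2 (i - 2) (by omega)
            rw [show i - 2 + 2 = i by omega, h] at h5
            simp [Diagram.dart, D.slice_eq he, Slice.fromBelow, hi, hi', hi'', h5]
    | cross b =>
      obtain ⟨x, y, h1, h2, h3, h4, h5, -⟩ := S.cross_spec he
      by_cases hi : i = p
      · subst hi
        rw [h] at h1
        simp [Diagram.dart, D.slice_eq he, Slice.fromBelow, h4, ← h1]
      · by_cases hi' : i = p + 1
        · subst hi'
          rw [h] at h2
          simp [Diagram.dart, D.slice_eq he, Slice.fromBelow, h3, ← h2]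
        · simp [Diagram.dart, D.slice_eq he, Slice.fromBelow, hi, hi', h5 i hi hi', h]
  | false =>
    obtain ⟨s, rfl⟩ : ∃ s, t = s + 1 := ⟨t - 1, by omega⟩
    obtain ⟨e, he⟩ : ∃ e, D.word[s]? = some e :=
      ⟨_, List.getElem?_eq_getElem (show s < D.word.length by omega)⟩
    obtain ⟨p, g⟩ := e
    cases g with
    | cup d =>
      obtain ⟨-, h1, h2, c, h3, h4⟩ := S.cup_spec he
      by_cases hi : i < p
      · simp [Diagram.dart, D.slice_eq he, Slice.fromAbove, hi, ← h1 i hi, h]
      · by_cases hi' : i = p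
        · subst hi'
          rw [h] at h3
          simp only [Option.some.injEq, Prod.mk.injEq] at h3
          obtain ⟨rfl, rfl⟩ := h3
          simp [Diagram.dart, D.slice_eq he, Slice.fromAbove, h4]
        · by_cases hi'' : i = p + 1
          · subst hi''
            rw [h] at h4
            simp only [Option.some.injEq, Prod.mk.injEq] at h4
            obtain ⟨rfl, h5⟩ := h4
            have : d = true := by simpa using h5.symm
            subst this
            simp [Diagram.dart, D.slice_eq he, Slice.fromAbove, h3]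
          · have h5 := h2 (i - 2) (by omega)
            rw [show i - 2 + 2 = i by omega, h] at h5
            simp [Diagram.dart, D.slice_eq he, Slice.fromAbove, hi, hi', hi'', ← h5]
    | cap =>
      obtain ⟨-, h1, h2, -⟩ := S.cap_spec he
      by_cases hi : i < p
      · simp [Diagram.dart, D.slice_eq he, Slice.fromAbove, hi, ← h1 i hi, h]
      · simp [Diagram.dart, D.slice_eq he, Slice.fromAbove, hi, ← h2 i (by omega), h]
    | cross b =>
      obtain ⟨x, y, h1, h2, h3, h4, h5, -⟩ := S.cross_spec he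
      by_cases hi : i = p
      · subst hi
        rw [h] at h3
        simp [Diagram.dart, D.slice_eq he, Slice.fromAbove, h2, ← h3]
      · by_cases hi' : i = p + 1
        · subst hi'
          rw [h] at h4
          simp [Diagram.dart, D.slice_eq he, Slice.fromAbove, h1, ← h4]
        · simp [Diagram.dart, D.slice_eq he, Slice.fromAbove, hi, hi', ← h5 i hi hi', h]

lemma Diagram.dart_rev (u : Bool) (x : ℕ × ℕ) (hx : u = false → 0 < x.1) :
    D.dart (!(D.dart u x).1) (D.dart u x).2 = (!u, x) := by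
  obtain ⟨t, i⟩ := x
  cases u with
  | true =>
    cases he : D.slice t with
    | mk p g =>
      cases g with
      | cup d =>
        by_cases hi : i < p
        · simp [Diagram.dart, he, Slice.fromBelow, Slice.fromAbove, hi]
        · have h1 : ¬ (i + 2 < p) := by omega
          have h2 : ¬ (i + 2 = p) := by omega
          have h3 : ¬ (i + 1 = p) := by omega
          simp [Diagram.dart, he, Slice.fromBelow, Slice.fromAbove, hi, h1, h2, h3]
      | cap =>
        by_cases hi : i < p
        · simp [Diagram.dart, he, Slice.fromBelow, Slice.fromAbove, hi]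
        · by_cases hi' : i = p
          · subst hi'
            simp [Diagram.dart, he, Slice.fromBelow]
          · by_cases hi'' : i = p + 1
            · subst hi''
              simp [Diagram.dart, he, Slice.fromBelow]
            · have h1 : ¬ (i - 2 < p) := by omega
              have h2 : i - 2 + 2 = i := by omega
              simp [Diagram.dart, he, Slice.fromBelow, Slice.fromAbove, hi, hi', hi'', h1, h2]
      | cross b =>
        by_cases hi' : i = p
        · subst hi'
          simp [Diagram.dart, he, Slice.fromBelow, Slice.fromAbove]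
        · by_cases hi'' : i = p + 1
          · subst hi''
            simp [Diagram.dart, he, Slice.fromBelow, Slice.fromAbove]
          · simp [Diagram.dart, he, Slice.fromBelow, Slice.fromAbove, hi', hi'']
  | false =>
    obtain ⟨s, rfl⟩ : ∃ s, t = s + 1 := ⟨t - 1, by have := hx rfl; simp at this; omega⟩
    cases he : D.slice s with
    | mk p g =>
      cases g with
      | cup d =>
        by_cases hi : i < p
        · simp [Diagram.dart, he, Slice.fromBelow, Slice.fromAbove, hi]
        · by_cases hi' : i = p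
          · subst hi'
            simp [Diagram.dart, he, Slice.fromAbove]
          · by_cases hi'' : i = p + 1
            · subst hi''
              simp [Diagram.dart, he, Slice.fromAbove]
            · have h1 : ¬ (i - 2 < p) := by omega
              have h2 : i - 2 + 2 = i := by omega
              simp [Diagram.dart, he, Slice.fromBelow, Slice.fromAbove, hi, hi', hi'', h1, h2]
      | cap =>
        by_cases hi : i < p
        · simp [Diagram.dart, he, Slice.fromBelow, Slice.fromAbove, hi]
        · have h1 : ¬ (i + 2 < p) := by omega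
          have h2 : ¬ (i + 2 = p) := by omega
          have h3 : ¬ (i + 1 = p) := by omega
          simp [Diagram.dart, he, Slice.fromBelow, Slice.fromAbove, hi, h1, h2, h3]
      | cross b =>
        by_cases hi' : i = p
        · subst hi'
          simp [Diagram.dart, he, Slice.fromBelow, Slice.fromAbove]
        · by_cases hi'' : i = p + 1
          · subst hi''
            simp [Diagram.dart, he, Slice.fromBelow, Slice.fromAbove]
          · simp [Diagram.dart, he, Slice.fromBelow, Slice.fromAbove, hi', hi'']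

lemma Lift.next_pt {x : ℕ × ℕ} {a : Λ} {d : Bool} (h : S.pt x = some (a, d)) :
    S.pt (D.next x) = some (a, (D.dart d x).1) := by
  rw [Diagram.next_eq_dart, S.up_eq h]
  exact S.dart_pt h

lemma Lift.next_inj {x y : ℕ × ℕ} (hx : S.pt x ≠ none) (hy : S.pt y ≠ none)
    (h : D.next x = D.next y) : x = y := by
  obtain ⟨⟨a, d⟩, hx⟩ := Option.ne_none_iff_exists'.1 hx
  obtain ⟨⟨b, e⟩, hy⟩ := Option.ne_none_iff_exists'.1 hy
  have h1 := S.next_pt hx
  have h2 := S.next_pt hy
  rw [h, h2] at h1
  simp only [Option.some.injEq, Prod.mk.injEq] at h1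
  have hde : D.dart d x = D.dart e y := by
    apply Prod.ext
    · exact h1.2.symm
    · rw [Diagram.next_eq_dart, Diagram.next_eq_dart, S.up_eq hx, S.up_eq hy] at h
      exact h
  have r1 := D.dart_rev d x (fun _ => S.pos_of_pt (by rw [hx]; simp))
  have r2 := D.dart_rev e y (fun _ => S.pos_of_pt (by rw [hy]; simp))
  rw [hde, r2] at r1
  exact (congrArg Prod.snd r1).symm

/-- The crossing (if any) that one meets immediately after `x`. -/
def Diagram.cr (D : Diagram) (x : ℕ × ℕ) : Option ℕ :=
  match D.word[if D.up x then x.1 else x.1 - 1]? with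
  | some ⟨p, .cross _⟩ =>
      if x.2 = p ∨ x.2 = p + 1 then some (if D.up x then x.1 else x.1 - 1) else none
  | _ => none

/-- `x` and `y` are the two ends of a piece of strand inside one slice, which meets the
crossing `c` (or none). -/
def Diagram.Adj (D : Diagram) (c : Option ℕ) (x y : ℕ × ℕ) : Prop :=
  (D.next x = y ∧ D.cr x = c) ∨ (D.next y = x ∧ D.cr y = c)

section adj

variable {t p i : ℕ} {d b : Bool}

lemma Lift.cup_adj₁ (h : D.word[t]? = some ⟨p, .cup d⟩) (hi : i < p)
    (hv : S.pt (t, i) ≠ none) : D.Adj none (t, i) (t + 1, i) := by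
  obtain ⟨-, h1, h2, -⟩ := S.cup_spec h
  obtain ⟨⟨a, e⟩, hx⟩ := Option.ne_none_iff_exists'.1 hv
  have hy := h1 i hi
  rw [hx] at hy
  have ux := S.up_eq hx
  have uy := S.up_eq hy
  cases e with
  | true =>
    left
    simp [Diagram.next, Diagram.cr, ux, D.slice_eq h, h, Slice.fromBelow, hi]
  | false =>
    right
    simp [Diagram.next, Diagram.cr, uy, D.slice_eq h, h, Slice.fromAbove, hi]

lemma Lift.cup_adj₂ (h : D.word[t]? = some ⟨p, .cup d⟩) (hi : p ≤ i)
    (hv : S.pt (t, i) ≠ none) : D.Adj none (t, i) (t + 1, i + 2) := by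
  obtain ⟨-, h1, h2, -⟩ := S.cup_spec h
  obtain ⟨⟨a, e⟩, hx⟩ := Option.ne_none_iff_exists'.1 hv
  have hy := h2 i hi
  rw [hx] at hy
  have ux := S.up_eq hx
  have uy := S.up_eq hy
  cases e with
  | true =>
    left
    have hi' : ¬ i < p := by omega
    simp [Diagram.next, Diagram.cr, ux, D.slice_eq h, h, Slice.fromBelow, hi']
  | false =>
    right
    have h3 : ¬ (i + 2 < p) := by omega
    have h4 : ¬ (i + 2 = p) := by omega
    have h5 : ¬ (i + 1 = p) := by omega
    simp [Diagram.next, Diagram.cr, uy, D.slice_eq h, h, Slice.fromAbove, h3, h4, h5]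

include S in
lemma Lift.cup_adj₃ (h : D.word[t]? = some ⟨p, .cup d⟩) :
    D.Adj none (t + 1, p) (t + 1, p + 1) := by
  obtain ⟨-, -, -, a, h1, h2⟩ := S.cup_spec h
  have ux := S.up_eq h1
  have uy := S.up_eq h2
  cases d with
  | true =>
    right
    simp [Diagram.next, Diagram.cr, uy, D.slice_eq h, h, Slice.fromAbove]
  | false =>
    left
    simp [Diagram.next, Diagram.cr, ux, D.slice_eq h, h, Slice.fromAbove]

lemma Lift.cap_adj₁ (h : D.word[t]? = some ⟨p, .cap⟩) (hi : i < p)
    (hv : S.pt (t, i) ≠ none) : D.Adj none (t, i) (t + 1, i) := by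
  obtain ⟨-, h1, h2, -⟩ := S.cap_spec h
  obtain ⟨⟨a, e⟩, hx⟩ := Option.ne_none_iff_exists'.1 hv
  have hy := h1 i hi
  rw [hx] at hy
  have ux := S.up_eq hx
  have uy := S.up_eq hy
  cases e with
  | true =>
    left
    simp [Diagram.next, Diagram.cr, ux, D.slice_eq h, h, Slice.fromBelow, hi]
  | false =>
    right
    simp [Diagram.next, Diagram.cr, uy, D.slice_eq h, h, Slice.fromAbove, hi]

lemma Lift.cap_adj₂ (h : D.word[t]? = some ⟨p, .cap⟩) (hi : p ≤ i)
    (hv : S.pt (t + 1, i) ≠ none) : D.Adj none (t, i + 2) (t + 1, i) := by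
  obtain ⟨-, h1, h2, -⟩ := S.cap_spec h
  obtain ⟨⟨a, e⟩, hy⟩ := Option.ne_none_iff_exists'.1 hv
  have hx := (h2 i hi).symm
  rw [hy] at hx
  have ux := S.up_eq hx
  have uy := S.up_eq hy
  cases e with
  | true =>
    left
    have h3 : ¬ (i + 2 < p) := by omega
    have h4 : ¬ (i + 2 = p) := by omega
    have h5 : ¬ (i + 1 = p) := by omega
    simp [Diagram.next, Diagram.cr, ux, D.slice_eq h, h, Slice.fromBelow, h3, h4, h5]
  | false =>
    right
    have hi' : ¬ i < p := by omega
    simp [Diagram.next, Diagram.cr, uy, D.slice_eq h, h, Slice.fromAbove, hi']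

include S in
lemma Lift.cap_adj₃ (h : D.word[t]? = some ⟨p, .cap⟩) :
    D.Adj none (t, p) (t, p + 1) := by
  obtain ⟨-, -, -, a, d, h1, h2⟩ := S.cap_spec h
  have ux := S.up_eq h1
  have uy := S.up_eq h2
  cases d with
  | true =>
    left
    simp [Diagram.next, Diagram.cr, ux, D.slice_eq h, h, Slice.fromBelow]
  | false =>
    right
    simp [Diagram.next, Diagram.cr, uy, D.slice_eq h, h, Slice.fromBelow]

lemma Lift.cross_adj₁ (h : D.word[t]? = some ⟨p, .cross b⟩) (hi : i ≠ p) (hi' : i ≠ p + 1)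
    (hv : S.pt (t, i) ≠ none) : D.Adj none (t, i) (t + 1, i) := by
  obtain ⟨x, y, h1, h2, h3, h4, h5, -⟩ := S.cross_spec h
  obtain ⟨⟨a, e⟩, hx⟩ := Option.ne_none_iff_exists'.1 hv
  have hy := h5 i hi hi'
  rw [hx] at hy
  have ux := S.up_eq hx
  have uy := S.up_eq hy
  cases e with
  | true =>
    left
    simp [Diagram.next, Diagram.cr, ux, D.slice_eq h, h, Slice.fromBelow, hi, hi']
  | false =>
    right
    simp [Diagram.next, Diagram.cr, uy, D.slice_eq h, h, Slice.fromAbove, hi, hi']

include S in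
lemma Lift.cross_adj₂ (h : D.word[t]? = some ⟨p, .cross b⟩) :
    D.Adj (some t) (t, p) (t + 1, p + 1) := by
  obtain ⟨⟨a, e⟩, y, h1, h2, h3, h4, h5, -⟩ := S.cross_spec h
  have ux := S.up_eq h1
  have uy := S.up_eq h4
  cases e with
  | true =>
    left
    simp [Diagram.next, Diagram.cr, ux, D.slice_eq h, h, Slice.fromBelow]
  | false =>
    right
    simp [Diagram.next, Diagram.cr, uy, D.slice_eq h, h, Slice.fromAbove]

include S in
lemma Lift.cross_adj₃ (h : D.word[t]? = some ⟨p, .cross b⟩) :
    D.Adj (some t) (t, p + 1) (t + 1, p) := by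
  obtain ⟨x, ⟨a, e⟩, h1, h2, h3, h4, h5, -⟩ := S.cross_spec h
  have ux := S.up_eq h2
  have uy := S.up_eq h3
  cases e with
  | true =>
    left
    simp [Diagram.next, Diagram.cr, ux, D.slice_eq h, h, Slice.fromBelow]
  | false =>
    right
    simp [Diagram.next, Diagram.cr, uy, D.slice_eq h, h, Slice.fromAbove]

end adj

/-- Label at a point. -/
def Lift.lb (x : ℕ × ℕ) : Option Λ := (S.pt x).map Prod.fst

lemma Lift.lb_ne_none {x : ℕ × ℕ} : S.lb x ≠ none ↔ S.pt x ≠ none := by
  simp [Lift.lb]

lemma Lift.lb_next {x : ℕ × ℕ} (h : S.pt x ≠ none) : S.lb (D.next x) = S.lb x := by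
  obtain ⟨⟨a, e⟩, hx⟩ := Option.ne_none_iff_exists'.1 h
  rw [Lift.lb, Lift.lb, S.next_pt hx, hx]
  rfl

lemma Lift.next_valid {x : ℕ × ℕ} (h : S.pt x ≠ none) : S.pt (D.next x) ≠ none := by
  obtain ⟨⟨a, e⟩, hx⟩ := Option.ne_none_iff_exists'.1 h
  rw [S.next_pt hx]
  simp

lemma Lift.iterate_valid {x : ℕ × ℕ} (h : S.pt x ≠ none) (n : ℕ) :
    S.pt (D.next^[n] x) ≠ none := by
  induction n with
  | zero => exact h
  | succ n ih =>
    rw [Function.iterate_succ_apply']
    exact S.next_valid ih

lemma Lift.lb_iterate {x : ℕ × ℕ} (h : S.pt x ≠ none) (n : ℕ) :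
    S.lb (D.next^[n] x) = S.lb x := by
  induction n with
  | zero => rfl
  | succ n ih =>
    rw [Function.iterate_succ_apply', S.lb_next (S.iterate_valid h n), ih]

lemma Lift.finite_valid : {x | S.pt x ≠ none}.Finite := by
  apply Set.Finite.subset (Finset.finite_toSet (Finset.range D.word.length ×ˢ
    Finset.range (∑ t ∈ Finset.range D.word.length, (S.σ t).length)))
  rintro ⟨t, i⟩ h
  have h' : S.pt (t, i) ≠ none := h
  have ht := S.lt_of_pt h'
  simp only [Finset.coe_product, Finset.coe_range, Set.mem_prod, Set.mem_Iio]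
  refine ⟨ht, ?_⟩
  have hi : i < (S.σ t).length := by
    by_contra hi
    apply h'
    simp only [Lift.pt]
    exact List.getElem?_eq_none (by omega)
  exact hi.trans_le (Finset.single_le_sum (f := fun t => (S.σ t).length)
    (fun _ _ => Nat.zero_le _) (Finset.mem_range.2 ht))

lemma Lift.mem_periodicPts {x : ℕ × ℕ} (h : S.pt x ≠ none) :
    x ∈ Function.periodicPts D.next := by
  have hf : Finite {x | S.pt x ≠ none} := S.finite_valid
  let f : {x | S.pt x ≠ none} → {x | S.pt x ≠ none} := fun x => ⟨D.next x.1, S.next_valid x.2⟩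
  have hinj : Function.Injective f := by
    intro x y hxy
    apply Subtype.ext
    exact S.next_inj x.2 y.2 (congrArg Subtype.val hxy)
  have := hinj.mem_periodicPts ⟨x, h⟩
  have hsemi : Function.Semiconj (Subtype.val) f D.next := fun _ => rfl
  exact hsemi.mapsTo_periodicPts this

/-- The orbit of a point. -/
def Diagram.orb (D : Diagram) (x : ℕ × ℕ) : Set (ℕ × ℕ) := {y | ∃ m, D.next^[m] x = y}

include S in
lemma Lift.orb_next {x : ℕ × ℕ} (h : S.pt x ≠ none) : D.orb (D.next x) = D.orb x := by
  ext y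
  constructor
  · rintro ⟨m, rfl⟩
    exact ⟨m + 1, by rw [Function.iterate_succ_apply]⟩
  · rintro ⟨m, rfl⟩
    obtain ⟨n, hn, hp⟩ := Function.mem_periodicPts.1 (S.mem_periodicPts h)
    refine ⟨m + (n - 1), ?_⟩
    rw [← Function.iterate_succ_apply, show (m + (n - 1)).succ = m + n by omega,
      Function.iterate_add_apply, hp.eq]

include S in
lemma Lift.orb_adj {x y : ℕ × ℕ} {c : Option ℕ} (hx : S.pt x ≠ none) (hy : S.pt y ≠ none)
    (h : D.Adj c x y) : D.orb x = D.orb y := by
  rcases h with ⟨h, -⟩ | ⟨h, -⟩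
  · rw [← h, S.orb_next hx]
  · rw [← h, S.orb_next hy]

variable {Λ' : Type u}

/-- Refine the labels by a function of the points. -/
def Lift.relabel (f : ℕ × ℕ → Λ') (t : ℕ) : St (Λ × Λ') :=
  (S.σ t).mapIdx (fun i q => ((q.1, f (t, i)), q.2))

lemma Lift.relabel_getElem? (f : ℕ × ℕ → Λ') (t i : ℕ) :
    (S.relabel f t)[i]? = (S.pt (t, i)).map (fun q => ((q.1, f (t, i)), q.2)) := by
  simp [Lift.relabel, Lift.pt]

lemma Lift.relabel_eff (f : ℕ × ℕ → Λ')
    (hf : ∀ c x y, S.pt x ≠ none → S.pt y ≠ none → D.Adj c x y → f x = f y)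
    (t : ℕ) (ht : t < D.word.length) :
    ∃ M, EffAt (D.word[t]).pos (D.word[t]).piece (S.relabel f t) (S.relabel f (t + 1)) M := by
  obtain ⟨⟨p, g⟩, he⟩ : ∃ e, D.word[t]? = some e := ⟨_, List.getElem?_eq_getElem ht⟩
  have he' : D.word[t] = ⟨p, g⟩ := (List.getElem?_eq_some_iff.1 he).2
  rw [he']
  have none_of : ∀ {x y : ℕ × ℕ}, S.pt x = S.pt y →
      (S.pt x ≠ none → S.pt y ≠ none → f x = f y) →
      (S.pt x).map (fun q => ((q.1, f x), q.2)) = (S.pt y).map (fun q => ((q.1, f y), q.2)) := by
    intro x y h1 h2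
    by_cases hx : S.pt x = none
    · rw [← h1, hx]
      rfl
    · rw [h2 hx (by rwa [← h1]), h1]
  cases g with
  | cup d =>
    obtain ⟨-, h1, h2, a, h3, h4⟩ := S.cup_spec he
    refine ⟨0, EffAt_cup_iff.2 ⟨rfl, ?_, ?_, (a, f (t + 1, p)), ?_, ?_⟩⟩
    · intro i hi
      rw [S.relabel_getElem?, S.relabel_getElem?]
      exact none_of (h1 i hi) (fun hx hy => (hf none _ _ hy hx (S.cup_adj₁ he hi hy)).symm)
    · intro i hi
      rw [S.relabel_getElem?, S.relabel_getElem?]
      exact none_of (h2 i hi) (fun hx hy => (hf none _ _ hy hx (S.cup_adj₂ he hi hy)).symm)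
    · rw [S.relabel_getElem?, h3]
      rfl
    · rw [S.relabel_getElem?, h4, hf none _ _ (by rw [h3]; simp) (by rw [h4]; simp) (S.cup_adj₃ he)]
      rfl
  | cap =>
    obtain ⟨-, h1, h2, a, d, h3, h4⟩ := S.cap_spec he
    refine ⟨0, EffAt_cap_iff.2 ⟨rfl, ?_, ?_, (a, f (t, p)), d, ?_, ?_⟩⟩
    · intro i hi
      rw [S.relabel_getElem?, S.relabel_getElem?]
      exact none_of (h1 i hi) (fun hx hy => (hf none _ _ hy hx (S.cap_adj₁ he hi hy)).symm)
    · intro i hi
      rw [S.relabel_getElem?, S.relabel_getElem?]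
      exact none_of (h2 i hi) (fun hx hy => (hf none _ _ hy hx (S.cap_adj₂ he hi hx)).symm)
    · rw [S.relabel_getElem?, h3]
      rfl
    · rw [S.relabel_getElem?, h4, hf none _ _ (by rw [h3]; simp) (by rw [h4]; simp) (S.cap_adj₃ he)]
      rfl
  | cross b =>
    obtain ⟨x, y, h1, h2, h3, h4, h5, -⟩ := S.cross_spec he
    refine ⟨_, EffAt_cross_iff.2 ⟨((x.1, f (t, p)), x.2), ((y.1, f (t, p + 1)), y.2),
      ?_, ?_, ?_, ?_, ?_, rfl⟩⟩
    · rw [S.relabel_getElem?, h1]
      rfl
    · rw [S.relabel_getElem?, h2]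
      rfl
    · rw [S.relabel_getElem?, h3, hf _ _ _ (by rw [h2]; simp) (by rw [h3]; simp) (S.cross_adj₃ he)]
      rfl
    · rw [S.relabel_getElem?, h4, hf _ _ _ (by rw [h1]; simp) (by rw [h4]; simp) (S.cross_adj₂ he)]
      rfl
    · intro i hi hi'
      rw [S.relabel_getElem?, S.relabel_getElem?]
      exact none_of (h5 i hi hi') (fun hx hy => (hf none _ _ hy hx (S.cross_adj₁ he hi hi' hy)).symm)

lemma mem_labs_iff {s : St Λ} {a : Λ} :
    a ∈ labs s ↔ ∃ (i : ℕ) (d : Bool), s[i]? = some (a, d) := by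
  simp only [labs, Set.mem_ofPred_eq, List.mem_iff_getElem?]
  constructor
  · rintro ⟨d, i, h⟩
    exact ⟨i, d, h⟩
  · rintro ⟨i, d, h⟩
    exact ⟨d, i, h⟩

/-- All labels of a lift. -/
def Lift.allLabels : Set Λ := {a | ∃ x d, S.pt x = some (a, d)}

/-- If a lift of a diagram has at least as many labels as some other diagram of the same link
has cups, then points with the same label lie on the same component. -/
theorem Lift.connected {D₀ : Diagram} (h : (Quot.mk Step D : Link) = Quot.mk Step D₀)
    (S : Lift D Λ) (hK : ncup D₀.word ≤ S.allLabels.ncard) {x y : ℕ × ℕ}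
    (hx : S.pt x ≠ none) (hxy : S.lb x = S.lb y) : y ∈ D.orb x := by
  classical
  have hex : ∃ (Λ' : Type u) (f : ℕ × ℕ → Λ'), ∀ x y, f x = f y ↔ D.orb x = D.orb y :=
    ⟨ULift (Set (ℕ × ℕ)), fun x => ⟨D.orb x⟩, fun x y => by simp⟩
  obtain ⟨Λ', f, hf⟩ := hex
  have hadj : ∀ c x y, S.pt x ≠ none → S.pt y ≠ none → D.Adj c x y → f x = f y :=
    fun c x y hx hy ha => (hf x y).2 (S.orb_adj hx hy ha)
  choose m hm using S.relabel_eff f hadj
  let m' : ℕ → Λ × Λ' → Λ × Λ' → ℤ := fun t => if ht : t < D.word.length then m t ht else 0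
  have hrun := LRun_of_seq (w := D.word) (σ := S.relabel f) (m := m') (by
    intro t ht
    have : m' t = m t ht := by simp [m', ht]
    rw [this]
    exact hm t ht)
  have h0 : S.relabel f 0 = [] := by simp [Lift.relabel, S.zero]
  have hT : S.relabel f D.word.length = [] := by simp [Lift.relabel, S.top]
  rw [h0, hT] at hrun
  set K' := {a | ∃ t ≤ D.word.length, a ∈ labs (S.relabel f t)} with hK'
  have hmem : ∀ z a d, S.pt z = some (a, d) → (a, f z) ∈ K' := by
    intro z a d hz
    refine ⟨z.1, (S.lt_of_pt (by rw [hz]; simp)).le, ?_⟩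
    rw [mem_labs_iff]
    refine ⟨z.2, d, ?_⟩
    rw [S.relabel_getElem?, hz]
    rfl
  obtain ⟨F, hF, hc, hKF⟩ := LRun_card ((LRun_transport h _ _).1 hrun)
  rw [labs_nil, Set.empty_union] at hKF
  have hfin : K'.Finite := hF.subset hKF
  have himg : Prod.fst '' K' = S.allLabels := by
    ext a
    constructor
    · rintro ⟨⟨a, o⟩, ⟨t, -, hz⟩, rfl⟩
      rw [mem_labs_iff] at hz
      obtain ⟨i, d, hz⟩ := hz
      rw [S.relabel_getElem?] at hz
      cases hq : S.pt (t, i) with
      | none => rw [hq] at hz; simp at hz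
      | some q =>
        rw [hq] at hz
        simp only [Option.map_some, Option.some.injEq, Prod.mk.injEq] at hz
        exact ⟨(t, i), q.2, by rw [hq, ← hz.1.1]⟩
    · rintro ⟨z, d, hz⟩
      exact ⟨(a, f z), hmem z a d hz, rfl⟩
  have hinj : Set.InjOn Prod.fst K' := by
    apply Set.injOn_of_ncard_image_eq _ hfin
    apply le_antisymm (Set.ncard_image_le hfin)
    rw [himg]
    exact (Set.ncard_le_ncard hKF hF).trans (hc.trans hK)
  obtain ⟨⟨a, d⟩, hxa⟩ := Option.ne_none_iff_exists'.1 hx
  have hy : S.pt y ≠ none := by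
    rw [← S.lb_ne_none, ← hxy, S.lb_ne_none]
    exact hx
  obtain ⟨⟨b, e⟩, hyb⟩ := Option.ne_none_iff_exists'.1 hy
  have hab : a = b := by
    rw [Lift.lb, Lift.lb, hxa, hyb] at hxy
    simpa using hxy
  subst hab
  have := hinj (hmem x a d hxa) (hmem y a e hyb) rfl
  have horb : D.orb x = D.orb y := (hf x y).1 (congrArg Prod.snd this)
  rw [horb]
  exact ⟨0, rfl⟩

end Pool.Agent.Lib_helper21.Wsap
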