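import Pool.Agent.Lib_helper21.WsapExample

namespace Pool.Agent.Lib_helper21.Wsap

lemma PosW.at {w : List Slice} {s s₁ : List Bool} (h : PosW w s) {t p : ℕ} {b : Bool}
    (he : w[t]? = some ⟨p, .cross b⟩) (hs : run (w.take t) s = some s₁) :
    b = (s₁.getD p false == s₁.getD (p + 1) false) := by
  induction w generalizing s t with
  | nil => simp at he
  | cons e w ih =>
    cases t with
    | zero =>
      simp only [List.getElem?_cons_zero, Option.some.injEq] at he
      subst he
      simp only [List.take_zero, run, Option.some.injEq] at hs
      subst hs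
      exact h.1 b rfl
    | succ t =>
      simp only [List.getElem?_cons_succ] at he
      simp only [List.take_succ_cons, run, Option.bind_eq_some_iff] at hs
      obtain ⟨s₂, h2, h3⟩ := hs
      exact ih (h.2 s₂ h2) he h3

lemma run_take_some {w : List Slice} {s s' : List Bool} (h : run w s = some s') (t : ℕ) :
    ∃ s₁, run (w.take t) s = some s₁ := by
  rw [← List.take_append_drop t w, run_append] at h
  cases h1 : run (w.take t) s with
  | none => rw [h1] at h; simp at h
  | some s₁ => exact ⟨s₁, rfl⟩

lemma act_cross_same {p : ℕ} {b d : Bool} {s : List Bool} (h1 : s[p]? = some d)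
    (h2 : s[p + 1]? = some d) : actAt p (.cross b) s = some s := by
  induction p generalizing s with
  | zero =>
    match s with
    | [] => simp at h1
    | [_] => simp at h2
    | x :: y :: r =>
      simp only [List.getElem?_cons_zero, List.getElem?_cons_succ, Option.some.injEq,
        zero_add] at h1 h2
      subst h1 h2
      rfl
  | succ p ih =>
    cases s with
    | nil => simp at h1
    | cons x s =>
      simp only [List.getElem?_cons_succ] at h1 h2
      simp [actAt, ih h1 h2]

lemma run_same {w : List Slice} {s : List Bool}
    (h : ∀ e ∈ w, actAt e.pos e.piece s = some s) : run w s = some s := by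
  induction w with
  | nil => rfl
  | cons e w ih =>
    simp [run, h e (by simp), ih (fun f hf => h f (by simp [hf]))]

lemma inw_getElem? (m j : ℕ) : (inw (List.replicate m false))[j]? =
    if j < m then some ⟨m - 1 - j, .cross false⟩ else none := by
  induction m generalizing j with
  | zero => simp [inw]
  | succ m ih =>
    have hlen : ((inw (List.replicate m false)).map (sh 1)).length = m := by
      clear ih
      induction m with
      | zero => simp [inw]
      | succ m ih => simpa [List.replicate_succ, inw] using ih
    rw [List.replicate_succ, inw]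
    rcases Nat.lt_trichotomy j m with h | h | h
    · rw [List.getElem?_append_left (by omega), List.getElem?_map, ih, if_pos h, if_pos (by omega)]
      simp only [Option.map_some, sh, Option.some.injEq, Slice.mk.injEq, and_true]
      omega
    · subst h
      rw [List.getElem?_append_right (by omega), hlen, if_pos (by omega)]
      simp
    · rw [if_neg (by omega)]
      apply List.getElem?_eq_none
      simp only [List.length_append, hlen, List.length_singleton]
      omega

lemma aneg_getElem? (k j : ℕ) : (aneg k)[j]? =
    if j < k then some ⟨2 * k + 6 - j, .cross false⟩ else none := by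
  rw [aneg, List.getElem?_map, inw_getElem?]
  by_cases h : j < k
  · rw [if_pos h, if_pos h]
    simp only [Option.map_some, sh, Option.some.injEq, Slice.mk.injEq, and_true]
    omega
  · rw [if_neg h, if_neg h]
    rfl

lemma aneg_length (k : ℕ) : (aneg k).length = k := by
  apply le_antisymm
  · by_contra h
    have h1 : k < (aneg k).length := by omega
    have h2 := List.getElem?_eq_getElem h1
    rw [aneg_getElem?, if_neg (lt_irrefl k)] at h2
    exact absurd h2 (by simp)
  · by_contra h
    have h1 : (aneg k).length < k := by omega
    have h2 := aneg_getElem? k (aneg k).length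
    rw [if_pos h1, List.getElem?_eq_none le_rfl] at h2
    exact absurd h2 (by simp)

/-- Directions around the negative crossings. -/
def dir0 (k : ℕ) : List Bool := List.replicate (k + 5) false ++ List.replicate (k + 5) true

lemma lefts_dirs (m : ℕ) : (lefts m).map Prod.snd = List.replicate m false := by
  induction m with
  | zero => rfl
  | succ m ih => simp [lefts, ih, List.replicate_succ]

lemma ups_dirs {Λ : Type*} (l : List Λ) : (ups l).map Prod.snd = List.replicate l.length true := by
  induction l with
  | nil => rfl
  | cons a l ih =>
    simp only [ups, List.map_cons, List.length_cons, List.replicate_succ] at ih ⊢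
    rw [ih]

lemma st0_dirs (k : ℕ) : (st0 k).map Prod.snd = dir0 k := by
  simp only [st0, List.map_append, List.map_cons, lefts_dirs, ups_dirs, length_Cl, dir0]
  have e1 : List.replicate (k + 5) false = List.replicate (k + 4) false ++ [false] := by
    rw [← List.replicate_succ']
  have e2 : List.replicate (k + 5) true = List.replicate 2 true ++
      (List.replicate k true ++ true :: List.replicate 2 true) := by
    rw [← List.replicate_succ, List.replicate_append_replicate, List.replicate_append_replicate]
    congr 1
    omega
  rw [e1, e2]
  simp

lemma st1_dirs (k : ℕ) : (st1 k).map Prod.snd = dir0 k := by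
  simp only [st1, List.map_append, List.map_cons, lefts_dirs, ups_dirs, length_Cl, dir0]
  have e1 : List.replicate (k + 5) false = List.replicate (k + 4) false ++ [false] := by
    rw [← List.replicate_succ']
  have e2 : List.replicate (k + 5) true = List.replicate 2 true ++
      (true :: (List.replicate k true ++ List.replicate 2 true)) := by
    rw [List.replicate_append_replicate, ← List.replicate_succ, List.replicate_append_replicate]
    congr 1
    omega
  rw [e1, e2]
  simp

lemma dir0_getElem? {k i : ℕ} (h1 : k + 5 ≤ i) (h2 : i < 2 * k + 10) :
    (dir0 k)[i]? = some true := by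
  rw [dir0, List.getElem?_append_right (by simpa using h1), List.getElem?_replicate, if_pos]
  simp
  omega

lemma state_neg (k : ℕ) {j : ℕ} (hj : j ≤ k) : (exD k).state ((wpre k).length + j) = dir0 k := by
  have h1 : (exD k).word.take ((wpre k).length + j) = wpre k ++ (aneg k).take j := by
    show (wpre k ++ aneg k ++ wpost k).take ((wpre k).length + j) = _
    rw [List.append_assoc, List.take_length_add_append, List.take_append_of_le_length]
    rw [aneg_length]
    exact hj
  rw [Diagram.state, h1, run_append]
  obtain ⟨⟨K, h2⟩, -⟩ := wpre_good k
  rw [show run (wpre k) [] = some ((st0 k).map Prod.snd) from h2.run, st0_dirs, Option.bind_some,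
    run_same]
  · rfl
  · intro e he
    have he' := List.mem_of_mem_take he
    obtain ⟨i, hi⟩ := List.mem_iff_getElem?.1 he'
    rw [aneg_getElem?] at hi
    split at hi
    · rename_i hik
      have := Option.some.inj hi
      subst this
      exact act_cross_same (dir0_getElem? (by simp only; omega) (by simp only; omega))
        (dir0_getElem? (by simp only; omega) (by simp only; omega))
    · simp at hi

lemma word_neg (k : ℕ) {j : ℕ} (hj : j < k) :
    (exD k).word[(wpre k).length + j]? = some ⟨2 * k + 6 - j, .cross false⟩ := by
  show (wpre k ++ aneg k ++ wpost k)[(wpre k).length + j]? = _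
  rw [List.append_assoc, List.getElem?_append_right (by omega), Nat.add_sub_cancel_left,
    List.getElem?_append_left (by rw [aneg_length]; exact hj), aneg_getElem?, if_pos hj]

lemma up_neg (k : ℕ) {i j : ℕ} (hj : j ≤ k) (h1 : k + 5 ≤ i) (h2 : i < 2 * k + 10) :
    (exD k).up ((wpre k).length + j, i) = true := by
  rw [Diagram.up, state_neg k hj, List.getD_eq_getElem?_getD, dir0_getElem? h1 h2]
  rfl

lemma isNeg_iff (k t : ℕ) :
    (exD k).IsNeg t ↔ (wpre k).length ≤ t ∧ t < (wpre k).length + k := by
  constructor
  · rintro ⟨p, b, he, hb⟩
    by_contra hcon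
    apply hb
    rcases Nat.lt_or_ge t (wpre k).length with ht | ht
    · obtain ⟨⟨K, h2⟩, hpos⟩ := wpre_good k
      have he' : (wpre k)[t]? = some ⟨p, .cross b⟩ := by
        rw [← he]
        show _ = (wpre k ++ aneg k ++ wpost k)[t]?
        rw [List.append_assoc, List.getElem?_append_left ht]
      obtain ⟨s₁, hs₁⟩ := run_take_some h2.run t
      have h3 := hpos.at he' hs₁
      have h4 : (exD k).state t = s₁ := by
        rw [Diagram.state]
        have : (exD k).word.take t = (wpre k).take t := by
          show (wpre k ++ aneg k ++ wpost k).take t = _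
          rw [List.append_assoc, List.take_append_of_le_length ht.le]
        rw [this]
        have hs₁' : run ((wpre k).take t) [] = some s₁ := hs₁
        rw [hs₁']
        rfl
      simp only [Diagram.up, h4]
      exact h3
    · have ht' : (wpre k).length + k ≤ t := by
        by_contra h
        exact hcon ⟨ht, by omega⟩
      obtain ⟨i, rfl⟩ : ∃ i, t = (wpre k).length + k + i := ⟨t - ((wpre k).length + k), by omega⟩
      obtain ⟨⟨K, h2⟩, hpos⟩ := wpost_good k
      have hlen : (wpre k ++ aneg k).length = (wpre k).length + k := by
        rw [List.length_append, aneg_length]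
      have he' : (wpost k)[i]? = some ⟨p, .cross b⟩ := by
        rw [← he]
        show _ = (wpre k ++ aneg k ++ wpost k)[(wpre k).length + k + i]?
        rw [List.getElem?_append_right (by omega), hlen, Nat.add_sub_cancel_left]
      obtain ⟨s₁, hs₁⟩ := run_take_some h2.run i
      have h3 := hpos.at he' hs₁
      have h4 : (exD k).state ((wpre k).length + k + i) = s₁ := by
        rw [Diagram.state]
        have : (exD k).word.take ((wpre k).length + k + i) =
            (wpre k ++ aneg k) ++ (wpost k).take i := by
          show (wpre k ++ aneg k ++ wpost k).take ((wpre k).length + k + i) = _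
          rw [← hlen, List.take_length_add_append]
        rw [this, run_append]
        obtain ⟨⟨K', h5⟩, -⟩ := wpre_good k
        obtain ⟨K'', h6⟩ := aneg_run k
        have h7 := LRun_append.2 ⟨_, _, _, _, _, h5, h6, rfl, rfl⟩
        rw [show run (wpre k ++ aneg k) [] = some ((st1 k).map Prod.snd) from h7.run,
          Option.bind_some, hs₁]
        rfl
      simp only [Diagram.up, h4]
      exact h3
  · rintro ⟨h1, h2⟩
    obtain ⟨j, rfl⟩ : ∃ j, t = (wpre k).length + j := ⟨t - (wpre k).length, by omega⟩
    refine ⟨2 * k + 6 - j, false, word_neg k (by omega), ?_⟩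
    rw [up_neg k (by omega) (by omega) (by omega), up_neg k (by omega) (by omega) (by omega)]
    simp

lemma next_neg (k : ℕ) {j : ℕ} (hj : j < k) :
    (exD k).next ((wpre k).length + j, 2 * k + 7 - j) =
      ((wpre k).length + (j + 1), 2 * k + 7 - (j + 1)) := by
  rw [Diagram.next, up_neg k (by omega) (by omega) (by omega)]
  simp only [if_true]
  rw [Diagram.slice_eq (word_neg k hj)]
  have h1 : ¬ (2 * k + 7 - j = 2 * k + 6 - j) := by omega
  have h2 : 2 * k + 7 - j = 2 * k + 6 - j + 1 := by omega
  simp only [Slice.fromBelow, if_true, if_neg h1, if_pos h2]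
  rw [Prod.mk.injEq]
  omega

lemma iter_neg (k : ℕ) {j : ℕ} (hj : j ≤ k) :
    (exD k).next^[j] ((wpre k).length, 2 * k + 7) = ((wpre k).length + j, 2 * k + 7 - j) := by
  induction j with
  | zero => rfl
  | succ j ih =>
    rw [Function.iterate_succ_apply', ih (by omega), next_neg k (by omega)]

theorem exD_wsap (k : ℕ) : (exD k).WSAP k := by
  refine ⟨?_, fun _ => ⟨((wpre k).length, 2 * k + 7), k, ⟨?_, ?_, ?_⟩, ?_⟩⟩
  · have : {t | (exD k).IsNeg t} = ↑(Finset.Ico (wpre k).length ((wpre k).length + k)) := by
      ext t
      simp [isNeg_iff]
    rw [this, Set.ncard_coe_finset, Nat.card_Ico]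
    omega
  · have := state_neg k (j := 0) (by omega)
    rw [Nat.add_zero] at this
    simp only [this, dir0]
    simp
    omega
  · intro i hi j hj hij
    rw [iter_neg k hi, iter_neg k hj, Prod.mk.injEq] at hij
    omega
  · rintro j hj t ⟨p, b, he, hx⟩
    rw [iter_neg k hj.le, up_neg k hj.le (by omega) (by omega)] at hx
    simp only [if_true, Prod.mk.injEq] at hx
    obtain ⟨rfl, hx⟩ := hx
    rw [word_neg k hj] at he
    simp only [Option.some.injEq, Slice.mk.injEq, Piece.cross.injEq] at he
    obtain ⟨rfl, rfl⟩ := he
    rw [if_neg (by simp)] at hx
    omega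
  · intro t ht
    rw [isNeg_iff] at ht
    obtain ⟨j, rfl⟩ : ∃ j, t = (wpre k).length + j := ⟨t - (wpre k).length, by omega⟩
    refine ⟨j, by omega, 2 * k + 6 - j, false, word_neg k (by omega), ?_⟩
    rw [iter_neg k (by omega), up_neg k (by omega) (by omega) (by omega)]
    simp only [if_true, Bool.false_eq_true, if_false, Prod.mk.injEq]
    exact ⟨trivial, by omega⟩

end Pool.Agent.Lib_helper21.Wsap
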